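import Pool.Agent.H801Z.TL.Comb

/-! The system of cells given by a rational rotation of the circle. -/

set_option autoImplicit false

namespace Pool.Agent.H801Z.TL

open Finset

/-- Two terms of a progression are far apart on the circle. -/
def farC (K N a s i j : ℕ) : Prop :=
  ∀ z : ℤ, 3 ≤ |((K * (a + i * s) / N : ℕ) : ℤ) - ((K * (a + j * s) / N : ℕ) : ℤ) - K * z|

lemma sys_circle (K N Q : ℕ) (hK : 0 < K) (hN : 0 < N) (hQ : 0 < Q) :
    Sys Q 2 ((K * Q) * (K * Q)) (farC K N) := by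
  classical
  refine ⟨ℕ, fun n => (K * n / N) % K,
    (range (K * Q) ×ˢ range (K * Q)).image fun p => fun i =>
      {((p.1 + i * p.2) / Q) % K, ((p.1 + i * p.2) / Q + 1) % K}, ?_, ?_, fun a s => ?_⟩
  · refine card_image_le.trans ?_
    rw [card_product, card_range]
  · intro A hA i
    obtain ⟨p, -, rfl⟩ := mem_image.mp hA
    exact card_le_two
  · set X := Q * (K * a) / N with hX
    set Y := Q * (K * s) / N with hY
    have hKQ : 0 < K * Q := Nat.mul_pos hK hQ
    have hz : ∀ i, (X + i * Y) / Q = (X % (K * Q) + i * (Y % (K * Q))) / Q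
        + K * (X / (K * Q) + i * (Y / (K * Q))) := by
      intro i
      have e1 := Nat.mod_add_div X (K * Q)
      have e2 := Nat.mod_add_div Y (K * Q)
      have e3 : X + i * Y = (X % (K * Q) + i * (Y % (K * Q)))
          + Q * (K * (X / (K * Q) + i * (Y / (K * Q)))) := by
        conv_lhs => rw [← e1, ← e2]
        ring
      rw [e3, Nat.add_mul_div_left _ _ hQ]
    have hu : ∀ i < Q, K * (a + i * s) / N = (X + i * Y) / Q ∨
        K * (a + i * s) / N = (X + i * Y) / Q + 1 := by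
      intro i hi
      have e : K * (a + i * s) = K * a + i * (K * s) := by ring
      rw [e]
      exact floor_pattern N Q _ _ i hN hi
    refine ⟨_, mem_image.mpr ⟨(X % (K * Q), Y % (K * Q)), mem_product.mpr
      ⟨mem_range.mpr (Nat.mod_lt _ hKQ), mem_range.mpr (Nat.mod_lt _ hKQ)⟩, rfl⟩,
      fun i hi => ?_, fun i hi j hj hf => ?_⟩
    · simp only [mem_insert, mem_singleton]
      rcases hu i hi with h | h
      · left; rw [h, hz i, Nat.add_mul_mod_self_left]
      · right; rw [h, hz i, add_right_comm, Nat.add_mul_mod_self_left]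
    · rw [disjoint_left]
      intro y hy hy'
      have k1 : ∀ l < Q, y ∈ ({((X % (K * Q) + l * (Y % (K * Q))) / Q) % K,
          ((X % (K * Q) + l * (Y % (K * Q))) / Q + 1) % K} : Finset ℕ) →
          ∃ t e : ℤ, -1 ≤ e ∧ e ≤ 1 ∧ ((K * (a + l * s) / N : ℕ) : ℤ) = y + K * t + e := by
        intro l hl hy
        have a1 := hu l hl
        rw [hz l] at a1
        generalize (X % (K * Q) + l * (Y % (K * Q))) / Q = z at a1 hy
        generalize X / (K * Q) + l * (Y / (K * Q)) = t at a1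
        generalize K * (a + l * s) / N = u at a1
        simp only [mem_insert, mem_singleton] at hy
        have m1 := Nat.mod_add_div z K
        have m2 := Nat.mod_add_div (z + 1) K
        rcases hy with hy | hy
        · rw [← hy] at m1
          generalize z / K = v at m1
          rcases a1 with a1 | a1
          · exact ⟨v + t, 0, by norm_num, by norm_num, by rw [a1, ← m1]; push_cast; ring⟩
          · exact ⟨v + t, 1, by norm_num, by norm_num, by rw [a1, ← m1]; push_cast; ring⟩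
        · rw [← hy] at m2
          generalize (z + 1) / K = v at m2
          have m3 : (y : ℤ) + K * v = z + 1 := by exact_mod_cast m2
          rcases a1 with a1 | a1
          · exact ⟨v + t, -1, by norm_num, by norm_num, by rw [a1]; push_cast; linarith⟩
          · exact ⟨v + t, 0, by norm_num, by norm_num, by rw [a1]; push_cast; linarith⟩
      obtain ⟨t, e, h1, h2, h3⟩ := k1 i hi hy
      obtain ⟨t', e', h1', h2', h3'⟩ := k1 j hj hy'
      have := hf (t - t')
      rw [h3, h3'] at this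
      have e4 : (y : ℤ) + K * t + e - (y + K * t' + e') - K * (t - t') = e - e' := by ring
      rw [e4, le_abs] at this
      omega

lemma circle_sep (N Q : ℕ) (hN : 0 < N) (hQ : 2 ≤ Q) (s : ℕ) (hs : ¬ N ∣ s) (a : ℕ) :
    ∃ w, w ≤ Q ^ 2 * (N * (Q ^ 2).factorial) ∧ ∀ i < Q, ∀ j < Q, i ≠ j →
      farC (8 * Q ^ 2) (N * (Q ^ 2).factorial) a (w * s) i j := by
  set N' := N * (Q ^ 2).factorial with hN'
  have hN'0 : 0 < N' := Nat.mul_pos hN (Nat.factorial_pos _)
  have hN'r : (0 : ℝ) < N' := by exact_mod_cast hN'0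
  have hQ2 : 0 < Q ^ 2 := by positivity
  have hQr : (2 : ℝ) ≤ Q := by exact_mod_cast hQ
  obtain ⟨m, k, hk0, hk1, hk⟩ := Real.exists_int_int_abs_mul_sub_le ((s : ℝ) / N') hQ2
  obtain ⟨k, rfl⟩ := Int.eq_ofNat_of_zero_le hk0.le
  have hk0' : 0 < k := by exact_mod_cast hk0
  have hk1' : k ≤ Q ^ 2 := by exact_mod_cast hk1
  set ρ : ℤ := k * s - m * N' with hρ
  have hρ0 : ρ ≠ 0 := by
    intro h
    apply hs
    obtain ⟨c, hc⟩ := Nat.dvd_factorial hk0' hk1'
    have e1 : (k : ℤ) * s = k * (N * (m * c)) := by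
      have : (k : ℤ) * s = m * N' := by linarith
      rw [this, hN', hc]; push_cast; ring
    have e2 : (s : ℤ) = N * (m * c) := mul_left_cancel₀ (by exact_mod_cast hk0'.ne') e1
    exact Int.natCast_dvd_natCast.mp ⟨_, e2⟩
  set τ₀ : ℝ := (ρ : ℝ) / N' with hτ₀
  have eτ : ((k : ℤ) : ℝ) * ((s : ℝ) / N') - m = τ₀ := by
    rw [hτ₀, hρ]; push_cast; field_simp
  rw [eτ] at hk
  have hτ1 : 1 / (N' : ℝ) ≤ |τ₀| := by
    rw [hτ₀, abs_div, abs_of_pos hN'r]
    apply div_le_div_of_nonneg_right _ hN'r.le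
    have : (1 : ℤ) ≤ |ρ| := Int.one_le_abs hρ0
    exact_mod_cast this
  have hτpos : 0 < |τ₀| := lt_of_lt_of_le (by positivity) hτ1
  have hq2 : (0 : ℝ) < (Q : ℝ) ^ 2 := by positivity
  have hτ2 : |τ₀| * (Q : ℝ) ^ 2 ≤ 1 := by
    push_cast at hk
    rw [le_div_iff₀ (by positivity)] at hk
    nlinarith
  set w₀ := ⌊1 / (|τ₀| * (Q : ℝ) ^ 2)⌋₊ with hw₀
  have hp : 0 < |τ₀| * (Q : ℝ) ^ 2 := by positivity
  have hw1 : 1 ≤ w₀ := by
    rw [hw₀, Nat.one_le_floor_iff, le_div_iff₀ hp]; linarith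
  have hw2 : (w₀ : ℝ) * (|τ₀| * (Q : ℝ) ^ 2) ≤ 1 := by
    rw [← le_div_iff₀ hp]; exact Nat.floor_le (by positivity)
  have hw3 : 1 < 2 * ((w₀ : ℝ) * (|τ₀| * (Q : ℝ) ^ 2)) := by
    have a1 : 1 / (|τ₀| * (Q : ℝ) ^ 2) < w₀ + 1 := Nat.lt_floor_add_one _
    rw [div_lt_iff₀ hp] at a1
    have a2 : (1 : ℝ) ≤ w₀ := by exact_mod_cast hw1
    nlinarith
  have hw4 : w₀ ≤ N' := by
    have a1 : (w₀ : ℝ) * (1 / N' * 1) ≤ w₀ * (|τ₀| * (Q : ℝ) ^ 2) := by
      gcongr
      nlinarith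
    have a2 : (w₀ : ℝ) * (1 / N' * 1) ≤ 1 := a1.trans hw2
    rw [mul_one, mul_one_div, div_le_one hN'r] at a2
    exact_mod_cast a2
  refine ⟨k * w₀, Nat.mul_le_mul hk1' hw4, fun i hi j hj hij z => ?_⟩
  set K := 8 * Q ^ 2 with hK
  have hKr : (K : ℝ) = 8 * (Q : ℝ) ^ 2 := by rw [hK]; push_cast; ring
  have f1 : ∀ n : ℕ, ((n / N' : ℕ) : ℝ) ≤ n / N' ∧ (n : ℝ) / N' < ((n / N' : ℕ) : ℝ) + 1 := by
    intro n
    refine ⟨Nat.cast_div_le, ?_⟩
    rw [div_lt_iff₀ hN'r]
    have := Nat.lt_div_mul_add (a := n) hN'0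
    have h2 : n < (n / N' + 1) * N' := by nlinarith
    exact_mod_cast h2
  obtain ⟨u1, u2⟩ := f1 (K * (a + i * (k * w₀ * s)))
  obtain ⟨v1, v2⟩ := f1 (K * (a + j * (k * w₀ * s)))
  generalize K * (a + i * (k * w₀ * s)) / N' = u at u1 u2 ⊢
  generalize K * (a + j * (k * w₀ * s)) / N' = v at v1 v2 ⊢
  have ek : (k : ℝ) * s / N' = m + τ₀ := by rw [← eτ]; push_cast; ring
  have ed : ((K * (a + i * (k * w₀ * s)) : ℕ) : ℝ) / N' - ((K * (a + j * (k * w₀ * s)) : ℕ) : ℝ) / N'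
      = K * (((i : ℝ) - j) * w₀ * m) + K * (((i : ℝ) - j) * w₀ * τ₀) := by
    have : ((K * (a + i * (k * w₀ * s)) : ℕ) : ℝ) / N' - ((K * (a + j * (k * w₀ * s)) : ℕ) : ℝ) / N'
        = K * (((i : ℝ) - j) * w₀) * ((k : ℝ) * s / N') := by push_cast; ring
    rw [this, ek]; ring
  set T : ℝ := K * (((i : ℝ) - j) * w₀ * τ₀) with hT
  have hij1 : (1 : ℝ) ≤ |(i : ℝ) - j| := by
    have : (1 : ℤ) ≤ |(i : ℤ) - j| := Int.one_le_abs (by omega)
    exact_mod_cast this
  have hij2 : |(i : ℝ) - j| ≤ Q := by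
    have a1 : (i : ℝ) < Q := by exact_mod_cast hi
    have a2 : (j : ℝ) < Q := by exact_mod_cast hj
    have a3 : (0 : ℝ) ≤ i := by positivity
    have a4 : (0 : ℝ) ≤ j := by positivity
    rw [abs_le]; constructor <;> linarith
  have hTabs : |T| = 8 * |(i : ℝ) - j| * ((w₀ : ℝ) * (|τ₀| * (Q : ℝ) ^ 2)) := by
    rw [hT, hKr, abs_mul, abs_of_pos (by positivity : (0 : ℝ) < 8 * (Q : ℝ) ^ 2), abs_mul, abs_mul,
      Nat.abs_cast]
    ring
  have hT1 : 4 < |T| := by rw [hTabs]; nlinarith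
  have hT2 : |T| ≤ 8 * Q := by rw [hTabs]; nlinarith
  set z' : ℤ := ((i : ℤ) - j) * w₀ * m - z with hz'
  have hz'r : (z' : ℝ) = ((i : ℝ) - j) * w₀ * m - z := by rw [hz']; push_cast; ring
  have goal : (2 : ℝ) < |(u : ℝ) - v - K * z| := by
    have e1 : (u : ℝ) - v - K * z = K * z' + T + ((u - ((K * (a + i * (k * w₀ * s)) : ℕ) : ℝ) / N')
        - (v - ((K * (a + j * (k * w₀ * s)) : ℕ) : ℝ) / N')) := by
      rw [hz'r]; linarith
    have e2 : 3 < |(K : ℝ) * z' + T| := by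
      by_cases h0 : z' = 0
      · rw [h0]; simp; linarith
      · have a1 : (1 : ℝ) ≤ |(z' : ℝ)| := by
          have : (1 : ℤ) ≤ |z'| := Int.one_le_abs h0
          exact_mod_cast this
        have a2 : |(K : ℝ) * z'| ≤ |(K : ℝ) * z' + T| + |T| := by
          have := abs_sub ((K : ℝ) * z' + T) T
          rwa [add_sub_cancel_right] at this
        rw [abs_mul, hKr, abs_of_pos (by positivity : (0 : ℝ) < 8 * (Q : ℝ) ^ 2)] at a2
        rw [hKr]
        nlinarith
    rw [e1]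
    rw [lt_abs] at e2 ⊢
    rcases e2 with e2 | e2
    · left; linarith
    · right; linarith
  have : (2 : ℤ) < |(u : ℤ) - v - K * z| := by exact_mod_cast goal
  omega

end Pool.Agent.H801Z.TL
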