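import Mathlib

/-! Combinatorial tools: maximal separated families, random two colourings, systems of cells. -/

set_option autoImplicit false

namespace Pool.Agent.H801Z.TL

open Finset

/-- A maximal separated finite family. -/
lemma exists_max_sep {α : Type} (D : α → Prop) (R : α → α → Prop) (hrefl : ∀ x, R x x)
    (hsymm : ∀ x y, R x y → R y x) (b : ℕ)
    (hb : ∀ F : Finset α, (∀ x ∈ F, D x) → (∀ x ∈ F, ∀ y ∈ F, x ≠ y → ¬ R x y) → F.card ≤ b) :
    ∃ F : Finset α, (∀ x ∈ F, D x) ∧ (∀ x ∈ F, ∀ y ∈ F, x ≠ y → ¬ R x y) ∧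
      ∀ x, D x → ∃ f ∈ F, R x f := by
  classical
  let P : ℕ → Prop := fun n => ∃ F : Finset α, (∀ x ∈ F, D x) ∧
    (∀ x ∈ F, ∀ y ∈ F, x ≠ y → ¬ R x y) ∧ F.card = n
  have h0 : P 0 := ⟨∅, by simp, by simp, rfl⟩
  have hP : P (Nat.findGreatest P b) := Nat.findGreatest_spec (Nat.zero_le b) h0
  obtain ⟨F, h1, h2, h3⟩ := hP
  refine ⟨F, h1, h2, fun x hx => ?_⟩
  by_contra hne
  push Not at hne
  have hxF : x ∉ F := fun h => hne x h (hrefl x)
  have a1 : ∀ y ∈ insert x F, D y := by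
    intro y hy
    rcases mem_insert.mp hy with rfl | hy
    · exact hx
    · exact h1 y hy
  have a2 : ∀ y ∈ insert x F, ∀ z ∈ insert x F, y ≠ z → ¬ R y z := by
    intro y hy z hz hyz
    rcases mem_insert.mp hy with e | hy'
    · rcases mem_insert.mp hz with e' | hz'
      · exact absurd (e.trans e'.symm) hyz
      · rw [e]; exact hne z hz'
    · rcases mem_insert.mp hz with e' | hz'
      · rw [e']; exact fun h => hne y hy' (hsymm _ _ h)
      · exact h2 y hy' z hz' hyz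
  have hle := hb _ a1 a2
  have hP' : P (insert x F).card := ⟨_, a1, a2, rfl⟩
  have := Nat.le_findGreatest hle hP'
  rw [card_insert_of_notMem hxF, h3] at this
  omega

section colouring

variable {F : Type} [DecidableEq F]

lemma count_gen (Ω : Finset F) (B : ℕ) (good : Finset F → Finset F → Prop)
    (ov : Finset F → Finset F → Finset F)
    (h1 : ∀ A R, good A (ov A R))
    (h2 : ∀ A R, A ⊆ Ω → R ⊆ Ω → ov A R ⊆ Ω)
    (h3 : ∀ A A' R, Disjoint A A' → (good A' (ov A R) ↔ good A' R))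
    (h4 : ∀ A R R', ov A R = ov A R' → R ∩ A = R' ∩ A → R = R')
    (A : ℕ → Finset F) (I : Finset ℕ) (hΩ : ∀ i ∈ I, A i ⊆ Ω) (hB : ∀ i ∈ I, (A i).card ≤ B)
    (hd : ∀ i ∈ I, ∀ j ∈ I, i ≠ j → Disjoint (A i) (A j))
    [∀ I : Finset ℕ, DecidablePred fun R : Finset F => ∀ i ∈ I, ¬ good (A i) R] :
    (((Ω.powerset.filter fun R => ∀ i ∈ I, ¬ good (A i) R).card : ℕ) : ℝ)
      ≤ (1 - 1 / 2 ^ B) ^ I.card * 2 ^ Ω.card := by
  classical
  induction I using Finset.induction_on with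
  | empty => simp
  | insert i I hi ih =>
    have ih' := ih (fun j hj => hΩ j (mem_insert_of_mem hj)) (fun j hj => hB j (mem_insert_of_mem hj))
      (fun j hj k hk => hd j (mem_insert_of_mem hj) k (mem_insert_of_mem hk))
    set Z := Ω.powerset.filter fun R => ∀ j ∈ I, ¬ good (A j) R with hZ
    have hiΩ := hΩ i (mem_insert_self _ _)
    have hiB := hB i (mem_insert_self _ _)
    have hmap : ∀ R ∈ Z, ov (A i) R ∈ Z.filter fun R => good (A i) R := by
      intro R hR
      rw [hZ, mem_filter, mem_powerset] at hR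
      rw [mem_filter, hZ, mem_filter, mem_powerset]
      refine ⟨⟨h2 _ _ hiΩ hR.1, fun j hj => ?_⟩, h1 _ _⟩
      rw [h3 _ _ _ (hd i (mem_insert_self _ _) j (mem_insert_of_mem hj)
        (fun e => hi (e ▸ hj)))]
      exact hR.2 j hj
    have hfib : ∀ b ∈ Z.filter fun R => good (A i) R,
        (Z.filter fun R => ov (A i) R = b).card ≤ 2 ^ B := by
      intro b _
      calc (Z.filter fun R => ov (A i) R = b).card ≤ (A i).powerset.card := by
            apply card_le_card_of_injOn (fun R => R ∩ A i)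
            · intro R _
              simp only [coe_powerset, Set.mem_preimage, Set.mem_powerset_iff, coe_inter]
              exact Set.inter_subset_right
            · intro R hR R' hR' e
              simp only [coe_filter, Set.mem_ofPred_eq] at hR hR'
              exact h4 _ _ _ (hR.2.trans hR'.2.symm) e
        _ = 2 ^ (A i).card := card_powerset _
        _ ≤ 2 ^ B := Nat.pow_le_pow_right (by norm_num) hiB
    have hc := card_le_mul_card_image_of_maps_to hmap (2 ^ B) hfib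
    have hsplit := card_filter_add_card_filter_not (s := Z) (fun R => good (A i) R)
    have he : (Ω.powerset.filter fun R => ∀ j ∈ insert i I, ¬ good (A j) R)
        = Z.filter fun R => ¬ good (A i) R := by
      ext R
      simp only [hZ, mem_filter, mem_insert, forall_eq_or_imp]
      tauto
    rw [he, card_insert_of_notMem hi, pow_succ]
    have hc' : (Z.card : ℝ) ≤ 2 ^ B * ((Z.filter fun R => good (A i) R).card : ℝ) := by
      exact_mod_cast hc
    have hs' : ((Z.filter fun R => good (A i) R).card : ℝ)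
        + ((Z.filter fun R => ¬ good (A i) R).card : ℝ) = Z.card := by exact_mod_cast hsplit
    have hp : (0 : ℝ) < 2 ^ B := by positivity
    have h5 : (Z.card : ℝ) / 2 ^ B ≤ ((Z.filter fun R => good (A i) R).card : ℝ) := by
      rw [div_le_iff₀ hp]; linarith
    have h6 : (0 : ℝ) ≤ 1 - 1 / 2 ^ B := by
      rw [sub_nonneg, div_le_one hp]; exact one_le_pow₀ (by norm_num)
    calc ((Z.filter fun R => ¬ good (A i) R).card : ℝ) ≤ (Z.card : ℝ) * (1 - 1 / 2 ^ B) := by
          rw [mul_sub, mul_one, mul_one_div]; linarith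
      _ ≤ ((1 - 1 / 2 ^ B) ^ I.card * 2 ^ Ω.card) * (1 - 1 / 2 ^ B) :=
          mul_le_mul_of_nonneg_right ih' h6
      _ = _ := by ring

lemma exists_colouring (H : Finset (ℕ → Finset F)) (I : (ℕ → Finset F) → Finset ℕ) (B m : ℕ)
    (hB : ∀ A ∈ H, ∀ i, (A i).card ≤ B) (hm : ∀ A ∈ H, m ≤ (I A).card)
    (hd : ∀ A ∈ H, ∀ i ∈ I A, ∀ j ∈ I A, i ≠ j → Disjoint (A i) (A j))
    (hnum : 2 * (H.card : ℝ) * (1 - 1 / 2 ^ B) ^ m < 1) :
    ∃ R : Finset F, ∀ A ∈ H, (∃ i ∈ I A, A i ⊆ R) ∧ ∃ i ∈ I A, Disjoint (A i) R := by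
  classical
  set Ω : Finset F := H.biUnion fun A => (I A).biUnion A with hΩ
  have hsub : ∀ A ∈ H, ∀ i ∈ I A, A i ⊆ Ω := by
    intro A hA i hi x hx
    exact mem_biUnion.mpr ⟨A, hA, mem_biUnion.mpr ⟨i, hi, hx⟩⟩
  have hp : (0 : ℝ) < 2 ^ B := by positivity
  have h6 : (0 : ℝ) ≤ 1 - 1 / 2 ^ B := by
    rw [sub_nonneg, div_le_one hp]; exact one_le_pow₀ (by norm_num)
  have h7 : (1 - 1 / 2 ^ B : ℝ) ≤ 1 := by
    have : (0 : ℝ) < 1 / 2 ^ B := by positivity
    linarith
  have b1 : ∀ A ∈ H, (((Ω.powerset.filter fun R => ∀ i ∈ I A, ¬ A i ⊆ R).card : ℕ) : ℝ)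
      ≤ (1 - 1 / 2 ^ B) ^ m * 2 ^ Ω.card := by
    intro A hA
    refine (count_gen Ω B (fun A R => A ⊆ R) (fun A R => R ∪ A) (fun _ _ => subset_union_right)
      (fun _ _ h h' => union_subset h' h) ?_ ?_ A (I A) (hsub A hA) (fun i _ => hB A hA i)
      (hd A hA)).trans ?_
    · intro A A' R h
      constructor
      · intro h' x hx
        rcases mem_union.mp (h' hx) with h'' | h''
        · exact h''
        · exact absurd hx (disjoint_left.mp h h'')
      · exact fun h' => h'.trans subset_union_left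
    · intro A R R' e1 e2
      ext x
      have a1 := congrArg (x ∈ ·) e1
      have a2 := congrArg (x ∈ ·) e2
      simp only [mem_union, mem_inter, eq_iff_iff] at a1 a2
      tauto
    · exact mul_le_mul_of_nonneg_right (pow_le_pow_of_le_one h6 h7 (hm A hA)) (by positivity)
  have b2 : ∀ A ∈ H, (((Ω.powerset.filter fun R => ∀ i ∈ I A, ¬ Disjoint (A i) R).card : ℕ) : ℝ)
      ≤ (1 - 1 / 2 ^ B) ^ m * 2 ^ Ω.card := by
    intro A hA
    refine (count_gen Ω B (fun A R => Disjoint A R) (fun A R => R \ A) (fun _ _ => disjoint_sdiff)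
      (fun _ _ _ h' => sdiff_subset.trans h') ?_ ?_ A (I A) (hsub A hA) (fun i _ => hB A hA i)
      (hd A hA)).trans ?_
    · intro A A' R h
      simp only [disjoint_left, mem_sdiff] at h ⊢
      constructor
      · intro h' x hx hR
        exact h' hx ⟨hR, fun h'' => h h'' hx⟩
      · exact fun h' x hx hR => h' hx hR.1
    · intro A R R' e1 e2
      ext x
      have a1 := congrArg (x ∈ ·) e1
      have a2 := congrArg (x ∈ ·) e2
      simp only [mem_sdiff, mem_inter, eq_iff_iff] at a1 a2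
      tauto
    · exact mul_le_mul_of_nonneg_right (pow_le_pow_of_le_one h6 h7 (hm A hA)) (by positivity)
  by_contra hne
  push Not at hne
  have hcov : Ω.powerset ⊆ H.biUnion fun A =>
      (Ω.powerset.filter fun R => ∀ i ∈ I A, ¬ A i ⊆ R) ∪
      (Ω.powerset.filter fun R => ∀ i ∈ I A, ¬ Disjoint (A i) R) := by
    intro R hR
    obtain ⟨A, hA, h⟩ := hne R
    refine mem_biUnion.mpr ⟨A, hA, ?_⟩
    rw [mem_union, mem_filter, mem_filter]
    by_cases h1 : ∃ i ∈ I A, A i ⊆ R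
    · exact Or.inr ⟨hR, h h1⟩
    · push Not at h1
      exact Or.inl ⟨hR, h1⟩
  have c1 := (card_le_card hcov).trans card_biUnion_le
  rw [card_powerset] at c1
  have c2 : ((2 ^ Ω.card : ℕ) : ℝ) ≤ ∑ A ∈ H, (2 * ((1 - 1 / 2 ^ B) ^ m * 2 ^ Ω.card) : ℝ) := by
    refine (Nat.cast_le.mpr c1).trans ?_
    rw [Nat.cast_sum]
    refine sum_le_sum fun A hA => ?_
    have := card_union_le (Ω.powerset.filter fun R => ∀ i ∈ I A, ¬ A i ⊆ R)
      (Ω.powerset.filter fun R => ∀ i ∈ I A, ¬ Disjoint (A i) R)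
    have t1 := b1 A hA
    have t2 := b2 A hA
    have t3 := (Nat.cast_le (α := ℝ)).mpr this
    push_cast at t3
    linarith
  rw [sum_const, nsmul_eq_mul] at c2
  push_cast at c2
  have : (0 : ℝ) < 2 ^ Ω.card := by positivity
  nlinarith

end colouring

/-- A system of cells of low complexity along progressions with `Q` terms. -/
def Sys (Q B M : ℕ) (far : ℕ → ℕ → ℕ → ℕ → Prop) : Prop :=
  ∃ (F : Type) (c : ℕ → F) (H : Finset (ℕ → Finset F)), H.card ≤ M ∧
    (∀ A ∈ H, ∀ i, (A i).card ≤ B) ∧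
    ∀ a s, ∃ A ∈ H, (∀ i < Q, c (a + i * s) ∈ A i) ∧
      ∀ i < Q, ∀ j < Q, far a s i j → Disjoint (A i) (A j)

lemma Sys.mono {Q B M : ℕ} {far far' : ℕ → ℕ → ℕ → ℕ → Prop} (h : Sys Q B M far)
    (hf : ∀ a s i j, far' a s i j → far a s i j) : Sys Q B M far' := by
  obtain ⟨F, c, H, h1, h2, h3⟩ := h
  refine ⟨F, c, H, h1, h2, fun a s => ?_⟩
  obtain ⟨A, hA, h4, h5⟩ := h3 a s
  exact ⟨A, hA, h4, fun i hi j hj h => h5 i hi j hj (hf _ _ _ _ h)⟩

lemma Sys.triv (Q : ℕ) : Sys Q 1 1 fun _ _ _ _ => False :=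
  ⟨Unit, fun _ => (), {fun _ => {()}}, by simp, by simp, fun _ _ => ⟨fun _ => {()}, by simp,
    by simp, by simp⟩⟩

lemma Sys.prod {Q B M B' M' : ℕ} {far far' : ℕ → ℕ → ℕ → ℕ → Prop} (h : Sys Q B M far)
    (h' : Sys Q B' M' far') :
    Sys Q (B * B') (M * M') fun a s i j => far a s i j ∨ far' a s i j := by
  classical
  obtain ⟨F, c, H, h1, h2, h3⟩ := h
  obtain ⟨F', c', H', h1', h2', h3'⟩ := h'
  refine ⟨F × F', fun n => (c n, c' n),
    (H ×ˢ H').image fun p => fun i => p.1 i ×ˢ p.2 i, ?_, ?_, fun a s => ?_⟩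
  · refine card_image_le.trans ?_
    rw [card_product]
    exact Nat.mul_le_mul h1 h1'
  · intro A hA i
    obtain ⟨p, hp, rfl⟩ := mem_image.mp hA
    rw [mem_product] at hp
    simp only [card_product]
    exact Nat.mul_le_mul (h2 _ hp.1 i) (h2' _ hp.2 i)
  · obtain ⟨A, hA, h4, h5⟩ := h3 a s
    obtain ⟨A', hA', h4', h5'⟩ := h3' a s
    refine ⟨fun i => A i ×ˢ A' i, mem_image.mpr ⟨(A, A'), mem_product.mpr ⟨hA, hA'⟩, rfl⟩,
      fun i hi => mem_product.mpr ⟨h4 i hi, h4' i hi⟩, fun i hi j hj h => ?_⟩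
    rw [disjoint_product]
    rcases h with h | h
    · exact Or.inl (h5 i hi j hj h)
    · exact Or.inr (h5' i hi j hj h)

/-- The colouring obtained from a system. -/
theorem Sys.colour {Q B M m k : ℕ} {far : ℕ → ℕ → ℕ → ℕ → Prop} (h : Sys Q B M far)
    (hnum : 2 * (M : ℝ) * (1 - 1 / 2 ^ B) ^ m < 1) (S : Set ℕ)
    (hS : ∀ s ∈ S, ∀ a, ∃ b w, b + Q * w ≤ k ∧ ∃ I ⊆ range Q, m ≤ I.card ∧
      ∀ i ∈ I, ∀ j ∈ I, i ≠ j → far (a + b * s) (w * s) i j) :
    ∃ χ : ℕ → Bool, ∀ s ∈ S, ∀ a, ∃ i ≤ k, ∃ j ≤ k, χ (a + i * s) ≠ χ (a + j * s) := by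
  classical
  obtain ⟨F, c, H, h1, h2, h3⟩ := h
  let P : (ℕ → Finset F) → Prop := fun A => ∃ I ⊆ range Q, m ≤ I.card ∧
    ∀ i ∈ I, ∀ j ∈ I, i ≠ j → Disjoint (A i) (A j)
  have hch : ∀ A, ∃ I : Finset ℕ, P A → I ⊆ range Q ∧ m ≤ I.card ∧
      ∀ i ∈ I, ∀ j ∈ I, i ≠ j → Disjoint (A i) (A j) := by
    intro A
    by_cases hA : P A
    · obtain ⟨I, hI⟩ := hA
      exact ⟨I, fun _ => hI⟩
    · exact ⟨∅, fun h => absurd h hA⟩
  choose I hI using hch
  have hp : (0 : ℝ) < 2 ^ B := by positivity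
  have h6 : (0 : ℝ) ≤ 1 - 1 / 2 ^ B := by
    rw [sub_nonneg, div_le_one hp]; exact one_le_pow₀ (by norm_num)
  obtain ⟨R, hR⟩ := exists_colouring (H.filter P) I B m
    (fun A hA => h2 A (mem_filter.mp hA).1) (fun A hA => (hI A (mem_filter.mp hA).2).2.1)
    (fun A hA => (hI A (mem_filter.mp hA).2).2.2) (by
      refine lt_of_le_of_lt ?_ hnum
      have : ((H.filter P).card : ℝ) ≤ M := by
        exact_mod_cast (card_filter_le _ _).trans h1
      have h8 := pow_nonneg h6 m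
      gcongr)
  refine ⟨fun n => decide (c n ∈ R), fun s hs a => ?_⟩
  obtain ⟨b, w, hk, J, hJ, hJm, hfar⟩ := hS s hs a
  obtain ⟨A, hA, h4, h5⟩ := h3 (a + b * s) (w * s)
  have hPA : P A := ⟨J, hJ, hJm, fun i hi j hj hij =>
    h5 i (mem_range.mp (hJ hi)) j (mem_range.mp (hJ hj)) (hfar i hi j hj hij)⟩
  obtain ⟨⟨i, hi, h7⟩, j, hj, h8⟩ := hR A (mem_filter.mpr ⟨hA, hPA⟩)
  have hiQ := mem_range.mp ((hI A hPA).1 hi)
  have hjQ := mem_range.mp ((hI A hPA).1 hj)
  have e : ∀ i, a + (b + i * w) * s = a + b * s + i * (w * s) := fun i => by ring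
  refine ⟨b + i * w, ?_, b + j * w, ?_, ?_⟩
  · exact le_trans (Nat.add_le_add_left (Nat.mul_le_mul_right _ hiQ.le) _) hk
  · exact le_trans (Nat.add_le_add_left (Nat.mul_le_mul_right _ hjQ.le) _) hk
  · rw [e, e]
    have a1 : c (a + b * s + i * (w * s)) ∈ R := h7 (h4 i hiQ)
    have a2 : c (a + b * s + j * (w * s)) ∉ R := disjoint_left.mp h8 (h4 j hjQ)
    simp [a1, a2]

/-- Finitary van der Waerden theorem. -/
lemma vdw (d : ℕ) (κ : Type) [Finite κ] : ∃ J : ℕ, ∀ χ : ℕ → κ, ∃ b j, b ≤ d * J ∧ 1 ≤ j ∧ j ≤ J ∧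
    ∀ i ≤ d, χ (b + j * i) = χ b := by
  classical
  obtain ⟨ι, _inst, hι⟩ := Combinatorics.Line.exists_mono_in_high_dimension (Fin (d + 1)) κ
  refine ⟨Fintype.card ι, fun χ => ?_⟩
  obtain ⟨l, c, hl⟩ := hι fun v => χ <| ∑ i, (v i : ℕ)
  set s : Finset ι := {i | l.idxFun i = none} with hs
  have hpos : 0 < #s := by
    refine Finset.card_pos.mpr ⟨l.proper.choose, ?_⟩
    rw [hs, Finset.mem_filter]
    exact ⟨Finset.mem_univ _, l.proper.choose_spec⟩
  have hle : #s ≤ Fintype.card ι := Finset.card_le_univ s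
  have key : ∀ x : Fin (d + 1),
      χ (∑ i ∈ sᶜ, ((l.idxFun i).map (fun m : Fin (d + 1) => (m : ℕ))).getD 0 + #s * x) = c := by
    intro x
    rw [← hl x]
    congr 1
    rw [← Finset.sum_add_sum_compl s, add_comm]
    congr 1
    · rw [← smul_eq_mul, ← Finset.sum_const]
      apply Finset.sum_congr rfl
      intro i hi
      rw [hs, Finset.mem_filter] at hi
      rw [l.apply_none _ _ hi.right]
    · apply Finset.sum_congr rfl
      intro i hi
      rw [hs, Finset.compl_filter, Finset.mem_filter] at hi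
      obtain ⟨y, hy⟩ := Option.ne_none_iff_exists.mp hi.right
      simp [← hy, Combinatorics.Line.coe_apply, Option.map_some, Option.getD]
  refine ⟨∑ i ∈ sᶜ, ((l.idxFun i).map (fun m : Fin (d + 1) => (m : ℕ))).getD 0, #s, ?_, hpos, hle,
    fun i hi => ?_⟩
  · refine (Finset.sum_le_card_nsmul _ _ d fun i _ => ?_).trans ?_
    · cases l.idxFun i with
      | none => simp
      | some y => simpa using Nat.lt_succ_iff.mp y.2
    · rw [smul_eq_mul, mul_comm]
      exact Nat.mul_le_mul_left _ (Finset.card_le_univ _)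
  · have a1 := key ⟨i, by omega⟩
    have a2 := key 0
    simp only [Fin.val_zero, mul_zero, add_zero] at a1 a2
    rw [a1, a2]

/-- A graph of small degree has a large independent set. -/
lemma indep (Q d m : ℕ) (hd : 1 ≤ d) (hQ : d * m ≤ Q) (R : ℕ → ℕ → Prop) (hrefl : ∀ x, R x x)
    (hsymm : ∀ x y, R x y → R y x)
    (hdeg : ∀ i < Q, ∀ T ⊆ range Q, i ∉ T → T.card = d → ¬ ∀ j ∈ T, R j i) :
    ∃ I ⊆ range Q, m ≤ I.card ∧ ∀ i ∈ I, ∀ j ∈ I, i ≠ j → ¬ R i j := by
  classical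
  obtain ⟨I, h1, h2, h3⟩ := exists_max_sep (fun i => i < Q) R hrefl hsymm Q (by
    intro F hF _
    calc F.card ≤ (range Q).card := card_le_card fun x hx => mem_range.mpr (hF x hx)
      _ = Q := card_range Q)
  refine ⟨I, fun x hx => mem_range.mpr (h1 x hx), ?_, h2⟩
  have hcov : range Q ⊆ I.biUnion fun i => (range Q).filter fun j => R j i := by
    intro j hj
    obtain ⟨f, hf, h⟩ := h3 j (mem_range.mp hj)
    exact mem_biUnion.mpr ⟨f, hf, mem_filter.mpr ⟨hj, h⟩⟩
  have hb : ∀ i ∈ I, ((range Q).filter fun j => R j i).card ≤ d := by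
    intro i hi
    by_contra hlt
    push Not at hlt
    have h4 : d ≤ (((range Q).filter fun j => R j i).erase i).card := by
      have := pred_card_le_card_erase (s := (range Q).filter fun j => R j i) (a := i)
      omega
    obtain ⟨T, hT, hTc⟩ := exists_subset_card_eq h4
    refine hdeg i (h1 i hi) T (fun x hx => (mem_filter.mp (mem_of_mem_erase (hT hx))).1)
      (fun h => notMem_erase i _ (hT h)) hTc fun j hj => (mem_filter.mp (mem_of_mem_erase (hT hj))).2
  have c1 := (card_le_card hcov).trans card_biUnion_le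
  have c2 := sum_le_card_nsmul _ _ d hb
  rw [card_range] at c1
  rw [smul_eq_mul] at c2
  have : d * m ≤ d * I.card := by rw [mul_comm d I.card]; omega
  exact Nat.le_of_mul_le_mul_left this hd

/-- The integer part along a progression takes one of two predicted values. -/
lemma floor_pattern (N Q x y i : ℕ) (hN : 0 < N) (hi : i < Q) :
    (x + i * y) / N = ((Q * x) / N + i * ((Q * y) / N)) / Q ∨
    (x + i * y) / N = ((Q * x) / N + i * ((Q * y) / N)) / Q + 1 := by
  have hQ : 0 < Q := by omega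
  set X := (Q * x) / N with hX
  set Y := (Q * y) / N with hY
  have e : (x + i * y) / N = (Q * (x + i * y)) / N / Q := by
    rw [Nat.div_div_eq_div_mul, mul_comm N Q, Nat.mul_div_mul_left _ _ hQ]
  have x1 : X * N ≤ Q * x := Nat.div_mul_le_self _ _
  have y1 : Y * N ≤ Q * y := Nat.div_mul_le_self _ _
  have x2 : Q * x < (X + 1) * N := by
    rw [← Nat.div_lt_iff_lt_mul hN]; omega
  have y2 : Q * y < (Y + 1) * N := by
    rw [← Nat.div_lt_iff_lt_mul hN]; omega
  have l1 : X + i * Y ≤ (Q * (x + i * y)) / N := by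
    rw [Nat.le_div_iff_mul_le hN]
    have := Nat.mul_le_mul_left i y1
    nlinarith
  have l2 : (Q * (x + i * y)) / N ≤ X + i * Y + Q := by
    apply Nat.le_of_lt_succ
    rw [Nat.div_lt_iff_lt_mul hN]
    have := Nat.mul_le_mul_left i y2.le
    have h3 := Nat.mul_le_mul_right N hi.le
    nlinarith
  have l3 := Nat.div_le_div_right (c := Q) l1
  have l4 := Nat.div_le_div_right (c := Q) l2
  rw [Nat.add_div_right _ hQ] at l4
  omega

end Pool.Agent.H801Z.TL
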