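import Mathlib

/-! Two-large sets and sets of nil-Bohr recurrence: the definitions of the final statement. -/

set_option autoImplicit false

namespace Pool.Agent.H801Z.TL

open scoped Manifold ContDiff

/-- `S` is 2-large: for every colouring of the positive integers with two colours and every `k`
there is a monochromatic progression `a, a + s, ..., a + (k - 1) s` with `s ∈ S`. -/
def TwoLarge (S : Set ℕ+) : Prop :=
  ∀ (χ : ℕ+ → Fin 2) (k : ℕ), ∃ a : ℕ+, ∃ s ∈ S, ∀ (i : ℕ) (n : ℕ+), i < k →
    (n : ℕ) = a + i * s → χ n = χ a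

/-- `S` is a set of `d`-nilBohr recurrence: for every (Hausdorff, second countable, finite
dimensional real) Lie group `G` which is nilpotent of class at most `d`, every discrete cocompact
subgroup `Γ`, every `g ∈ G`, every point `x` of `G ⧸ Γ` and every open set `U` containing `x`
there is `n ∈ S` with `g ^ n • x ∈ U`. -/
def NilBohrRec (d : ℕ) (S : Set ℕ+) : Prop :=
  ∀ (E : Type) [NormedAddCommGroup E] [NormedSpace ℝ E] [FiniteDimensional ℝ E]
    (G : Type) [Group G] [TopologicalSpace G] [T2Space G] [SecondCountableTopology G]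
    [ChartedSpace E G] [LieGroup 𝓘(ℝ, E) ∞ G] (Γ : Subgroup G),
    Group.IsNilpotent G → Group.nilpotencyClass G ≤ d → DiscreteTopology Γ →
    CompactSpace (G ⧸ Γ) → ∀ (g : G) (x : G ⧸ Γ) (U : Set (G ⧸ Γ)), IsOpen U → x ∈ U →
      ∃ n ∈ S, g ^ (n : ℕ) • x ∈ U

end Pool.Agent.H801Z.TL
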