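import Pool.Agent.H801Z.TL.Norm

/-! The system of cells given by an orbit in a homogeneous space. -/

set_option autoImplicit false

namespace Pool.Agent.H801Z.TL

open Topology Filter Finset

/-- Polynomially bounded functions. -/
def PB (f : ℕ → ℝ) : Prop :=
  (∀ Q, 0 ≤ f Q) ∧ ∃ (A : ℝ) (D : ℕ), 0 ≤ A ∧ ∀ Q : ℕ, 1 ≤ Q → f Q ≤ A * (Q : ℝ) ^ D

lemma PB.const {c : ℝ} (hc : 0 ≤ c) : PB fun _ => c :=
  ⟨fun _ => hc, c, 0, hc, fun _ _ => by simp⟩

lemma PB.id : PB fun Q => (Q : ℝ) :=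
  ⟨fun _ => Nat.cast_nonneg _, 1, 1, zero_le_one, fun _ _ => by simp⟩

lemma PB.mul {f g : ℕ → ℝ} (hf : PB f) (hg : PB g) : PB fun Q => f Q * g Q := by
  obtain ⟨f0, A, D, hA, h⟩ := hf
  obtain ⟨g0, A', D', hA', h'⟩ := hg
  refine ⟨fun Q => mul_nonneg (f0 Q) (g0 Q), A * A', D + D', mul_nonneg hA hA', fun Q hQ => ?_⟩
  calc f Q * g Q ≤ (A * (Q : ℝ) ^ D) * (A' * (Q : ℝ) ^ D') :=
        mul_le_mul (h Q hQ) (h' Q hQ) (g0 Q) (by positivity)
    _ = _ := by ring

lemma PB.add {f g : ℕ → ℝ} (hf : PB f) (hg : PB g) : PB fun Q => f Q + g Q := by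
  obtain ⟨f0, A, D, hA, h⟩ := hf
  obtain ⟨g0, A', D', hA', h'⟩ := hg
  refine ⟨fun Q => add_nonneg (f0 Q) (g0 Q), A + A', D + D', add_nonneg hA hA', fun Q hQ => ?_⟩
  have hQ' : (1 : ℝ) ≤ Q := by exact_mod_cast hQ
  have a1 : (Q : ℝ) ^ D ≤ (Q : ℝ) ^ (D + D') := pow_le_pow_right₀ hQ' (by omega)
  have a2 : (Q : ℝ) ^ D' ≤ (Q : ℝ) ^ (D + D') := pow_le_pow_right₀ hQ' (by omega)
  have a3 := mul_le_mul_of_nonneg_left a1 hA
  have a4 := mul_le_mul_of_nonneg_left a2 hA'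
  have a5 := h Q hQ
  have a6 := h' Q hQ
  linarith [add_mul A A' ((Q : ℝ) ^ (D + D'))]

lemma PB.pow {f : ℕ → ℝ} (hf : PB f) (n : ℕ) : PB fun Q => f Q ^ n := by
  induction n with
  | zero => simpa using PB.const zero_le_one
  | succ n ih => simpa only [pow_succ] using ih.mul hf

/-- All lists of a given length with entries in a finite set. -/
def lists {α : Type} [DecidableEq α] (Z : Finset α) : ℕ → Finset (List α)
  | 0 => {[]}
  | m + 1 => image₂ List.cons Z (lists Z m)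

lemma card_lists {α : Type} [DecidableEq α] (Z : Finset α) (m : ℕ) :
    (lists Z m).card ≤ Z.card ^ m := by
  induction m with
  | zero => simp [lists]
  | succ m ih =>
    refine (card_image₂_le _ _ _).trans ?_
    rw [pow_succ']
    exact Nat.mul_le_mul_left _ ih

lemma mem_lists {α : Type} [DecidableEq α] (Z : Finset α) (l : List α) (h : ∀ z ∈ l, z ∈ Z) :
    l ∈ lists Z l.length := by
  induction l with
  | nil => simp [lists]
  | cons a l ih =>
    exact mem_image₂_of_mem (h a List.mem_cons_self) (ih fun z hz => h z (List.mem_cons_of_mem _ hz))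

/-- Families of systems with polynomial complexity. -/
def SysP (far : ℕ → ℝ → ℕ → ℕ → ℕ → ℕ → Prop) : Prop :=
  ∃ (B : ℕ) (A : ℝ) (D : ℕ) (θ₀ : ℝ), 0 < θ₀ ∧ 0 ≤ A ∧ ∀ N : ℕ, 0 < N → ∀ Q : ℕ, 0 < Q → ∀ θ : ℝ,
    0 < θ → θ ≤ θ₀ → ∃ M : ℕ, (M : ℝ) ≤ A * ((Q : ℝ) / θ) ^ D ∧ Sys Q B M (far N θ)

lemma SysP.triv : SysP fun _ _ _ _ _ _ => False :=
  ⟨1, 1, 0, 1, one_pos, zero_le_one, fun _ _ Q _ _ _ _ => ⟨1, by simp, Sys.triv Q⟩⟩

lemma SysP.mono {far far' : ℕ → ℝ → ℕ → ℕ → ℕ → ℕ → Prop} (h : SysP far)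
    (hf : ∀ N θ a s i j, far' N θ a s i j → far N θ a s i j) : SysP far' := by
  obtain ⟨B, A, D, θ₀, h1, h2, h3⟩ := h
  refine ⟨B, A, D, θ₀, h1, h2, fun N hN Q hQ θ hθ hθ' => ?_⟩
  obtain ⟨M, h4, h5⟩ := h3 N hN Q hQ θ hθ hθ'
  exact ⟨M, h4, h5.mono (hf N θ)⟩

lemma SysP.or {far far' : ℕ → ℝ → ℕ → ℕ → ℕ → ℕ → Prop} (h : SysP far) (h' : SysP far') :
    SysP fun N θ a s i j => far N θ a s i j ∨ far' N θ a s i j := by
  obtain ⟨B, A, D, θ₀, h1, h2, h3⟩ := h
  obtain ⟨B', A', D', θ₀', h1', h2', h3'⟩ := h'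
  refine ⟨B * B', A * A', D + D', min θ₀ θ₀', by positivity, by positivity,
    fun N hN Q hQ θ hθ hθ' => ?_⟩
  obtain ⟨M, h4, h5⟩ := h3 N hN Q hQ θ hθ (hθ'.trans (min_le_left _ _))
  obtain ⟨M', h4', h5'⟩ := h3' N hN Q hQ θ hθ (hθ'.trans (min_le_right _ _))
  refine ⟨M * M', ?_, h5.prod h5'⟩
  push_cast
  calc (M : ℝ) * M' ≤ (A * (Q / θ) ^ D) * (A' * (Q / θ) ^ D') :=
        mul_le_mul h4 h4' (by positivity) (by positivity)
    _ = _ := by ring

variable {G : Type} [Group G] [TopologicalSpace G] [IsTopologicalGroup G] {E : Type}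
  [NormedAddCommGroup E] [NormedSpace ℝ E] [ProperSpace E] {ν : G → ℝ} {φ : G → E} {r C : ℝ}
  {Γ : Subgroup G} {F : ℕ → Subgroup G}

theorem GN.sysG (h : GN ν φ r C) (hF : Filt F) {d : ℕ} (hd : ∀ x ∈ F (d + 1), x = 1)
    (hF1 : ∀ x, x ∈ F 1) (C₀ : Set G) (hC₀ : IsCompact C₀)
    (hC : ∀ j, ∀ x ∈ F j, ∃ c ∈ C₀, c ∈ F j ∧ ∃ γ ∈ Γ, x = c * γ) (g x : G) :
    SysP fun N θ a s i j => N ∣ s ∧
      ¬ NrE ν Γ θ (g ^ ((a + i * s) / N) * x) (g ^ ((a + j * s) / N) * x) := by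
  classical
  obtain ⟨B, r₀, hr₀, hr₁, hB⟩ := h.ball_card (Γ := Γ)
  obtain ⟨A₀, D₀, hA₀, hcov⟩ := h.cover C₀ hC₀
  obtain ⟨L, hL, hL'⟩ := h.conj (insert g C₀) (hC₀.insert g)
  let b : ℕ → ℕ := fun Q => Q ^ d + Q
  let Kc : ℕ → ℝ := fun Q => ((L + 1) * ((b Q : ℝ) + 1)) ^ d
  let Λ : ℕ → ℝ := fun Q => Kc Q * (((d + 1 : ℕ) : ℝ) * b Q * Kc Q ^ (d + 1))
  have pb : PB fun Q => (b Q : ℝ) := by
    simpa [b] using (PB.id.pow d).add PB.id
  have pK : PB Kc := ((PB.const (by linarith)).mul (pb.add (PB.const zero_le_one))).pow d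
  have pΛ : PB Λ := pK.mul (((PB.const (by positivity)).mul pb).mul (pK.pow _))
  obtain ⟨-, c₁, p, hc₁, hΛ⟩ := pΛ
  refine ⟨2 * B, (A₀ * (6 * c₁) ^ D₀) ^ (d + 1) * 2, (p + 1) * D₀ * (d + 1) + 2, r₀, hr₀,
    by positivity, fun N hN Q hQ θ hθ hθ' => ?_⟩
  have hQ' : (1 : ℝ) ≤ Q := by exact_mod_cast hQ
  have hb1 : (1 : ℝ) ≤ b Q := by
    have : 1 ≤ b Q := by simp only [b]; omega
    exact_mod_cast this
  have hK1 : 1 ≤ Kc Q := one_le_pow₀ (by nlinarith)
  have hΛ1 : 1 ≤ Λ Q := by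
    have a1 : (1 : ℝ) ≤ ((d + 1 : ℕ) : ℝ) := by exact_mod_cast Nat.le_add_left 1 d
    exact one_le_mul_of_one_le_of_one_le hK1 (one_le_mul_of_one_le_of_one_le
      (one_le_mul_of_one_le_of_one_le a1 hb1) (one_le_pow₀ hK1))
  set ε := θ / 6 with hε
  have hε0 : 0 < ε := by positivity
  set δ := ε / Λ Q with hδ
  have hδ0 : 0 < δ := by positivity
  have hδ1 : δ ≤ 1 := by
    rw [hδ, div_le_one (by linarith)]; linarith
  obtain ⟨Z, hZ, hZ'⟩ := hcov δ hδ0 hδ1
  obtain ⟨S, hS, hS'⟩ := h.xnet (Γ := Γ) C₀ hC₀ (fun y => by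
    obtain ⟨c, hc, -, γ, hγ, e⟩ := hC 0 y (hF.top y)
    exact ⟨c, hc, γ, hγ, e⟩) ε hε0
  choose cell hcell hcell' using hS'
  let Ball : G → Finset G := fun z => S.filter fun f => NrE ν Γ (2 * ε) f z
  have hBall : ∀ z, (Ball z).card ≤ B := fun z =>
    hB ε hε0 (by linarith) _ (fun f hf f' hf' => hS f (mem_filter.mp hf).1 f' (mem_filter.mp hf').1)
      z fun f hf => (mem_filter.mp hf).2
  have hmem : ∀ z y, NrE ν Γ ε z y → cell y ∈ Ball z := by
    intro z y hzy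
    refine mem_filter.mpr ⟨hcell y, ?_⟩
    have := h.nr_trans (h.nr_symm (hcell' y)) (h.nr_symm hzy)
    rwa [← two_mul] at this
  have hq1 : (1 : ℝ) ≤ Q / θ := by rw [le_div_iff₀ hθ]; linarith
  refine ⟨Z.card ^ (d + 1) * (1 + Q * Q), ?_, G, fun n => cell (g ^ (n / N) * x),
    ((lists Z (d + 1)).image fun l => fun i => Ball (ev 0 l i)) ∪
    ((lists Z (d + 1) ×ˢ range Q ×ˢ range Q).image fun p => fun i =>
      Ball (g ^ ((p.2.1 + i * p.2.2) / Q) * ev 0 p.1 i) ∪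
      Ball (g ^ ((p.2.1 + i * p.2.2) / Q + 1) * ev 0 p.1 i)), ?_, ?_, fun a s => ?_⟩
  · have a1 : 1 / δ ≤ 6 * c₁ * (Q / θ) ^ (p + 1) := by
      have b1 : 1 / δ = 6 * Λ Q / θ := by rw [hδ, hε]; field_simp
      have b2 : (Q : ℝ) ^ p ≤ (Q / θ) ^ p := by
        apply pow_le_pow_left₀ (by positivity)
        rw [le_div_iff₀ hθ]
        nlinarith
      have b3 : 1 / θ ≤ Q / θ := div_le_div_of_nonneg_right hQ' hθ.le
      calc 1 / δ = 6 * Λ Q * (1 / θ) := by rw [b1]; ring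
        _ ≤ 6 * (c₁ * (Q / θ) ^ p) * (Q / θ) := by
          have := (hΛ Q hQ).trans (mul_le_mul_of_nonneg_left b2 hc₁)
          gcongr
        _ = _ := by ring
    have a2 : (Z.card : ℝ) ≤ A₀ * (6 * c₁ * (Q / θ) ^ (p + 1)) ^ D₀ := by
      refine hZ.trans ?_
      gcongr
    have a3 : (1 + Q * Q : ℝ) ≤ 2 * (Q / θ) ^ 2 := by
      have b2 : (Q : ℝ) ≤ Q / θ := by rw [le_div_iff₀ hθ]; nlinarith
      nlinarith
    push_cast
    calc (Z.card : ℝ) ^ (d + 1) * (1 + Q * Q)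
        ≤ (A₀ * (6 * c₁ * (Q / θ) ^ (p + 1)) ^ D₀) ^ (d + 1) * (2 * (Q / θ) ^ 2) := by gcongr
      _ = _ := by
        rw [mul_pow (6 * c₁), ← mul_assoc A₀, mul_pow, ← pow_mul, ← pow_mul, pow_add, mul_assoc (p + 1)]
        ring
  · refine (card_union_le _ _).trans ?_
    have a1 := card_lists Z (d + 1)
    refine (add_le_add card_image_le card_image_le).trans ?_
    rw [card_product, card_product, card_range, mul_add, mul_one]
    exact add_le_add a1 (Nat.mul_le_mul_right _ a1)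
  · intro A hA i
    rcases mem_union.mp hA with hA | hA
    · obtain ⟨l, -, rfl⟩ := mem_image.mp hA
      exact (hBall _).trans (by omega)
    · obtain ⟨l, -, rfl⟩ := mem_image.mp hA
      refine (card_union_le _ _).trans ?_
      rw [two_mul]
      exact add_le_add (hBall _) (hBall _)
  · have hq : Poly F 0 fun i => g ^ (a / N + i * (s / N)) * x :=
      (poly_lin hF (hF1 g) _ _).mul hF (poly_const hF x)
    obtain ⟨l, hl, hlC, hlq⟩ := bdd_factor hF hd Γ C₀ hC (d + 1) 0 (by omega) _ hq (by simp)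
    have hch : ∀ u : G, ∃ z, u ∈ C₀ → z ∈ Z ∧ ν (z * u⁻¹) ≤ δ := by
      intro u
      by_cases hu : u ∈ C₀
      · obtain ⟨z, hz⟩ := hZ' u hu
        exact ⟨z, fun _ => hz⟩
      · exact ⟨1, fun h => absurd h hu⟩
    choose z hz using hch
    have hl' : l.map z ∈ lists Z (d + 1) := by
      have := mem_lists Z (l.map z) (by
        intro y hy
        obtain ⟨u, hu, rfl⟩ := List.mem_map.mp hy
        exact (hz u (hlC u hu)).1)
      rwa [List.length_map, hl] at this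
    have hconj : ∀ u ∈ insert g C₀, ∀ n ≤ b Q, ∀ y, ν (u ^ n * y * (u ^ n)⁻¹) ≤ Kc Q * ν y :=
      fun u hu n hn y => h.conj_pow hF hd hL (hF1 u) (fun y => (hL' u hu y).1) (b Q) d 1
        (by omega) y (hF1 y) n hn
    have hdiv : ∀ i, (a + i * s) / N = (a % N + i * (s % N)) / N + (a / N + i * (s / N)) := by
      intro i
      have e3 : a + i * s = (a % N + i * (s % N)) + N * (a / N + i * (s / N)) := by
        conv_lhs => rw [← Nat.mod_add_div a N, ← Nat.mod_add_div s N]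
        ring
      rw [e3, Nat.add_mul_div_left _ _ hN]
    have hnear : ∀ i < Q, NrE ν Γ ε (g ^ ((a % N + i * (s % N)) / N) * ev 0 (l.map z) i)
        (g ^ ((a + i * s) / N) * x) := by
      intro i hi
      have he : (a % N + i * (s % N)) / N ≤ b Q := by
        have a1 := Nat.mod_lt a hN
        have a2 := Nat.mul_le_mul_left i (Nat.mod_lt s hN).le
        have a3 : (a % N + i * (s % N)) / N < i + 1 := by
          rw [Nat.div_lt_iff_lt_mul hN]; nlinarith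
        simp only [b]
        omega
      have a1 := h.ev_lip (b := b Q) hK1 hδ0.le i (l := l) (l' := l.map z) (by
        rw [List.forall₂_map_right_iff, List.forall₂_same]
        exact fun u hu => (hz u (hlC u hu)).2) 0
        (fun u hu => hconj u (Set.mem_insert_of_mem _ (hlC u hu))) (by
          intro k hk
          rw [hl] at hk
          have := (Nat.choose_le_pow i k).trans
            ((Nat.pow_le_pow_left hi.le k).trans (Nat.pow_le_pow_right hQ (by omega : k ≤ d)))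
          simp only [b]
          omega)
      rw [hl] at a1
      have a2 := hconj g (Set.mem_insert _ _) _ he (ev 0 (l.map z) i * (ev 0 l i)⁻¹)
      have a3 := a2.trans (mul_le_mul_of_nonneg_left a1 (by linarith))
      have a4 : Kc Q * (((d + 1 : ℕ) : ℝ) * b Q * Kc Q ^ (d + 1) * δ) = ε := by
        rw [← mul_assoc]
        show Λ Q * δ = ε
        rw [hδ]; field_simp
      rw [a4] at a3
      obtain ⟨γ, hγ, e⟩ := hlq i
      refine ⟨γ, hγ, ?_⟩
      rw [hdiv i, pow_add, mul_assoc _ _ x, e]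
      refine le_of_eq_of_le (congrArg ν ?_) a3
      simp only [mul_inv_rev, mul_assoc, mul_inv_cancel_left]
    by_cases hs : N ∣ s
    · have h0 : ∀ i, (a % N + i * (s % N)) / N = 0 := by
        intro i
        rw [Nat.mod_eq_zero_of_dvd hs, mul_zero, add_zero]
        exact Nat.div_eq_of_lt (Nat.mod_lt a hN)
      simp only [h0, pow_zero, one_mul] at hnear
      refine ⟨_, mem_union_left _ (mem_image_of_mem _ hl'), fun i hi => hmem _ _ (hnear i hi),
        fun i hi j hj hf => ?_⟩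
      rw [disjoint_left]
      intro f h1 h2
      apply hf.2
      have := h.nr_trans (h.nr_trans (h.nr_trans (h.nr_symm (hnear i hi))
        (h.nr_symm (mem_filter.mp h1).2)) (mem_filter.mp h2).2) (hnear j hj)
      refine this.mono (le_of_eq ?_)
      rw [hε]; ring
    · refine ⟨_, mem_union_right _ (mem_image_of_mem _
        (show (l.map z, Q * (a % N) / N, Q * (s % N) / N) ∈ _ from mem_product.mpr ⟨hl',
          mem_product.mpr ⟨mem_range.mpr ?_, mem_range.mpr ?_⟩⟩)), fun i hi => ?_,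
        fun i _ j _ hf => absurd hf.1 hs⟩
      · rw [Nat.div_lt_iff_lt_mul hN]
        exact Nat.mul_lt_mul_of_pos_left (Nat.mod_lt a hN) hQ
      · rw [Nat.div_lt_iff_lt_mul hN]
        exact Nat.mul_lt_mul_of_pos_left (Nat.mod_lt s hN) hQ
      · have a1 := hmem _ _ (hnear i hi)
        rcases floor_pattern N Q (a % N) (s % N) i hN hi with e | e
        · rw [e] at a1
          exact mem_union_left _ a1
        · rw [e] at a1
          exact mem_union_right _ a1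

end Pool.Agent.H801Z.TL
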