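import Pool.Agent.H801Z.TL.Sep
import Pool.Agent.H801Z.TL.SysG

/-! The dichotomy: either the orbit returns at time `s`, or some subprogression is separated. -/

set_option autoImplicit false

namespace Pool.Agent.H801Z.TL

open Topology Filter Finset

variable {G : Type} [Group G] [TopologicalSpace G] [IsTopologicalGroup G] {E : Type}
  [NormedAddCommGroup E] [NormedSpace ℝ E] [ProperSpace E] {ν : G → ℝ} {φ : G → E} {r C : ℝ}
  {Γ : Subgroup G} {F : ℕ → Subgroup G}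

/-- The choice of the dilation factor. -/
lemma pick_scale (d : ℕ) (v : ℕ → ℝ) (hv : ∀ k, 0 ≤ v k) (η θ : ℝ) (hη : 0 < η) (hθ : 0 < θ)
    (h1 : ∀ k < d, v k ≤ η) (h2 : ∃ k < d, θ < v k) :
    ∃ w : ℕ, 1 ≤ w ∧ w ≤ ⌈η / θ⌉₊ + 1 ∧ (∀ k < d, (w : ℝ) ^ (k + 1) * v k ≤ 2 ^ d * η) ∧
      ∃ k < d, η ≤ (w : ℝ) ^ (k + 1) * v k := by
  classical
  let P : ℕ → Prop := fun w => ∃ k < d, η ≤ (w : ℝ) ^ (k + 1) * v k
  have hW : P (⌈η / θ⌉₊ + 1) := by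
    obtain ⟨k, hk, hk'⟩ := h2
    refine ⟨k, hk, ?_⟩
    have a1 : η / θ ≤ ((⌈η / θ⌉₊ + 1 : ℕ) : ℝ) := by
      push_cast
      linarith [Nat.le_ceil (η / θ)]
    have a2 : (1 : ℝ) ≤ ((⌈η / θ⌉₊ + 1 : ℕ) : ℝ) := by exact_mod_cast Nat.le_add_left 1 _
    have a3 : ((⌈η / θ⌉₊ + 1 : ℕ) : ℝ) ≤ ((⌈η / θ⌉₊ + 1 : ℕ) : ℝ) ^ (k + 1) :=
      le_self_pow₀ a2 (by omega)
    calc η = η / θ * θ := by field_simp
      _ ≤ ((⌈η / θ⌉₊ + 1 : ℕ) : ℝ) ^ (k + 1) * v k :=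
        mul_le_mul (a1.trans a3) hk'.le hθ.le (by positivity)
  have hex : ∃ w, P w := ⟨_, hW⟩
  have hP := Nat.find_spec hex
  have hle := Nat.find_min' hex hW
  have hmin := fun w => @Nat.find_min P _ hex w
  generalize Nat.find hex = w at hP hle hmin
  have hw1 : 1 ≤ w := by
    rcases Nat.eq_zero_or_pos w with e | e
    · obtain ⟨k, -, hk⟩ := hP
      rw [e] at hk
      simp at hk
      linarith
    · exact e
  refine ⟨w, hw1, hle, fun k hk => ?_, hP⟩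
  have b1 : (1 : ℝ) ≤ 2 ^ d := one_le_pow₀ (by norm_num)
  rcases eq_or_lt_of_le hw1 with e | e
  · rw [← e]
    simp only [Nat.cast_one, one_pow, one_mul]
    nlinarith [h1 k hk]
  · obtain ⟨u, rfl⟩ : ∃ u, w = u + 1 := ⟨w - 1, by omega⟩
    have hn := hmin u (by omega)
    have a1 : (u : ℝ) ^ (k + 1) * v k < η := by
      by_contra hc
      exact hn ⟨k, hk, not_lt.mp hc⟩
    have a2 : ((u + 1 : ℕ) : ℝ) ≤ 2 * u := by
      have : u + 1 ≤ 2 * u := by omega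
      exact_mod_cast this
    have a3 : ((u + 1 : ℕ) : ℝ) ^ (k + 1) ≤ 2 ^ d * (u : ℝ) ^ (k + 1) := by
      refine (pow_le_pow_left₀ (by positivity) a2 _).trans ?_
      rw [mul_pow]
      exact mul_le_mul_of_nonneg_right (pow_le_pow_right₀ (by norm_num) (by omega)) (by positivity)
    calc ((u + 1 : ℕ) : ℝ) ^ (k + 1) * v k ≤ 2 ^ d * (u : ℝ) ^ (k + 1) * v k :=
          mul_le_mul_of_nonneg_right a3 (hv k)
      _ = 2 ^ d * ((u : ℝ) ^ (k + 1) * v k) := by ring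
      _ ≤ 2 ^ d * η := mul_le_mul_of_nonneg_left a1.le (by positivity)

omit [ProperSpace E] in
theorem GN.dich (h : GN ν φ r C) (hF : Filt F) {d : ℕ} (hd1 : 1 ≤ d)
    (hd : ∀ x ∈ F (d + 1), x = 1) (hF1 : ∀ x, x ∈ F 1)
    (hD : ∀ j, ∃ U ∈ 𝓝 (1 : G), ∀ n ∈ F j, ∀ l ∈ Γ, n * l ∈ U → n * l ∈ F j)
    (hdisc : ∃ U ∈ 𝓝 (1 : G), ∀ l ∈ Γ, l ∈ U → l = 1)
    (K : Set G) (hK : IsCompact K) (hcov : ∀ g : G, ∃ κ ∈ K, ∃ l ∈ Γ, g = κ * l)
    (g x : G) (ε : ℝ) (hε : 0 < ε) :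
    ∃ A : ℝ, 1 ≤ A ∧ ∀ Q : ℕ, 1 ≤ Q → ∀ m, d * m ≤ Q → ∃ N : ℕ, 0 < N ∧ ∃ k : ℕ, ∀ s : ℕ, N ∣ s →
      (∀ u : G, ¬ ∀ t < d, NrE ν Γ ε (u ^ (t + 1) * x) (u ^ (t + 1) * (g ^ s * x))) →
      ∀ a : ℕ, ∃ b w : ℕ, b + Q * w ≤ k ∧ ∃ I ⊆ range Q, m ≤ I.card ∧ ∀ i ∈ I, ∀ j ∈ I, i ≠ j →
        ∃ t < d, ¬ NrE ν Γ (1 / (A ^ 2 * ((Q : ℝ) ^ d) ^ 4))
          ((g ^ (t + 1)) ^ ((a + b * s + i * (w * s)) / N) * x)
          ((g ^ (t + 1)) ^ ((a + b * s + j * (w * s)) / N) * x) := by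
  classical
  obtain ⟨A, hA, hsep⟩ := h.sep (Γ := Γ) d K hK hdisc
  refine ⟨A, hA, fun Q hQ m hm => ?_⟩
  have hQ' : (1 : ℝ) ≤ Q := by exact_mod_cast hQ
  set η : ℝ := 1 / (A * ((Q : ℝ) ^ d) ^ 3) with hη
  have hη0 : 0 < η := by positivity
  obtain ⟨η₁, hη₁, hsm⟩ := h.small_factor hF hd hD d 1 (by omega) η hη0
  obtain ⟨L, hL, hL'⟩ := h.conj K hK
  obtain ⟨S, -, hS⟩ := h.xnet (Γ := Γ) K hK hcov (η₁ / (2 * L)) (by positivity)
  choose cell hcell hcell' using hS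
  obtain ⟨J, hJ⟩ := vdw d (Fin d → S)
  set N := (d * J).factorial with hN
  have hN0 : 0 < N := Nat.factorial_pos _
  have hN' : (1 : ℝ) ≤ N := by exact_mod_cast hN0
  have hd' : (1 : ℝ) ≤ d := by exact_mod_cast hd1
  set θ : ℝ := ε / (2 * L * d * (N : ℝ) ^ d) with hθ
  have hθ0 : 0 < θ := by positivity
  refine ⟨N, hN0, d * J + Q * (J * (⌈η / θ⌉₊ + 1)), ?_⟩
  rintro _ ⟨σ, rfl⟩ hσ a
  obtain ⟨b, j, hb, hj1, hjJ, hbj⟩ := hJ fun n t =>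
    ⟨cell ((g ^ ((t : ℕ) + 1)) ^ (a / N + n * σ) * x), hcell _⟩
  let q : ℕ → ℕ → G := fun t i => (g ^ (t + 1)) ^ ((a / N + b * σ) + i * (j * σ)) * x
  have hfac : ∀ t, ∃ κ : G, ∃ l : List G, t < d → κ ∈ K ∧ l.length = d ∧ (∀ c ∈ l, ν c ≤ η) ∧
      ∀ n, ∃ γ ∈ Γ, q t n = κ * ev 1 l n * γ := by
    intro t
    by_cases ht : t < d
    swap
    · exact ⟨1, [], fun h => absurd h ht⟩
    obtain ⟨κ, hκ, γ₀, hγ₀, e⟩ := hcov (q t 0)
    have hq : Poly F 0 (q t) := (poly_lin hF (hF1 _) _ _).mul hF (poly_const hF x)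
    have hq' : Poly F 0 fun n => κ⁻¹ * q t n * γ₀⁻¹ :=
      ((poly_const hF κ⁻¹).mul hF hq).mul hF (poly_const hF γ₀⁻¹)
    obtain ⟨l, hl, hl', hl''⟩ := hsm _ hq' (by
      intro i hi
      have : i = 0 := by omega
      subst this
      show κ⁻¹ * q t 0 * γ₀⁻¹ = 1
      rw [e]; group) (by
      intro i hi
      have a1 := congrArg Subtype.val (congrFun (hbj i hi) ⟨t, ht⟩)
      simp only at a1
      have e1 : a / N + (b + j * i) * σ = (a / N + b * σ) + i * (j * σ) := by ring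
      have e2 : a / N + b * σ = (a / N + b * σ) + 0 * (j * σ) := by ring
      rw [e1] at a1
      conv_rhs at a1 => rw [e2]
      have a2 : cell (q t i) = cell (q t 0) := a1
      have a3 := hcell' (q t i)
      rw [a2] at a3
      obtain ⟨γ, hγ, a4⟩ := h.nr_trans a3 (h.nr_symm (hcell' (q t 0)))
      refine ⟨γ₀ * γ * γ₀⁻¹, Γ.mul_mem (Γ.mul_mem hγ₀ hγ) (Γ.inv_mem hγ₀), ?_⟩
      have e3 : κ⁻¹ * q t i * γ₀⁻¹ * (γ₀ * γ * γ₀⁻¹) = κ⁻¹ * (q t i * γ * (q t 0)⁻¹) * κ := by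
        rw [e]; group
      show ν (κ⁻¹ * q t i * γ₀⁻¹ * (γ₀ * γ * γ₀⁻¹)) ≤ η₁
      rw [e3]
      refine (hL' κ hκ _).2.trans ((mul_le_mul_of_nonneg_left a4 (by linarith)).trans
        (le_of_eq ?_))
      field_simp
      ring)
    refine ⟨κ, l, fun _ => ⟨hκ, hl, hl', fun n => ?_⟩⟩
    obtain ⟨γ, hγ, e'⟩ := hl'' n
    refine ⟨γ * γ₀, Γ.mul_mem hγ hγ₀, ?_⟩
    have e4 : q t n = κ * (κ⁻¹ * q t n * γ₀⁻¹) * γ₀ := by group
    rw [e4, e']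
    group
  choose κ l hκl using hfac
  by_cases hall : ∀ t < d, ∀ k < d, ν ((l t).getD k 1) ≤ θ
  · exfalso
    refine hσ (g ^ (a / N + b * σ)) fun t ht => ?_
    obtain ⟨hκ, hl, -, hq⟩ := hκl t ht
    obtain ⟨n, hn⟩ : (t + 1) * j ∣ N :=
      Nat.dvd_factorial (Nat.mul_pos (by omega) hj1) (Nat.mul_le_mul (by omega) hjJ)
    have hnN : n ≤ N := by
      rw [hn]
      exact Nat.le_mul_of_pos_left _ (Nat.mul_pos (by omega) hj1)
    have hsz : ∀ i ≤ N, ν (ev 1 (l t) i) ≤ d * ((N : ℝ) ^ d * θ) := by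
      intro i hi
      have := h.sz_le hl (w := 1) hN0 hi (β := θ) (by
        intro k hk
        simpa using hall t ht k hk)
      rw [one_mul] at this
      exact (h.ev_norm _ _ _).trans this
    obtain ⟨γ, hγ, e⟩ := hq 0
    obtain ⟨γ', hγ', e'⟩ := hq n
    have e1 : (g ^ (a / N + b * σ)) ^ (t + 1) * x = q t 0 := by
      simp only [q, ← pow_mul]
      congr 2
      ring
    have e2 : (g ^ (a / N + b * σ)) ^ (t + 1) * (g ^ (N * σ) * x) = q t n := by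
      simp only [q, ← pow_mul, ← mul_assoc, ← pow_add]
      congr 2
      conv_lhs => rw [show N * σ = (t + 1) * j * n * σ by rw [← hn]]
      ring
    rw [e1, e2, e, e']
    refine NrE.right (nr_of_le ?_) hγ hγ'
    have e3 : κ t * ev 1 (l t) 0 * (κ t * ev 1 (l t) n)⁻¹
        = κ t * (ev 1 (l t) 0 * (ev 1 (l t) n)⁻¹) * (κ t)⁻¹ := by group
    rw [e3]
    refine (hL' _ hκ _).1.trans ?_
    have a1 := h.mul (ev 1 (l t) 0) (ev 1 (l t) n)⁻¹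
    rw [h.inv] at a1
    have a2 := hsz 0 (Nat.zero_le _)
    have a3 := hsz n hnN
    calc L * ν (ev 1 (l t) 0 * (ev 1 (l t) n)⁻¹) ≤ L * (2 * (d * ((N : ℝ) ^ d * θ))) :=
          mul_le_mul_of_nonneg_left (by linarith) (by linarith)
      _ = ε := by rw [hθ]; field_simp
  · push Not at hall
    obtain ⟨t, ht, hk⟩ := hall
    obtain ⟨hκ, hl, hlη, hq⟩ := hκl t ht
    obtain ⟨w, hw1, hwW, hw2, hw3⟩ := pick_scale d (fun k => ν ((l t).getD k 1))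
      (fun _ => h.nonneg _) η θ hη0 hθ0 (by
        intro k hk
        apply hlη
        rw [List.getD_eq_getElem _ _ (by omega)]
        exact List.getElem_mem _) hk
    obtain ⟨I, hI1, hI2, hI3⟩ := indep Q d m hd1 hm
      (fun i i' => NrE ν Γ (1 / (A ^ 2 * ((Q : ℝ) ^ d) ^ 4)) (κ t * ev 1 (l t) (w * i))
        (κ t * ev 1 (l t) (w * i'))) (fun _ => h.nr_refl (by positivity) _)
      (fun _ _ => h.nr_symm) (hsep Q hQ _ hκ _ hl w hw1 hw2 hw3)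
    refine ⟨b, j * w, add_le_add hb (Nat.mul_le_mul_left _ (Nat.mul_le_mul hjJ hwW)), I, hI1, hI2,
      fun i hi i' hi' hne => ⟨t, ht, fun hc => hI3 i hi i' hi' hne ?_⟩⟩
    have e1 : ∀ i, (a + b * (N * σ) + i * (j * w * (N * σ))) / N
        = (a / N + b * σ) + (w * i) * (j * σ) := by
      intro i
      have e3 : a + b * (N * σ) + i * (j * w * (N * σ)) = a + N * (b * σ + (w * i) * (j * σ)) := by
        ring
      rw [e3, Nat.add_mul_div_left _ _ hN0, add_assoc]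
    rw [e1, e1] at hc
    obtain ⟨γ, hγ, e⟩ := hq (w * i)
    obtain ⟨γ', hγ', e'⟩ := hq (w * i')
    have hc' : NrE ν Γ _ (q t (w * i)) (q t (w * i')) := hc
    rw [e, e'] at hc'
    simpa using hc'.right (Γ.inv_mem hγ) (Γ.inv_mem hγ')

end Pool.Agent.H801Z.TL
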