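import Pool.Agent.H801Z.TL.Norm

/-! Every Lie group has a subadditive norm comparable to the norm of a chart. -/

set_option autoImplicit false

namespace Pool.Agent.H801Z.TL

open Topology Filter
open scoped Manifold ContDiff

section calculus

variable {E : Type} [NormedAddCommGroup E] [NormedSpace ℝ E]

/-- Second order estimate for a map which vanishes on both axes. -/
lemma second_order (g : E × E → E) (hg : ContDiffAt ℝ 2 g 0)
    (h1 : ∀ᶠ a in 𝓝 (0 : E), g (a, 0) = 0) (h2 : ∀ᶠ b in 𝓝 (0 : E), g (0, b) = 0) :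
    ∃ ρ C : ℝ, 0 < ρ ∧ 1 ≤ C ∧ ∀ a b : E, ‖a‖ < ρ → ‖b‖ < ρ → ‖g (a, b)‖ ≤ C * ‖a‖ * ‖b‖ := by
  have hd : ContDiffAt ℝ 1 (fderiv ℝ g) 0 := hg.fderiv_right (by norm_num)
  obtain ⟨K, t, ht, hK⟩ := hd.exists_lipschitzOnWith
  have hev : ∀ᶠ p in 𝓝 (0 : E × E), ContDiffAt ℝ 2 g p := hg.eventually (by simp)
  obtain ⟨ρ₁, hρ₁, hb₁⟩ := Metric.mem_nhds_iff.mp (Filter.inter_mem ht hev)
  obtain ⟨ρ₂, hρ₂, hb₂⟩ := Metric.mem_nhds_iff.mp (Filter.inter_mem h1 h2)
  refine ⟨min ρ₁ ρ₂, max K 1, by positivity, le_max_right _ _, fun a b ha hb => ?_⟩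
  have hmem : ∀ x y : E, ‖x‖ < min ρ₁ ρ₂ → ‖y‖ < min ρ₁ ρ₂ →
      (x, y) ∈ Metric.ball (0 : E × E) ρ₁ := by
    intro x y hx hy
    rw [mem_ball_zero_iff, Prod.norm_mk]
    exact max_lt (hx.trans_le (min_le_left _ _)) (hy.trans_le (min_le_left _ _))
  have hder : ∀ x y : E, ‖x‖ < min ρ₁ ρ₂ → ‖y‖ < min ρ₁ ρ₂ →
      HasFDerivAt (fun z : E => g (z, y))
        ((fderiv ℝ g (x, y)).comp (ContinuousLinearMap.inl ℝ E E)) x := by
    intro x y hx hy
    have a0 : ContDiffAt ℝ 2 g (x, y) := (hb₁ (hmem x y hx hy)).2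
    have a1 : DifferentiableAt ℝ g (x, y) := a0.differentiableAt (by norm_num)
    exact a1.hasFDerivAt.comp x (hasFDerivAt_prodMk_left x y)
  have hρ : 0 < min ρ₁ ρ₂ := by positivity
  have hz : ∀ x : E, ‖x‖ < min ρ₁ ρ₂ →
      (fderiv ℝ g (x, 0)).comp (ContinuousLinearMap.inl ℝ E E) = 0 := by
    intro x hx
    have a1 := hder x 0 hx (by simpa using hρ)
    have a2 : HasFDerivAt (fun z : E => g (z, 0)) (0 : E →L[ℝ] E) x := by
      refine (hasFDerivAt_const (0 : E) x).congr_of_eventuallyEq ?_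
      have : Metric.ball (0 : E) ρ₂ ∈ 𝓝 x :=
        Metric.isOpen_ball.mem_nhds (mem_ball_zero_iff.mpr (hx.trans_le (min_le_right _ _)))
      filter_upwards [this] with z hz
      exact (hb₂ hz).1
    exact a1.unique a2
  have hbd : ∀ x ∈ Metric.ball (0 : E) (min ρ₁ ρ₂),
      ‖(fderiv ℝ g (x, b)).comp (ContinuousLinearMap.inl ℝ E E)‖ ≤ max (K : ℝ) 1 * ‖b‖ := by
    intro x hx
    rw [mem_ball_zero_iff] at hx
    have e : (fderiv ℝ g (x, b)).comp (ContinuousLinearMap.inl ℝ E E)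
        = (fderiv ℝ g (x, b) - fderiv ℝ g (x, 0)).comp (ContinuousLinearMap.inl ℝ E E) := by
      rw [ContinuousLinearMap.sub_comp, hz x hx, sub_zero]
    rw [e]
    refine (ContinuousLinearMap.opNorm_comp_le _ _).trans ?_
    have a1 := hK.norm_sub_le (hb₁ (hmem x b hx hb)).1 (hb₁ (hmem x 0 hx (by simpa using hρ))).1
    have a2 : ‖((x, b) : E × E) - (x, 0)‖ = ‖b‖ := by simp
    rw [a2] at a1
    have a3 : ‖ContinuousLinearMap.inl ℝ E E‖ ≤ 1 := ContinuousLinearMap.norm_inl_le_one ℝ E E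
    calc _ ≤ ‖fderiv ℝ g (x, b) - fderiv ℝ g (x, 0)‖ * 1 :=
          mul_le_mul_of_nonneg_left a3 (norm_nonneg _)
      _ ≤ K * ‖b‖ := by rw [mul_one]; exact a1
      _ ≤ _ := mul_le_mul_of_nonneg_right (le_max_left _ _) (norm_nonneg _)
  have := (convex_ball (0 : E) (min ρ₁ ρ₂)).norm_image_sub_le_of_norm_hasFDerivWithin_le
    (f := fun z : E => g (z, b))
    (fun x hx => (hder x b (mem_ball_zero_iff.mp hx) hb).hasFDerivWithinAt) hbd
    (Metric.mem_ball_self hρ) (mem_ball_zero_iff.mpr ha)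
  have h0 : g (0, b) = 0 :=
    (hb₂ (mem_ball_zero_iff.mpr (hb.trans_le (min_le_right _ _)))).2
  simp only [h0, sub_zero] at this
  linarith [mul_right_comm (max (K : ℝ) 1) ‖a‖ ‖b‖]

end calculus

section chain

variable {G : Type} [Group G]

/-- The chain norm. -/
noncomputable def chain (m : G → ℝ) (x : G) : ℝ :=
  sInf {s | ∃ l : List G, l.prod = x ∧ (l.map m).sum = s}

variable {m : G → ℝ}

lemma chain_bdd (hm : ∀ x, 0 ≤ m x) (x : G) :
    BddBelow {s | ∃ l : List G, l.prod = x ∧ (l.map m).sum = s} := by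
  refine ⟨0, ?_⟩
  rintro s ⟨l, -, rfl⟩
  apply List.sum_nonneg
  intro y hy
  obtain ⟨z, -, rfl⟩ := List.mem_map.mp hy
  exact hm z

lemma chain_ne (x : G) : {s | ∃ l : List G, l.prod = x ∧ (l.map m).sum = s}.Nonempty :=
  ⟨_, [x], by simp, rfl⟩

lemma chain_le (hm : ∀ x, 0 ≤ m x) (l : List G) : chain m l.prod ≤ (l.map m).sum :=
  csInf_le (chain_bdd hm _) ⟨l, rfl, rfl⟩

lemma le_chain {x : G} {c : ℝ} (h : ∀ l : List G, l.prod = x → c ≤ (l.map m).sum) :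
    c ≤ chain m x := by
  apply le_csInf (chain_ne x)
  rintro s ⟨l, h1, rfl⟩
  exact h l h1

lemma chain_mul (hm : ∀ x, 0 ≤ m x) (x y : G) : chain m (x * y) ≤ chain m x + chain m y := by
  have a1 : ∀ l : List G, l.prod = x → chain m (x * y) - (l.map m).sum ≤ chain m y := by
    intro l hl
    apply le_chain
    intro l' hl'
    have := chain_le hm (l ++ l')
    rw [List.prod_append, hl, hl', List.map_append, List.sum_append] at this
    linarith
  have a2 : chain m (x * y) - chain m y ≤ chain m x := le_chain fun l hl => by linarith [a1 l hl]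
  linarith

lemma chain_inv_le (hm : ∀ x, 0 ≤ m x) (hi : ∀ x, m x⁻¹ = m x) (x : G) :
    chain m x⁻¹ ≤ chain m x := by
  apply le_chain
  intro l hl
  have := chain_le hm (l.map fun y => y⁻¹).reverse
  rw [← List.prod_inv_reverse, hl, List.map_reverse, List.sum_reverse, List.map_map] at this
  have e : (m ∘ fun y => y⁻¹) = m := funext hi
  rwa [e] at this

end chain

variable {G : Type} [Group G] [TopologicalSpace G] [IsTopologicalGroup G]
  {E : Type} [NormedAddCommGroup E]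

theorem gn_of_chart (φ : G → E) (W : Set G) (r₁ C₁ : ℝ) (hr₁ : 0 < r₁) (hC₁ : 1 ≤ C₁)
    (h1 : 1 ∈ W) (h0 : φ 1 = 0)
    (hn : ∀ ρ, 0 < ρ → {x | x ∈ W ∧ ‖φ x‖ < ρ} ∈ 𝓝 (1 : G))
    (hb : ∀ U ∈ 𝓝 (1 : G), ∃ ρ, 0 < ρ ∧ ∀ x ∈ W, ‖φ x‖ < ρ → x ∈ U)
    (hadd : ∀ x ∈ W, ∀ y ∈ W, ‖φ x‖ < r₁ → ‖φ y‖ < r₁ →
      x * y ∈ W ∧ ‖φ (x * y) - φ x - φ y‖ ≤ C₁ * ‖φ x‖ * ‖φ y‖)
    (hconj : ∀ u : G, ∃ L : ℝ, ∀ᶠ x in 𝓝 (1 : G), ‖φ (u * x * u⁻¹)‖ ≤ L * ‖φ x‖) :
    ∃ (ν : G → ℝ) (r C : ℝ), GN ν φ r C := by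
  classical
  set ρ := min r₁ (1 / (2 * C₁)) with hρ
  have hρ0 : 0 < ρ := by positivity
  have hρ1 : ρ ≤ r₁ := min_le_left _ _
  have hρ2 : C₁ * ρ ≤ 1 / 2 := by
    have : ρ ≤ 1 / (2 * C₁) := min_le_right _ _
    rw [le_div_iff₀ (by positivity)] at this
    linarith
  let n : G → ℝ := fun x => if x ∈ W ∧ ‖φ x‖ < ρ then ‖φ x‖ else ρ
  have n0 : ∀ x, 0 ≤ n x := fun x => by
    simp only [n]; split_ifs
    · exact norm_nonneg _
    · exact hρ0.le
  have n1 : ∀ x, n x ≤ ρ := fun x => by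
    simp only [n]; split_ifs with h
    · exact h.2.le
    · exact le_rfl
  have n2 : ∀ x, n x < ρ → x ∈ W ∧ ‖φ x‖ = n x := fun x hx => by
    simp only [n] at hx ⊢; split_ifs at hx ⊢ with h
    · exact ⟨h.1, rfl⟩
    · exact absurd hx (lt_irrefl _)
  have n3 : ∀ x ∈ W, n x ≤ ‖φ x‖ := fun x hx => by
    simp only [n]; split_ifs with h
    · exact le_rfl
    · exact not_lt.mp fun h' => h ⟨hx, h'⟩
  have nl : ∀ l : List G, n l.prod ≤ 2 * (l.map n).sum := by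
    intro l
    induction l with
    | nil => simpa [h0] using n3 1 h1
    | cons x l ih =>
      rw [List.prod_cons, List.map_cons, List.sum_cons]
      by_cases hs : ρ ≤ 2 * (n x + (l.map n).sum)
      · exact (n1 _).trans hs
      · push Not at hs
        have s0 := n0 l.prod
        have s1 := n0 x
        obtain ⟨a1, a2⟩ := n2 x (by linarith)
        obtain ⟨a3, a4⟩ := n2 l.prod (by linarith)
        obtain ⟨a5, a6⟩ := hadd x a1 _ a3 (by linarith) (by linarith)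
        have a7 : ‖φ (x * l.prod)‖ ≤ ‖φ (x * l.prod) - φ x - φ l.prod‖ + ‖φ x‖ + ‖φ l.prod‖ := by
          have e : φ (x * l.prod) = (φ (x * l.prod) - φ x - φ l.prod) + φ x + φ l.prod := by abel
          conv_lhs => rw [e]
          exact norm_add₃_le
        have a8 : C₁ * n l.prod ≤ 1 / 2 :=
          (mul_le_mul_of_nonneg_left (n1 _) (by linarith)).trans hρ2
        rw [a2, a4] at a6 a7
        have a9 := n3 _ a5
        nlinarith
  let m : G → ℝ := fun x => n x + n x⁻¹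
  have m0 : ∀ x, 0 ≤ m x := fun x => add_nonneg (n0 _) (n0 _)
  have mi : ∀ x, m x⁻¹ = m x := fun x => by simp only [m, inv_inv, add_comm]
  set ν := chain m with hν
  have v0 : ∀ x, 0 ≤ ν x := fun x => le_chain fun l _ => by
    apply List.sum_nonneg
    intro y hy
    obtain ⟨z, -, rfl⟩ := List.mem_map.mp hy
    exact m0 z
  have v1 : ∀ x, ν x ≤ m x := fun x => by simpa using chain_le m0 [x]
  have v2 : ∀ x, n x ≤ 2 * ν x := fun x => by
    have : n x / 2 ≤ ν x := le_chain fun l hl => by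
      have a1 := nl l
      rw [hl] at a1
      have a2 : (l.map n).sum ≤ (l.map m).sum :=
        List.sum_le_sum fun y _ => le_add_of_nonneg_right (n0 _)
      linarith
    linarith
  have vi : ∀ x, ν x⁻¹ = ν x := fun x =>
    le_antisymm (chain_inv_le m0 mi x) (by simpa using chain_inv_le m0 mi x⁻¹)
  have vm : ∀ x y, ν (x * y) ≤ ν x + ν y := chain_mul m0
  have v3 : ∀ x, ν x ≤ ρ / 4 → x ∈ W ∧ ‖φ x‖ = n x := fun x hx => n2 x (by linarith [v2 x])
  have hup : ∀ x, ν x ≤ ρ / 4 → ‖φ x‖ ≤ 2 * ν x := fun x hx => by rw [(v3 x hx).2]; exact v2 x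
  have hadd' : ∀ x y, ν x ≤ ρ / 4 → ν y ≤ ρ / 4 →
      ‖φ (x * y) - φ x - φ y‖ ≤ C₁ * ‖φ x‖ * ‖φ y‖ := fun x y hx hy =>
    (hadd x (v3 x hx).1 y (v3 y hy).1 (by linarith [hup x hx]) (by linarith [hup y hy])).2
  have hlow : ∀ x, ν x ≤ ρ / 4 → ν x ≤ 3 * ‖φ x‖ := by
    intro x hx
    have a1 := hadd' x x⁻¹ hx (by rwa [vi])
    rw [mul_inv_cancel, h0] at a1
    have a2 : ‖φ x⁻¹‖ ≤ ‖0 - φ x - φ x⁻¹‖ + ‖φ x‖ := by
      have e : φ x⁻¹ = -((0 - φ x - φ x⁻¹) + φ x) := by abel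
      conv_lhs => rw [e, norm_neg]
      exact norm_add_le _ _
    have a3 : C₁ * ‖φ x‖ ≤ 1 / 2 := by
      have : ‖φ x‖ ≤ ρ := by linarith [hup x hx]
      exact (mul_le_mul_of_nonneg_left this (by linarith)).trans hρ2
    have a4 := mul_le_mul_of_nonneg_right a3 (norm_nonneg (φ x⁻¹))
    have a5 := v1 x
    simp only [m] at a5
    rw [← (v3 x hx).2, ← (v3 x⁻¹ (by rwa [vi])).2] at a5
    linarith
  have hnh : ∀ ε, 0 < ε → {x | ν x < ε} ∈ 𝓝 (1 : G) := by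
    intro ε hε
    have a1 := hn (ε / 2) (by positivity)
    have a2 : (fun x : G => x⁻¹) ⁻¹' {x | x ∈ W ∧ ‖φ x‖ < ε / 2} ∈ 𝓝 (1 : G) :=
      continuous_inv.continuousAt.preimage_mem_nhds (by simpa using a1)
    filter_upwards [a1, a2] with x hx hx'
    have b1 := n3 x hx.1
    have b2 := n3 x⁻¹ hx'.1
    have b3 := v1 x
    simp only [m] at b3
    have b4 := hx.2
    have b5 : ‖φ x⁻¹‖ < ε / 2 := hx'.2
    show ν x < ε
    linarith
  have hbas : ∀ U ∈ 𝓝 (1 : G), ∃ ε, 0 < ε ∧ ∀ x, ν x ≤ ε → x ∈ U := by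
    intro U hU
    obtain ⟨ρ', hρ', h⟩ := hb U hU
    refine ⟨min (ρ / 4) (ρ' / 4), by positivity, fun x hx => ?_⟩
    have a1 := hx.trans (min_le_left _ _)
    have a2 := hx.trans (min_le_right _ _)
    exact h x (v3 x a1).1 (by linarith [hup x a1])
  have hglob : ∀ (u : G) (L ε : ℝ), 0 < ε → 0 ≤ L → (∀ x, ν x ≤ ε → ν (u * x * u⁻¹) ≤ L * ν x) →
      ∀ x, ν (u * x * u⁻¹) ≤ (L + 2 * ρ / ε) * ν x := by
    intro u L ε hε hL h x
    have p1 : 0 ≤ 2 * ρ / ε := by positivity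
    by_cases hx : ν x ≤ ε
    · nlinarith [h x hx, v0 x]
    · push Not at hx
      have a1 := v1 (u * x * u⁻¹)
      simp only [m] at a1
      have a2 : 2 * ρ / ε * ε ≤ 2 * ρ / ε * ν x := mul_le_mul_of_nonneg_left hx.le p1
      rw [div_mul_cancel₀ _ hε.ne'] at a2
      nlinarith [n1 (u * x * u⁻¹), n1 (u * x * u⁻¹)⁻¹, v0 x]
  have hsingle : ∀ u : G, ∃ L : ℝ, 0 ≤ L ∧ ∀ x, ν (u * x * u⁻¹) ≤ L * ν x := by
    intro u
    obtain ⟨L, hL⟩ := hconj u
    have c : Continuous fun x : G => u * x * u⁻¹ := by fun_prop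
    have a1 : (fun x : G => u * x * u⁻¹) ⁻¹' {x | ν x < ρ / 4} ∈ 𝓝 (1 : G) :=
      c.continuousAt.preimage_mem_nhds (by simpa using hnh _ (by positivity))
    obtain ⟨ε, hε, h⟩ := hbas _ (inter_mem (inter_mem hL a1) (hnh (ρ / 4) (by positivity)))
    refine ⟨6 * |L| + 2 * ρ / ε, by positivity, hglob u _ ε hε (by positivity) fun x hx => ?_⟩
    obtain ⟨⟨b1, b2⟩, b3⟩ := h x hx
    have b4 := hlow _ (le_of_lt b2)
    have b5 := hup _ (le_of_lt b3)
    have b6 : ‖φ (u * x * u⁻¹)‖ ≤ |L| * ‖φ x‖ :=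
      le_trans b1 (mul_le_mul_of_nonneg_right (le_abs_self L) (norm_nonneg _))
    have b7 := mul_le_mul_of_nonneg_left b5 (abs_nonneg L)
    linarith
  have hsmall : ∃ L : ℝ, 0 ≤ L ∧ ∀ v, ν v ≤ ρ / 16 → ∀ x, ν (v * x * v⁻¹) ≤ L * ν x := by
    refine ⟨18 + 2 * ρ / (ρ / 16), by positivity, fun v hv =>
      hglob v _ _ (by positivity) (by norm_num) fun x hx => ?_⟩
    set y := v * x * v⁻¹ with hy
    have hyν : ν y ≤ ρ / 4 := by
      have a1 := vm (v * x) v⁻¹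
      have a2 := vm v x
      rw [vi] at a1
      linarith
    have e : y * v = v * x := by rw [hy]; group
    have a1 := hadd' y v hyν (by linarith)
    have a2 := hadd' v x (by linarith) (by linarith)
    rw [e] at a1
    have a3 : ‖φ y‖ ≤ ‖φ (v * x) - φ y - φ v‖ + ‖φ (v * x) - φ v - φ x‖ + ‖φ x‖ := by
      have e2 : φ y = -(φ (v * x) - φ y - φ v) + (φ (v * x) - φ v - φ x) + φ x := by abel
      conv_lhs => rw [e2]
      refine norm_add₃_le.trans ?_
      rw [norm_neg]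
    have a4 : C₁ * ‖φ v‖ ≤ 1 / 2 := by
      have : ‖φ v‖ ≤ ρ := by linarith [hup v (by linarith)]
      exact (mul_le_mul_of_nonneg_left this (by linarith)).trans hρ2
    have a5 := mul_le_mul_of_nonneg_right a4 (norm_nonneg (φ y))
    have a6 := mul_le_mul_of_nonneg_right a4 (norm_nonneg (φ x))
    have a7 := hlow y hyν
    have a8 := hup x (by linarith)
    nlinarith
  have hcpt : ∀ K : Set G, IsCompact K → ∃ L : ℝ, 0 ≤ L ∧ ∀ u ∈ K, ∀ x,
      ν (u * x * u⁻¹) ≤ L * ν x := by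
    intro K hK
    obtain ⟨L₀, hL₀, hs⟩ := hsmall
    choose L hL hL' using hsingle
    obtain ⟨t, -, ht⟩ := hK.elim_nhds_subcover (fun x => {g | ν (g * x⁻¹) < ρ / 16}) (by
      intro x _
      have c : Continuous fun g : G => g * x⁻¹ := by fun_prop
      exact c.continuousAt.preimage_mem_nhds (t := {y | ν y < ρ / 16})
        (by simpa using hnh _ (by positivity)))
    refine ⟨L₀ * ∑ z ∈ t, L z, mul_nonneg hL₀ (Finset.sum_nonneg fun z _ => hL z),
      fun u hu x => ?_⟩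
    obtain ⟨z, hz, h⟩ := Set.mem_iUnion₂.mp (ht hu)
    have e : u * x * u⁻¹ = (u * z⁻¹) * (z * x * z⁻¹) * (u * z⁻¹)⁻¹ := by group
    rw [e, mul_assoc L₀]
    refine (hs _ (le_of_lt h) _).trans (mul_le_mul_of_nonneg_left ((hL' z x).trans ?_) hL₀)
    exact mul_le_mul_of_nonneg_right (Finset.single_le_sum (fun z _ => hL z) hz) (v0 x)
  refine ⟨ν, ρ / 4, 4 * C₁, ⟨v0, ?_, vm, vi, hnh, hbas, ?_, by positivity, by linarith, ?_, ?_, ?_⟩⟩
  · exact le_antisymm (by simpa using chain_le m0 []) (v0 1)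
  · intro K hK
    obtain ⟨L, hL, h⟩ := hcpt (K ∪ K⁻¹) (hK.union hK.inv)
    refine ⟨L + 1, by linarith, fun u hu x => ⟨?_, ?_⟩⟩
    · nlinarith [h u (Or.inl hu) x, v0 x]
    · have := h u⁻¹ (Or.inr (Set.inv_mem_inv.mpr hu)) x
      rw [inv_inv] at this
      nlinarith [v0 x]
  · intro x y hx hy
    refine (hadd' x y hx hy).trans ?_
    have a1 := hup x hx
    have a2 := hup y hy
    calc C₁ * ‖φ x‖ * ‖φ y‖ ≤ C₁ * (2 * ν x) * (2 * ν y) := by
          have := v0 x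
          gcongr
      _ = _ := by ring
  · intro x hx
    nlinarith [hup x hx, v0 x]
  · intro x hx
    nlinarith [hlow x hx, norm_nonneg (φ x)]

theorem lie_gn {E : Type} [NormedAddCommGroup E] [NormedSpace ℝ E] {G : Type} [Group G]
    [TopologicalSpace G] [ChartedSpace E G] [LieGroup 𝓘(ℝ, E) ∞ G] :
    ∃ (ν : G → ℝ) (φ : G → E) (r C : ℝ), GN ν φ r C := by
  have : IsTopologicalGroup G := topologicalGroup_of_lieGroup 𝓘(ℝ, E) ∞
  set e := extChartAt 𝓘(ℝ, E) (1 : G) with he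
  set u₀ : E := e 1 with hu₀
  let φ : G → E := fun x => e x - u₀
  let ψ : E → G := fun a => e.symm (a + u₀)
  have hψ0 : ψ 0 = 1 := by simp only [ψ, zero_add]; exact extChartAt_to_inv (1 : G)
  have hφ0 : φ 1 = 0 := sub_self _
  have hψφ : ∀ x ∈ e.source, ψ (φ x) = x := fun x hx => by
    simp only [ψ, φ, sub_add_cancel]; exact e.left_inv hx
  have htgt : e.target ∈ 𝓝 u₀ := extChartAt_target_mem_nhds (1 : G)
  have hφψ : ∀ᶠ a in 𝓝 (0 : E), φ (ψ a) = a := by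
    have c : Continuous fun a : E => a + u₀ := by fun_prop
    have : (fun a : E => a + u₀) ⁻¹' e.target ∈ 𝓝 (0 : E) :=
      c.continuousAt.preimage_mem_nhds (by simpa using htgt)
    filter_upwards [this] with a ha
    simp only [ψ, φ]
    rw [e.right_inv ha, add_sub_cancel_right]
  have hψs : ContMDiffAt 𝓘(ℝ, E) 𝓘(ℝ, E) ∞ ψ 0 := by
    have a1 : ContMDiffAt 𝓘(ℝ, E) 𝓘(ℝ, E) ∞ e.symm (0 + u₀) := by
      rw [zero_add]
      exact (contMDiffOn_extChartAt_symm (1 : G)).contMDiffAt htgt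
    exact ContMDiffAt.comp (0 : E) (f := fun a : E => a + u₀) a1
      ((contDiff_id.add contDiff_const).contMDiff.contMDiffAt)
  have hφs : ContMDiffAt 𝓘(ℝ, E) 𝓘(ℝ, E) ∞ φ 1 :=
    (contMDiffAt_extChartAt (x := (1 : G))).sub contMDiffAt_const
  have hsrc : e.source ∈ 𝓝 (1 : G) := extChartAt_source_mem_nhds (1 : G)
  have hmul : ContMDiffAt 𝓘(ℝ, E × E) 𝓘(ℝ, E) ∞ (fun p : E × E => ψ p.1 * ψ p.2) 0 := by
    refine ContMDiffAt.mul ?_ ?_
    · exact ContMDiffAt.comp (0 : E × E) (g := ψ) (f := fun p : E × E => p.1) hψs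
        contDiff_fst.contMDiff.contMDiffAt
    · exact ContMDiffAt.comp (0 : E × E) (g := ψ) (f := fun p : E × E => p.2) hψs
        contDiff_snd.contMDiff.contMDiffAt
  have hF : ContDiffAt ℝ ∞ (fun p : E × E => φ (ψ p.1 * ψ p.2)) 0 := by
    rw [← contMDiffAt_iff_contDiffAt]
    refine ContMDiffAt.comp (0 : E × E) (g := φ) (f := fun p : E × E => ψ p.1 * ψ p.2) ?_ hmul
    simpa [hψ0] using hφs
  obtain ⟨ρ, C, hρ, hC, h2⟩ := second_order (fun p : E × E => φ (ψ p.1 * ψ p.2) - p.1 - p.2)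
    (((hF.of_le (by norm_cast)).sub contDiffAt_fst).sub contDiffAt_snd)
    (by filter_upwards [hφψ] with a ha; simp [hψ0, ha])
    (by filter_upwards [hφψ] with a ha; simp [hψ0, ha])
  have hms : (fun p : E × E => ψ p.1 * ψ p.2) ⁻¹' e.source ∈ 𝓝 (0 : E × E) :=
    hmul.continuousAt.preimage_mem_nhds (by simpa [hψ0] using hsrc)
  obtain ⟨ρ', hρ', h3⟩ := Metric.mem_nhds_iff.mp hms
  have hφc : ContinuousAt φ 1 := hφs.continuousAt
  obtain ⟨ν, r, C', h⟩ := gn_of_chart φ e.source (min ρ ρ') C (by positivity) hC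
    (mem_extChartAt_source (1 : G)) hφ0 (by
      intro σ hσ
      have : φ ⁻¹' Metric.ball 0 σ ∈ 𝓝 (1 : G) :=
        hφc.preimage_mem_nhds (by rw [hφ0]; exact Metric.ball_mem_nhds _ hσ)
      filter_upwards [hsrc, this] with x hx hx'
      exact ⟨hx, mem_ball_zero_iff.mp hx'⟩) (by
      intro U hU
      have : ψ ⁻¹' U ∈ 𝓝 (0 : E) := hψs.continuousAt.preimage_mem_nhds (by rwa [hψ0])
      obtain ⟨σ, hσ, h4⟩ := Metric.mem_nhds_iff.mp this
      refine ⟨σ, hσ, fun x hx hx' => ?_⟩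
      have := h4 (mem_ball_zero_iff.mpr hx')
      rwa [Set.mem_preimage, hψφ x hx] at this) (by
      intro x hx y hy h4 h5
      have a1 := h2 (φ x) (φ y) (h4.trans_le (min_le_left _ _)) (h5.trans_le (min_le_left _ _))
      have a2 := h3 (show (φ x, φ y) ∈ Metric.ball (0 : E × E) ρ' by
        rw [mem_ball_zero_iff, Prod.norm_mk]
        exact max_lt (h4.trans_le (min_le_right _ _)) (h5.trans_le (min_le_right _ _)))
      simp only [Set.mem_preimage, hψφ x hx, hψφ y hy] at a1 a2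
      exact ⟨a2, a1⟩) (by
      intro u
      have a1 : ContMDiffAt 𝓘(ℝ, E) 𝓘(ℝ, E) ∞ (fun a : E => u * ψ a * u⁻¹) 0 :=
        (contMDiffAt_const.mul hψs).mul contMDiffAt_const
      have a2 : ContDiffAt ℝ ∞ (fun a : E => φ (u * ψ a * u⁻¹)) 0 := by
        rw [← contMDiffAt_iff_contDiffAt]
        refine ContMDiffAt.comp (0 : E) (g := φ) (f := fun a : E => u * ψ a * u⁻¹) ?_ a1
        simpa [hψ0] using hφs
      have a3 := (a2.differentiableAt (by simp)).hasFDerivAt.isBigO_sub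
      obtain ⟨L, hL⟩ := a3.bound
      simp only [hψ0, mul_one, mul_inv_cancel, hφ0, sub_zero] at hL
      have a4 : Tendsto φ (𝓝 1) (𝓝 0) := by rw [← hφ0]; exact hφc
      refine ⟨L, ?_⟩
      filter_upwards [hsrc, a4.eventually hL] with x hx hx'
      rwa [hψφ x hx] at hx')
  exact ⟨ν, φ, r, C', h⟩

end Pool.Agent.H801Z.TL
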