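import Pool.Agent.H801Z.TL.Dich
import Pool.Agent.H801Z.TL.Circle
import Pool.Agent.H801Z.TL.Lie
import Pool.Agent.H801Z.TL.Defs
import Pool.Agent.H5Z.NilNeg

/-! Every 2-large set is a set of nil-Bohr recurrence. -/

set_option autoImplicit false

namespace Pool.Agent.H801Z.TL

open Topology Filter Finset Pool.Agent.H5Z.Nil
open scoped Manifold ContDiff

lemma PB.small {f : ℕ → ℝ} (hf : PB f) {ρ : ℝ} (h0 : 0 ≤ ρ) (h1 : ρ < 1) :
    ∀ᶠ m : ℕ in atTop, f m * ρ ^ m < 1 := by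
  obtain ⟨-, A, D, hA, h⟩ := hf
  have t := (tendsto_pow_const_mul_const_pow_of_abs_lt_one D
    (r := ρ) (by rwa [abs_of_nonneg h0])).const_mul A
  rw [mul_zero] at t
  filter_upwards [t.eventually (gt_mem_nhds one_pos), eventually_ge_atTop 1] with m hm hm1
  refine lt_of_le_of_lt ?_ hm
  rw [← mul_assoc]
  exact mul_le_mul_of_nonneg_right (h m hm1) (by positivity)

section alg

variable {G : Type} [Group G] {Γ : Subgroup G} {U : Set G}

lemma allG_rep (u : G) (n : ℕ) : ∀ x y : G, (∀ t ≤ n, Nr Γ U (u ^ t * x) (u ^ t * y)) →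
    AllG Γ U (List.replicate n u) x y := by
  induction n with
  | zero => intro x y h; simpa [AllG] using h 0 le_rfl
  | succ n ih =>
    intro x y h
    refine ⟨ih x y fun t ht => h t (by omega), ih _ _ fun t ht => ?_⟩
    have := h (t + 1) (by omega)
    rwa [pow_succ, mul_assoc, mul_assoc] at this

lemma punctG_rep (u : G) (n : ℕ) (x y : G)
    (h : ∀ t < n, Nr Γ U (u ^ (t + 1) * x) (u ^ (t + 1) * y)) :
    PunctG Γ U (List.replicate n u) x y := by
  induction n with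
  | zero => trivial
  | succ n ih =>
    refine ⟨ih fun t ht => h t (by omega), allG_rep u n _ _ fun t ht => ?_⟩
    have := h t (by omega)
    rwa [pow_succ, mul_assoc, mul_assoc] at this

/-- The filtration with the first term repeated. -/
def filt' (G : Type) [Group G] (d : ℕ) : ℕ → Subgroup G
  | 0 => ⊤
  | i + 1 => filt G d i

end alg

section core

variable {G : Type} [Group G] [TopologicalSpace G] [IsTopologicalGroup G] {E : Type}
  [NormedAddCommGroup E] [NormedSpace ℝ E] [ProperSpace E] {ν : G → ℝ} {φ : G → E} {r C : ℝ}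
  {Γ : Subgroup G}

lemma base_filt {K : Set G} {d : ℕ} (hb : Base G K Γ d) : Filt (filt' G d) where
  top _ := trivial
  le i := by
    cases i with
    | zero => exact le_top
    | succ i => exact hb.good.le i
  comm i j a ha b hb' := by
    cases i with
    | zero =>
      cases j with
      | zero => trivial
      | succ j =>
        have := hb.good.comm 0 j a (filt_zero hb.nil a) b hb'
        rw [zero_add] at this ⊢
        exact hb.good.le j this
    | succ i =>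
      cases j with
      | zero =>
        have := hb.good.comm i 0 a ha b (filt_zero hb.nil b)
        exact hb.good.le i this
      | succ j =>
        have := hb.good.comm i j a ha b hb'
        rw [show i + 1 + (j + 1) = (i + j + 1) + 1 by ring]
        exact this

theorem GN.core (h : GN ν φ r C) {K : Set G} {d : ℕ} (hb : Base G K Γ d) (hd1 : 1 ≤ d) (g x : G)
    (V : Set G) (hV : V ∈ 𝓝 (1 : G)) :
    ∃ (χ : ℕ → Bool) (k : ℕ), ∀ s : ℕ, ¬ Nr Γ V x (g ^ s * x) → ∀ a, ∃ i ≤ k, ∃ j ≤ k,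
      χ (a + i * s) ≠ χ (a + j * s) := by
  classical
  have hF := base_filt hb
  have hd0 : ∀ y ∈ filt G d d, y = 1 := by
    intro y hy
    have := hy.1
    rwa [Nat.sub_self, Subgroup.upperCentralSeries_zero, Subgroup.mem_bot] at this
  have hd : ∀ y ∈ filt' G d (d + 1), y = 1 := hd0
  have hF1 : ∀ y, y ∈ filt' G d 1 := filt_zero hb.nil
  have hD : ∀ j, ∃ U ∈ 𝓝 (1 : G), ∀ n ∈ filt' G d j, ∀ l ∈ Γ, n * l ∈ U → n * l ∈ filt' G d j := by
    intro j
    cases j with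
    | zero => exact ⟨Set.univ, univ_mem, fun _ _ _ _ _ => trivial⟩
    | succ j => exact hb.good.disc j
  choose Cf hCf hCf' using hb.good.cpt
  have hC₀ : IsCompact (⋃ i ∈ range (d + 1), Cf i) :=
    (range (d + 1)).isCompact_biUnion fun i _ => hCf i
  have hC : ∀ j, ∀ y ∈ filt' G d j, ∃ c ∈ ⋃ i ∈ range (d + 1), Cf i, c ∈ filt' G d j ∧
      ∃ γ ∈ Γ, y = c * γ := by
    intro j y hy
    cases j with
    | zero =>
      obtain ⟨c, hc, -, e⟩ := hCf' 0 y (filt_zero hb.nil y)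
      exact ⟨c, Set.mem_biUnion (show 0 ∈ range (d + 1) by simp) hc, trivial, e⟩
    | succ j =>
      by_cases hj : j ≤ d
      · obtain ⟨c, hc, hc', e⟩ := hCf' j y hy
        exact ⟨c, Set.mem_biUnion (show j ∈ range (d + 1) by simp; omega) hc, hc', e⟩
      · obtain ⟨c, hc, hc', e⟩ := hCf' d y (hb.good.anti (by omega) hy)
        refine ⟨c, Set.mem_biUnion (show d ∈ range (d + 1) by simp) hc, ?_, e⟩
        rw [hd0 c hc']
        exact Subgroup.one_mem _
  have hsys : ∀ n : ℕ, SysP fun N θ a s i j => ∃ t < n, N ∣ s ∧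
      ¬ NrE ν Γ θ ((g ^ (t + 1)) ^ ((a + i * s) / N) * x) ((g ^ (t + 1)) ^ ((a + j * s) / N) * x) := by
    intro n
    induction n with
    | zero => exact SysP.triv.mono (by simp)
    | succ n ih =>
      refine (ih.or (h.sysG hF hd hF1 _ hC₀ hC (g ^ (n + 1)) x)).mono ?_
      rintro N θ a s i j ⟨t, ht, h1⟩
      rcases Nat.lt_succ_iff_lt_or_eq.mp ht with h2 | rfl
      · exact Or.inl ⟨t, h2, h1⟩
      · exact Or.inr h1
  obtain ⟨B, A', D, θ₀, hθ₀, hA', hsys⟩ := hsys d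
  obtain ⟨U, hU, hlast⟩ := hb.last_vertex V hV
  obtain ⟨ε, hε, hεU⟩ := h.basis U hU
  obtain ⟨A, hA, hdich⟩ := h.dich hF hd1 hd hF1 hD hb.disc K hb.cpt hb.cov g x ε hε
  have pQ : PB fun m => ((d * m : ℕ) : ℝ) := by
    simpa using (PB.const (Nat.cast_nonneg d)).mul PB.id
  have pf : PB fun m => 2 * ((A' * (((d * m : ℕ) : ℝ) * (A ^ 2 * (((d * m : ℕ) : ℝ) ^ d) ^ 4)) ^ D)
      * ((8 * ((d * m : ℕ) : ℝ) ^ 2 * ((d * m : ℕ) : ℝ)) ^ 2)) :=
    (PB.const (by norm_num)).mul (((PB.const hA').mul ((pQ.mul ((PB.const (by positivity)).mul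
      ((pQ.pow d).pow 4))).pow D)).mul ((((PB.const (by norm_num)).mul (pQ.pow 2)).mul pQ).pow 2))
  have hp : (0 : ℝ) < 2 ^ (B * 2) := by positivity
  have hρ0 : (0 : ℝ) ≤ 1 - 1 / 2 ^ (B * 2) := by
    rw [sub_nonneg, div_le_one hp]; exact one_le_pow₀ (by norm_num)
  have hρ1 : (1 - 1 / 2 ^ (B * 2) : ℝ) < 1 := by
    have : (0 : ℝ) < 1 / 2 ^ (B * 2) := by positivity
    linarith
  obtain ⟨m, hm1, hm2, hm3⟩ := ((pf.small hρ0 hρ1).and ((eventually_ge_atTop 2).and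
    (eventually_ge_atTop ⌈1 / θ₀⌉₊))).exists
  set Q := d * m with hQ
  have hmQ : m ≤ Q := Nat.le_mul_of_pos_left _ hd1
  have hQ2 : 2 ≤ Q := hm2.trans hmQ
  have hQ' : (1 : ℝ) ≤ Q := by exact_mod_cast (by omega : 1 ≤ Q)
  obtain ⟨N, hN, k, hk⟩ := hdich Q (by omega) m le_rfl
  have hθ : 1 / (A ^ 2 * ((Q : ℝ) ^ d) ^ 4) ≤ θ₀ := by
    rw [one_div_le (by positivity) hθ₀]
    have a1 : 1 / θ₀ ≤ (Q : ℝ) := by
      refine (Nat.le_ceil _).trans ?_
      exact_mod_cast hm3.trans hmQ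
    have a2 : (Q : ℝ) ≤ ((Q : ℝ) ^ d) ^ 4 := by
      rw [← pow_mul]
      exact le_self_pow₀ hQ' (by omega)
    have a3 : (1 : ℝ) ≤ A ^ 2 := one_le_pow₀ hA
    nlinarith
  obtain ⟨M, hM, hM'⟩ := hsys N hN Q (by omega) _ (by positivity) hθ
  have hS := hM'.prod (sys_circle (8 * Q ^ 2) (N * (Q ^ 2).factorial) Q (by positivity)
    (Nat.mul_pos hN (Nat.factorial_pos _)) (by omega))
  obtain ⟨χ, hχ⟩ := hS.colour (m := m) (k := k + Q * (Q ^ 2 * (N * (Q ^ 2).factorial))) (by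
    refine lt_of_le_of_lt (mul_le_mul_of_nonneg_right ?_ (by positivity)) hm1
    rw [div_div_eq_mul_div, div_one] at hM
    push_cast
    rw [← sq]
    gcongr) {s | ¬ Nr Γ V x (g ^ s * x)} (by
    intro s hs a
    by_cases hNs : N ∣ s
    · obtain ⟨b, w, h1, I, h2, h3, h4⟩ := hk s hNs (by
        intro u hu
        refine hs (hlast (List.replicate d u) (by simp) _ _ (punctG_rep u d _ _ fun t ht => ?_))
        obtain ⟨γ, hγ, e⟩ := hu t ht
        rw [← h.inv] at e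
        exact ⟨_, hεU _ e, γ, hγ, by group⟩) a
      refine ⟨b, w, by omega, I, h2, h3, fun i hi j hj hne => Or.inl ?_⟩
      obtain ⟨t, ht, h5⟩ := h4 i hi j hj hne
      exact ⟨t, ht, Dvd.dvd.mul_left hNs w, h5⟩
    · obtain ⟨w, h1, h2⟩ := circle_sep N Q hN hQ2 s hNs a
      refine ⟨0, w, add_le_add (Nat.zero_le _) (Nat.mul_le_mul_left _ h1), range Q, subset_rfl,
        by simpa using hmQ, fun i hi j hj hne => Or.inr ?_⟩
      simpa using h2 i (mem_range.mp hi) j (mem_range.mp hj) hne)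
  exact ⟨χ, _, hχ⟩

theorem GN.quot [WeaklyLocallyCompactSpace G] (h : GN ν φ r C) (Γ : Subgroup G)
    [DiscreteTopology Γ] [CompactSpace (G ⧸ Γ)] (d : ℕ) (hd1 : 1 ≤ d) [Group.IsNilpotent G]
    (hk : Group.nilpotencyClass G ≤ d)
    (nss : ∃ V ∈ 𝓝 (1 : G), ∀ x : G, (∀ n : ℕ, x ^ n ∈ V) → x = 1)
    (g : G) (x : G ⧸ Γ) (U : Set (G ⧸ Γ)) (hU : IsOpen U) (hxU : x ∈ U) :
    ∃ (χ : ℕ → Bool) (k : ℕ), ∀ s : ℕ, g ^ s • x ∉ U → ∀ a, ∃ i ≤ k, ∃ j ≤ k,
      χ (a + i * s) ≠ χ (a + j * s) := by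
  obtain ⟨x₀, rfl⟩ := QuotientGroup.mk_surjective x
  obtain ⟨K₀, hK₀, hcov⟩ := exists_cpt_cover Γ
  set K : Set G := K₀ ∪ {g, x₀} with hK
  have hKc : IsCompact K := hK₀.union (Set.toFinite _).isCompact
  set H : Subgroup G := Subgroup.closure K with hH
  have hg : g ∈ H := Subgroup.subset_closure (Or.inr (by simp))
  have hx : x₀ ∈ H := Subgroup.subset_closure (Or.inr (by simp))
  have hc : Continuous (Subtype.val : H → G) := continuous_subtype_val
  have hnh : ∀ V ∈ 𝓝 (1 : G), (Subtype.val : H → G) ⁻¹' V ∈ 𝓝 (1 : H) :=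
    fun V hV => hc.continuousAt.preimage_mem_nhds hV
  have hcpt : IsCompact ((Subtype.val : H → G) ⁻¹' K) := by
    rw [Subtype.isCompact_iff, Set.image_preimage_eq_of_subset]
    · exact hKc
    · intro y hy
      exact ⟨⟨y, Subgroup.subset_closure hy⟩, rfl⟩
  have hgen : Subgroup.closure ((Subtype.val : H → G) ⁻¹' K) = ⊤ :=
    Subgroup.closure_closure_coe_preimage
  have hcov' : ∀ y : H, ∃ κ ∈ (Subtype.val : H → G) ⁻¹' K, ∃ l ∈ Γ.subgroupOf H, y = κ * l := by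
    intro y
    obtain ⟨κ, hκ, l, hl, e⟩ := hcov y
    have hκH : κ ∈ H := Subgroup.subset_closure (Or.inl hκ)
    have hlH : l ∈ H := by
      have : κ * l ∈ H := e ▸ y.2
      exact (Subgroup.mul_mem_cancel_left _ hκH).mp this
    exact ⟨⟨κ, hκH⟩, Or.inl hκ, ⟨l, hlH⟩, hl, Subtype.ext e⟩
  have hdisc : ∃ U ∈ 𝓝 (1 : H), ∀ l ∈ Γ.subgroupOf H, l ∈ U → l = 1 := by
    have h1 : ({1} : Set Γ) ∈ 𝓝 (1 : Γ) := (isOpen_discrete _).mem_nhds rfl
    obtain ⟨U, hU, hU'⟩ := (mem_nhds_subtype (Γ : Set G) (1 : Γ) _).mp h1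
    refine ⟨_, hnh U hU, fun l hl hlU => Subtype.ext ?_⟩
    have : (⟨l, hl⟩ : Γ) ∈ ({1} : Set Γ) := hU' hlU
    exact congrArg (Subtype.val : Γ → G) (Set.mem_singleton_iff.mp this)
  have hbase : Base H ((Subtype.val : H → G) ⁻¹' K) (Γ.subgroupOf H) d :=
    { cpt := hcpt
      gen := hgen
      cov := hcov'
      fg := fg_lattice _ hdisc _ hcpt hgen hcov'
      disc := hdisc
      nss := by
        obtain ⟨V, hV, hn⟩ := nss
        exact ⟨_, hnh V hV, fun y hy => Subtype.ext (hn y fun n => hy n)⟩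
      nil := Subgroup.upperCentralSeries_eq_top_iff_nilpotencyClass_le.mpr
        ((Subgroup.nilpotencyClass_le H).trans hk) }
  have hV : {v : G | v • (x₀ : G ⧸ Γ) ∈ U} ∈ 𝓝 (1 : G) := by
    have c1 : Continuous fun v : G => v • (x₀ : G ⧸ Γ) := by fun_prop
    exact (hU.preimage c1).mem_nhds (by simpa using hxU)
  obtain ⟨χ, k, hχ⟩ := (h.sub H).core hbase hd1 ⟨g, hg⟩ ⟨x₀, hx⟩ _ (hnh _ hV)
  refine ⟨χ, k, fun s hs => hχ s ?_⟩
  rintro ⟨e, he, l, hl, hE⟩
  have hE' : g ^ s * x₀ = (e : G) * x₀ * (l : G) := by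
    have := congrArg Subtype.val hE
    simpa using this
  have e2 : g ^ s • (x₀ : G ⧸ Γ) = (e : G) • (x₀ : G ⧸ Γ) := by
    show ((g ^ s * x₀ : G) : G ⧸ Γ) = (((e : G) * x₀ : G) : G ⧸ Γ)
    rw [hE']
    exact QuotientGroup.mk_mul_of_mem _ hl
  exact hs (e2 ▸ he)

end core

theorem main (d : ℕ) (hd : 1 ≤ d) (S : Set ℕ+) (hS : TwoLarge S) : NilBohrRec d S := by
  intro E _ _ _ G _ _ _ _ _ _ Γ hnil hk hdisc hc g x U hU hx
  have : IsTopologicalGroup G := topologicalGroup_of_lieGroup 𝓘(ℝ, E) ∞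
  have : ProperSpace E := FiniteDimensional.proper_real E
  have : LocallyCompactSpace G := ChartedSpace.locallyCompactSpace E G
  obtain ⟨ν, φ, r, C, h⟩ := lie_gn (E := E) (G := G)
  obtain ⟨χ, k, hχ⟩ := h.quot Γ d hd hk (lie_nss (E := E)) g x U hU hx
  obtain ⟨a, s, hs, hm⟩ := hS (fun n => finTwoEquiv.symm (χ n)) (k + 1)
  refine ⟨s, hs, ?_⟩
  by_contra hn
  obtain ⟨i, hi, j, hj, hne⟩ := hχ s hn a
  have key : ∀ i ≤ k, χ (a + i * s) = χ a := by
    intro i hi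
    exact finTwoEquiv.symm.injective (hm i ⟨a + i * s, Nat.add_pos_left a.pos _⟩ (by omega) rfl)
  exact hne ((key i hi).trans (key j hj).symm)

end Pool.Agent.H801Z.TL
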