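import Mathlib

/-! Polynomial sequences in filtered groups. -/

set_option autoImplicit false

namespace Pool.Agent.H801Z.TL

open scoped commutatorElement

variable {G : Type} [Group G]

/-- A filtration indexed from zero. -/
structure Filt (F : ℕ → Subgroup G) : Prop where
  top : ∀ x, x ∈ F 0
  le : ∀ i, F (i + 1) ≤ F i
  comm : ∀ i j, ∀ a ∈ F i, ∀ b ∈ F j, ⁅a, b⁆ ∈ F (i + j)

lemma Filt.anti {F : ℕ → Subgroup G} (h : Filt F) : Antitone F := antitone_nat_of_succ_le h.le

/-- The discrete derivative. -/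
def der (h : ℕ) (q : ℕ → G) : ℕ → G := fun n => q (n + h) * (q n)⁻¹

/-- Iterated derivatives. -/
def ders : List ℕ → (ℕ → G) → ℕ → G
  | [], q => q
  | h :: l, q => ders l (der h q)

/-- Polynomial sequences adapted to the filtration shifted by `t`. -/
def Poly (F : ℕ → Subgroup G) (t : ℕ) (q : ℕ → G) : Prop :=
  ∀ l : List ℕ, ∀ n, ders l q n ∈ F (t + l.length)

variable {F : ℕ → Subgroup G}

lemma Poly.mem {t : ℕ} {q : ℕ → G} (h : Poly F t q) (n : ℕ) : q n ∈ F t := h [] n

lemma Poly.der {t : ℕ} {q : ℕ → G} (h : Poly F t q) (k : ℕ) : Poly F (t + 1) (der k q) := by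
  intro l n
  have := h (k :: l) n
  rwa [List.length_cons, add_comm l.length, ← add_assoc] at this

lemma poly_coind (K : ℕ → (ℕ → G) → Prop) (h1 : ∀ t q, K t q → ∀ n, q n ∈ F t)
    (h2 : ∀ t q, K t q → ∀ k, K (t + 1) (der k q)) {t : ℕ} {q : ℕ → G} (h : K t q) :
    Poly F t q := by
  intro l
  induction l generalizing t q with
  | nil => exact h1 t q h
  | cons k l ih =>
    intro n
    have := ih (h2 t q h k) n
    rwa [List.length_cons, add_comm l.length, ← add_assoc]

/-- The closure of polynomial sequences under the group operations. -/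
inductive InK (F : ℕ → Subgroup G) : ℕ → (ℕ → G) → Prop
  | base (t : ℕ) (q : ℕ → G) : Poly F t q → InK F t q
  | mul (t : ℕ) (q q' : ℕ → G) : InK F t q → InK F t q' → InK F t (q * q')
  | inv (t : ℕ) (q : ℕ → G) : InK F t q → InK F t q⁻¹
  | comm (r s : ℕ) (q q' : ℕ → G) : InK F r q → InK F s q' → InK F (r + s) ⁅q, q'⁆
  | mono (t : ℕ) (q : ℕ → G) : InK F (t + 1) q → InK F t q

lemma InK.anti {t t' : ℕ} {q : ℕ → G} (h : InK F t q) (ht : t' ≤ t) : InK F t' q := by
  obtain ⟨k, rfl⟩ := Nat.exists_eq_add_of_le ht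
  induction k with
  | zero => exact h
  | succ k ih => exact ih (InK.mono _ _ h) (Nat.le_add_right _ _)

lemma InK.mem (hF : Filt F) {t : ℕ} {q : ℕ → G} (h : InK F t q) : ∀ n, q n ∈ F t := by
  induction h with
  | base t q h => exact h.mem
  | mul t q q' _ _ h h' => exact fun n => (F t).mul_mem (h n) (h' n)
  | inv t q _ h => exact fun n => (F t).inv_mem (h n)
  | comm r s q q' _ _ h h' => exact fun n => hF.comm r s _ (h n) _ (h' n)
  | mono t q _ h => exact fun n => hF.le t (h n)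

lemma InK.der {t : ℕ} {q : ℕ → G} (h : InK F t q) (k : ℕ) : InK F (t + 1) (der k q) := by
  induction h with
  | base t q h => exact InK.base _ _ (h.der k)
  | mul t q q' h h' ih ih' =>
    have e : TL.der k (q * q') = TL.der k q * ⁅q, TL.der k q'⁆ * TL.der k q' := by
      funext n
      simp only [TL.der, commutatorElement_def, Pi.mul_apply, Pi.inv_apply]
      group
    rw [e]
    exact InK.mul _ _ _ (InK.mul _ _ _ ih ((InK.comm _ _ _ _ h ih').anti (by omega))) ih'
  | inv t q h ih =>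
    have e : TL.der k q⁻¹ = ⁅q⁻¹, (TL.der k q)⁻¹⁆ * (TL.der k q)⁻¹ := by
      funext n
      simp only [TL.der, commutatorElement_def, Pi.mul_apply, Pi.inv_apply]
      group
    rw [e]
    exact InK.mul _ _ _ ((InK.comm _ _ _ _ (InK.inv _ _ h) (InK.inv _ _ ih)).anti (by omega))
      (InK.inv _ _ ih)
  | comm r s q q' h h' ih ih' =>
    have hz : InK F s (TL.der k q' * q') := InK.mul _ _ _ (InK.mono _ _ ih') h'
    have hc : InK F (r + s) ⁅q, q'⁆ := InK.comm _ _ _ _ h h'
    have e : TL.der k ⁅q, q'⁆ = ⁅TL.der k q, ⁅q, TL.der k q' * q'⁆⁆ * ⁅q, TL.der k q'⁆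
        * ⁅TL.der k q', ⁅q, q'⁆⁆ * ⁅⁅q, q'⁆, ⁅TL.der k q, TL.der k q' * q'⁆⁆
        * ⁅TL.der k q, TL.der k q' * q'⁆ := by
      funext n
      simp only [TL.der, commutatorElement_def, Pi.mul_apply, Pi.inv_apply]
      group
    rw [e]
    refine InK.mul _ _ _ (InK.mul _ _ _ (InK.mul _ _ _ (InK.mul _ _ _ ?_ ?_) ?_) ?_) ?_
    · exact (InK.comm _ _ _ _ ih (InK.comm _ _ _ _ h hz)).anti (by omega)
    · exact (InK.comm _ _ _ _ h ih').anti (by omega)
    · exact (InK.comm _ _ _ _ ih' hc).anti (by omega)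
    · exact (InK.comm _ _ _ _ hc (InK.comm _ _ _ _ ih hz)).anti (by omega)
    · exact (InK.comm _ _ _ _ ih hz).anti (by omega)
  | mono t q _ ih => exact InK.mono _ _ ih

lemma InK.poly (hF : Filt F) {t : ℕ} {q : ℕ → G} (h : InK F t q) : Poly F t q :=
  poly_coind (InK F) (fun _ _ h => h.mem hF) (fun _ _ h => h.der) h

lemma Poly.mul (hF : Filt F) {t : ℕ} {q q' : ℕ → G} (h : Poly F t q) (h' : Poly F t q') :
    Poly F t fun n => q n * q' n :=
  (InK.mul _ _ _ (InK.base _ _ h) (InK.base _ _ h')).poly hF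

lemma Poly.inv (hF : Filt F) {t : ℕ} {q : ℕ → G} (h : Poly F t q) :
    Poly F t fun n => (q n)⁻¹ :=
  (InK.inv _ _ (InK.base _ _ h)).poly hF

/-- Integer sequences of degree less than `m`. -/
def IP : ℕ → (ℕ → ℤ) → Prop
  | 0, f => ∀ n, f n = 0
  | m + 1, f => ∀ k, IP m fun n => f (n + k) - f n

lemma IP.add {m : ℕ} : ∀ {f g : ℕ → ℤ}, IP m f → IP m g → IP m fun n => f n + g n := by
  induction m with
  | zero => intro f g h h' n; simp [h n, h' n]
  | succ m ih =>
    intro f g h h' k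
    have := ih (h k) (h' k)
    convert this using 2
    ring

lemma IP.shift {m : ℕ} : ∀ {f : ℕ → ℤ}, IP m f → ∀ c, IP m fun n => f (n + c) := by
  induction m with
  | zero => intro f h c n; exact h _
  | succ m ih =>
    intro f h c k
    have := ih (h k) c
    convert this using 3
    ring_nf

lemma IP.zero (m : ℕ) : IP m fun _ => 0 := by
  induction m with
  | zero => intro n; rfl
  | succ m ih => intro k; simpa using ih

lemma IP.of_one {m : ℕ} {f : ℕ → ℤ} (h : IP m fun n => f (n + 1) - f n) : IP (m + 1) f := by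
  intro k
  induction k with
  | zero => simpa using IP.zero m
  | succ k ih =>
    have := ih.add (h.shift k)
    convert this using 2
    rw [← add_assoc]
    ring

lemma ip_choose (j : ℕ) : IP (j + 1) fun n => (n.choose j : ℤ) := by
  induction j with
  | zero => intro k n; simp
  | succ j ih =>
    apply IP.of_one
    convert ih using 2
    rw [Nat.choose_succ_succ]
    push_cast
    ring

lemma ip_lin (b s : ℕ) : IP 2 fun n => ((b + n * s : ℕ) : ℤ) := by
  intro k l n
  push_cast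
  ring

lemma poly_zpow (hF : Filt F) {j : ℕ} {u : G} (hu : u ∈ F j) {f : ℕ → ℤ} (hf : IP (j + 1) f) :
    Poly F 0 fun n => u ^ f n := by
  refine poly_coind (fun t q => ∃ m f, IP m f ∧ (q = fun n => u ^ f n) ∧ (m = 0 ∨ t + m ≤ j + 1))
    ?_ ?_ ⟨j + 1, f, hf, rfl, Or.inr (by omega)⟩
  · rintro t q ⟨m, f, h1, rfl, h2⟩ n
    cases m with
    | zero => simp only; rw [h1 n, zpow_zero]; exact (F t).one_mem
    | succ m => exact (F t).zpow_mem (hF.anti (by omega) hu) _
  · rintro t q ⟨m, f, h1, rfl, h2⟩ k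
    have e : der k (fun n => u ^ f n) = fun n => u ^ (f (n + k) - f n) := by
      funext n
      simp only [der]
      rw [zpow_sub]
    cases m with
    | zero => exact ⟨0, _, fun n => by rw [h1, h1]; rfl, e, Or.inl rfl⟩
    | succ m => exact ⟨m, _, h1 k, e, Or.inr (by omega)⟩

lemma poly_choose (hF : Filt F) {j : ℕ} {u : G} (hu : u ∈ F j) :
    Poly F 0 fun n => u ^ n.choose j := by
  have := poly_zpow hF hu (ip_choose j)
  simpa using this

lemma poly_lin (hF : Filt F) {u : G} (hu : u ∈ F 1) (b s : ℕ) :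
    Poly F 0 fun n => u ^ (b + n * s) := by
  have := poly_zpow hF hu (ip_lin b s)
  simpa only [zpow_natCast] using this

lemma poly_const (hF : Filt F) (u : G) : Poly F 0 fun _ => u := by
  have := poly_choose hF (hF.top u)
  simpa using this

lemma Poly.taylor {j : ℕ} : ∀ {t : ℕ} {q : ℕ → G}, Poly F t q → (∀ i < j, q i = 1) →
    q j ∈ F (t + j) := by
  induction j with
  | zero => intro t q h _; exact h.mem 0
  | succ j ih =>
    intro t q h h0
    have := ih (h.der 1) (fun i hi => by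
      simp only [TL.der]; rw [h0 (i + 1) (by omega), h0 i (by omega)]; simp)
    simp only [TL.der] at this
    rw [h0 j (by omega), inv_one, mul_one, add_assoc, add_comm 1 j] at this
    exact this

lemma Poly.eq_one (hF : Filt F) {d : ℕ} (hd : ∀ x ∈ F (d + 1), x = 1) {q : ℕ → G}
    (h : Poly F 0 q) (h0 : ∀ i < d + 1, q i = 1) (n : ℕ) : q n = 1 := by
  induction n using Nat.strong_induction_on with
  | _ n ih =>
    by_cases hn : n < d + 1
    · exact h0 n hn
    · have := h.taylor ih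
      rw [zero_add] at this
      exact hd _ (hF.anti (by omega) this)

/-- The sequence with a given list of Taylor coefficients, starting at degree `j`. -/
def ev : ℕ → List G → ℕ → G
  | _, [], _ => 1
  | j, c :: l, n => c ^ n.choose j * ev (j + 1) l n

lemma peel (hF : Filt F) {j : ℕ} {q : ℕ → G} (h : Poly F 0 q) (h0 : ∀ i < j, q i = 1)
    {c γ : G} (hc : c ∈ F j) (e : q j = c * γ) :
    Poly F 0 (fun n => (c ^ n.choose j)⁻¹ * q n * (γ ^ n.choose j)⁻¹) ∧
      ∀ i < j + 1, (c ^ i.choose j)⁻¹ * q i * (γ ^ i.choose j)⁻¹ = 1 := by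
  have hq : q j ∈ F j := by simpa using h.taylor h0
  have hγ : γ ∈ F j := by
    rw [e] at hq
    exact (Subgroup.mul_mem_cancel_left _ hc).mp hq
  refine ⟨(((poly_choose hF hc).inv hF).mul hF h).mul hF ((poly_choose hF hγ).inv hF), ?_⟩
  intro i hi
  rcases Nat.lt_succ_iff_lt_or_eq.mp hi with hi | rfl
  · rw [Nat.choose_eq_zero_of_lt hi, h0 i hi]; simp
  · rw [Nat.choose_self, e]; group

/-- Factorisation with bounded coefficients. -/
lemma bdd_factor (hF : Filt F) {d : ℕ} (hd : ∀ x ∈ F (d + 1), x = 1) (Γ : Subgroup G) (C : Set G)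
    (hC : ∀ j, ∀ x ∈ F j, ∃ c ∈ C, c ∈ F j ∧ ∃ γ ∈ Γ, x = c * γ) (m : ℕ) :
    ∀ j, j + m = d + 1 → ∀ q : ℕ → G, Poly F 0 q → (∀ i < j, q i = 1) →
      ∃ l : List G, l.length = m ∧ (∀ c ∈ l, c ∈ C) ∧ ∀ n, ∃ γ ∈ Γ, q n = ev j l n * γ := by
  induction m with
  | zero =>
    intro j hj q hq h0
    refine ⟨[], rfl, by simp, fun n => ⟨1, Γ.one_mem, ?_⟩⟩
    rw [hq.eq_one hF hd (fun i hi => h0 i (by omega)) n]
    simp [ev]
  | succ m ih =>
    intro j hj q hq h0
    obtain ⟨c, hc, hcF, γ, hγ, e⟩ := hC j (q j) (by simpa using hq.taylor h0)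
    obtain ⟨h1, h2⟩ := peel hF hq h0 hcF e
    obtain ⟨l, hl, hlC, h3⟩ := ih (j + 1) (by omega) _ h1 h2
    refine ⟨c :: l, by simp [hl], ?_, fun n => ?_⟩
    · intro x hx
      rcases List.mem_cons.mp hx with rfl | hx
      · exact hc
      · exact hlC x hx
    · obtain ⟨γ', hγ', h4⟩ := h3 n
      refine ⟨γ' * γ ^ n.choose j, Γ.mul_mem hγ' (Γ.pow_mem hγ _), ?_⟩
      simp only [ev]
      rw [mul_assoc, ← mul_assoc (ev _ _ _), ← h4]
      group

end Pool.Agent.H801Z.TL
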