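import Pool.Agent.H801Z.TL.Comb
import Pool.Agent.H801Z.TL.Poly

/-! Groups with a subadditive norm which is comparable to the norm of a chart. -/

set_option autoImplicit false

namespace Pool.Agent.H801Z.TL

open Topology Filter
open scoped commutatorElement

/-- A subadditive norm on a topological group together with an almost additive chart. -/
structure GN {G : Type} [Group G] [TopologicalSpace G] {E : Type} [NormedAddCommGroup E]
    (ν : G → ℝ) (φ : G → E) (r C : ℝ) : Prop where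
  nonneg : ∀ x, 0 ≤ ν x
  one : ν 1 = 0
  mul : ∀ x y, ν (x * y) ≤ ν x + ν y
  inv : ∀ x, ν x⁻¹ = ν x
  nhds : ∀ ε, 0 < ε → {x | ν x < ε} ∈ 𝓝 (1 : G)
  basis : ∀ U ∈ 𝓝 (1 : G), ∃ ε, 0 < ε ∧ ∀ x, ν x ≤ ε → x ∈ U
  conj : ∀ K : Set G, IsCompact K → ∃ L : ℝ, 1 ≤ L ∧ ∀ u ∈ K, ∀ x,
    ν (u * x * u⁻¹) ≤ L * ν x ∧ ν (u⁻¹ * x * u) ≤ L * ν x
  rpos : 0 < r
  one_le : 1 ≤ C
  add : ∀ x y, ν x ≤ r → ν y ≤ r → ‖φ (x * y) - φ x - φ y‖ ≤ C * ν x * ν y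
  up : ∀ x, ν x ≤ r → ‖φ x‖ ≤ C * ν x
  low : ∀ x, ν x ≤ r → ν x ≤ C * ‖φ x‖

variable {G : Type} [Group G] [TopologicalSpace G] {E : Type} [NormedAddCommGroup E]
  {ν : G → ℝ} {φ : G → E} {r C : ℝ}

lemma GN.sub (h : GN ν φ r C) (H : Subgroup G) :
    GN (fun x : H => ν x) (fun x : H => φ x) r C where
  nonneg x := h.nonneg x
  one := h.one
  mul x y := h.mul x y
  inv x := h.inv x
  nhds ε hε :=
    (continuous_subtype_val.continuousAt (x := (1 : H))).preimage_mem_nhds (h.nhds ε hε)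
  basis U hU := by
    obtain ⟨V, hV, hVU⟩ := (mem_nhds_subtype (H : Set G) (1 : H) U).mp hU
    obtain ⟨ε, hε, h1⟩ := h.basis V hV
    exact ⟨ε, hε, fun x hx => hVU (h1 x hx)⟩
  conj K hK := by
    obtain ⟨L, hL, h1⟩ := h.conj _ (hK.image continuous_subtype_val)
    exact ⟨L, hL, fun u hu x => h1 u ⟨u, hu, rfl⟩ x⟩
  rpos := h.rpos
  one_le := h.one_le
  add x y := h.add x y
  up x := h.up x
  low x := h.low x

lemma GN.pow (h : GN ν φ r C) (x : G) (n : ℕ) : ν (x ^ n) ≤ n * ν x := by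
  induction n with
  | zero => simp [h.one]
  | succ n ih =>
    rw [pow_succ]
    have := h.mul (x ^ n) x
    push_cast
    linarith

lemma GN.phi_one (h : GN ν φ r C) : φ 1 = 0 := by
  have := h.up 1 (by rw [h.one]; exact h.rpos.le)
  rw [h.one, mul_zero] at this
  exact norm_le_zero_iff.mp this

/-- The cosets of `y` and `z` are at distance at most `ε`. -/
def NrE (ν : G → ℝ) (Γ : Subgroup G) (ε : ℝ) (y z : G) : Prop := ∃ γ ∈ Γ, ν (y * γ * z⁻¹) ≤ ε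

variable {Γ : Subgroup G}

lemma GN.nr_refl (h : GN ν φ r C) {ε : ℝ} (hε : 0 ≤ ε) (y : G) : NrE ν Γ ε y y :=
  ⟨1, Γ.one_mem, by simpa [h.one] using hε⟩

lemma GN.nr_symm (h : GN ν φ r C) {ε : ℝ} {y z : G} (h1 : NrE ν Γ ε y z) : NrE ν Γ ε z y := by
  obtain ⟨γ, hγ, h2⟩ := h1
  refine ⟨γ⁻¹, Γ.inv_mem hγ, ?_⟩
  have e : z * γ⁻¹ * y⁻¹ = (y * γ * z⁻¹)⁻¹ := by group
  rwa [e, h.inv]

lemma GN.nr_trans (h : GN ν φ r C) {ε ε' : ℝ} {x y z : G} (h1 : NrE ν Γ ε x y)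
    (h2 : NrE ν Γ ε' y z) : NrE ν Γ (ε + ε') x z := by
  obtain ⟨γ, hγ, h1⟩ := h1
  obtain ⟨γ', hγ', h2⟩ := h2
  refine ⟨γ * γ', Γ.mul_mem hγ hγ', ?_⟩
  have e : x * (γ * γ') * z⁻¹ = (x * γ * y⁻¹) * (y * γ' * z⁻¹) := by group
  rw [e]
  exact (h.mul _ _).trans (add_le_add h1 h2)

omit [TopologicalSpace G] in
lemma NrE.mono {ε ε' : ℝ} {x y : G} (h1 : NrE ν Γ ε x y) (h : ε ≤ ε') : NrE ν Γ ε' x y := by
  obtain ⟨γ, hγ, h1⟩ := h1
  exact ⟨γ, hγ, h1.trans h⟩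

omit [TopologicalSpace G] in
lemma NrE.right {ε : ℝ} {x y γ γ' : G} (h1 : NrE ν Γ ε x y) (hγ : γ ∈ Γ) (hγ' : γ' ∈ Γ) :
    NrE ν Γ ε (x * γ) (y * γ') := by
  obtain ⟨δ, hδ, h1⟩ := h1
  refine ⟨γ⁻¹ * δ * γ', Γ.mul_mem (Γ.mul_mem (Γ.inv_mem hγ) hδ) hγ', ?_⟩
  have e : x * γ * (γ⁻¹ * δ * γ') * (y * γ')⁻¹ = x * δ * y⁻¹ := by group
  rwa [e]

omit [TopologicalSpace G] in
lemma nr_of_le {ε : ℝ} {x y : G} (h1 : ν (x * y⁻¹) ≤ ε) : NrE ν Γ ε x y :=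
  ⟨1, Γ.one_mem, by simpa using h1⟩

section filt

variable {F : ℕ → Subgroup G}

lemma GN.conj_pow (h : GN ν φ r C) (hF : Filt F) {d : ℕ} (hd : ∀ x ∈ F (d + 1), x = 1)
    {L : ℝ} (hL : 1 ≤ L) {u : G} (hu1 : u ∈ F 1) (hu : ∀ x, ν (u * x * u⁻¹) ≤ L * ν x) (b : ℕ) :
    ∀ m j, j + m = d + 1 → ∀ x ∈ F j, ∀ n ≤ b,
      ν (u ^ n * x * (u ^ n)⁻¹) ≤ ((L + 1) * (b + 1)) ^ m * ν x := by
  have hb : (0 : ℝ) ≤ b := by positivity
  have hK1 : (1 : ℝ) ≤ (L + 1) * (b + 1) := by nlinarith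
  intro m
  induction m with
  | zero =>
    intro j hj x hx n _
    rw [hd x (by rw [← hj]; exact hx)]
    simp [h.one]
  | succ m ih =>
    intro j hj x hx n hn
    have hc : ⁅u, x⁆ ∈ F (j + 1) := by
      have := hF.comm 1 j u hu1 x hx
      rwa [add_comm] at this
    have hcn : ν ⁅u, x⁆ ≤ (L + 1) * ν x := by
      have := h.mul (u * x * u⁻¹) x⁻¹
      rw [h.inv] at this
      rw [commutatorElement_def]
      linarith [hu x]
    set K := ((L + 1) * (b + 1)) ^ m with hK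
    have hK2 : 1 ≤ K := one_le_pow₀ hK1
    have hx0 := h.nonneg x
    have key : ∀ n ≤ b, ν (u ^ n * x * (u ^ n)⁻¹) ≤ ν x + n * (K * ((L + 1) * ν x)) := by
      intro n
      induction n with
      | zero => intro _; simp
      | succ n ihn =>
        intro hn
        have e : u ^ (n + 1) * x * (u ^ (n + 1))⁻¹
            = (u ^ n * ⁅u, x⁆ * (u ^ n)⁻¹) * (u ^ n * x * (u ^ n)⁻¹) := by
          rw [pow_succ, commutatorElement_def]; group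
        rw [e]
        have a1 := h.mul (u ^ n * ⁅u, x⁆ * (u ^ n)⁻¹) (u ^ n * x * (u ^ n)⁻¹)
        have a2 := ih (j + 1) (by omega) _ hc n (by omega)
        have a3 := ihn (by omega)
        have a4 : K * ν ⁅u, x⁆ ≤ K * ((L + 1) * ν x) := mul_le_mul_of_nonneg_left hcn (by linarith)
        push_cast
        linarith
    refine (key n hn).trans ?_
    have hnb : (n : ℝ) ≤ b := by exact_mod_cast hn
    have a5 : ν x ≤ K * ((L + 1) * ν x) := by nlinarith [mul_nonneg (sub_nonneg.mpr hK2) hx0]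
    have a6 : 0 ≤ K * ((L + 1) * ν x) := le_trans hx0 a5
    rw [pow_succ, ← hK]
    nlinarith

lemma GN.pow_sub (h : GN ν φ r C) {u v : G} {K δ : ℝ} {b : ℕ} (hK : 0 ≤ K)
    (hu : ∀ n ≤ b, ∀ x, ν (u ^ n * x * (u ^ n)⁻¹) ≤ K * ν x) (hv : ν (v * u⁻¹) ≤ δ) :
    ∀ n ≤ b, ν (v ^ n * (u ^ n)⁻¹) ≤ n * (K * δ) := by
  intro n
  induction n with
  | zero => intro _; simp [h.one]
  | succ n ih =>
    intro hn
    have e : v ^ (n + 1) * (u ^ (n + 1))⁻¹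
        = (v ^ n * (u ^ n)⁻¹) * (u ^ n * (v * u⁻¹) * (u ^ n)⁻¹) := by
      rw [pow_succ, pow_succ]; group
    rw [e]
    have a1 := h.mul (v ^ n * (u ^ n)⁻¹) (u ^ n * (v * u⁻¹) * (u ^ n)⁻¹)
    have a2 := hu n (by omega) (v * u⁻¹)
    have a3 := ih (by omega)
    have a4 := mul_le_mul_of_nonneg_left hv hK
    push_cast
    linarith

lemma GN.ev_lip (h : GN ν φ r C) {K δ : ℝ} {b : ℕ} (hK : 1 ≤ K) (hδ : 0 ≤ δ) (i : ℕ)
    {l l' : List G} (hl : List.Forall₂ (fun u v => ν (v * u⁻¹) ≤ δ) l l') :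
    ∀ j, (∀ u ∈ l, ∀ n ≤ b, ∀ x, ν (u ^ n * x * (u ^ n)⁻¹) ≤ K * ν x) →
      (∀ k < j + l.length, i.choose k ≤ b) →
      ν (ev j l' i * (ev j l i)⁻¹) ≤ l.length * b * K ^ l.length * δ := by
  induction hl with
  | nil => intro j _ _; simp [ev, h.one]
  | @cons u v l l' huv _ ih =>
    intro j hu hb
    have hn : i.choose j ≤ b := hb j (by simp)
    have a1 := ih (j + 1) (fun w hw => hu w (List.mem_cons_of_mem _ hw))
      (fun k hk => hb k (by simp only [List.length_cons]; omega))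
    have hu' := hu u List.mem_cons_self
    have a2 := h.pow_sub (by linarith) hu' huv _ hn
    have e : ev j (v :: l') i * (ev j (u :: l) i)⁻¹ = (v ^ i.choose j * (u ^ i.choose j)⁻¹) *
        (u ^ i.choose j * (ev (j + 1) l' i * (ev (j + 1) l i)⁻¹) * (u ^ i.choose j)⁻¹) := by
      simp only [ev]; group
    rw [e]
    refine (h.mul _ _).trans ?_
    have a3 := hu' _ hn (ev (j + 1) l' i * (ev (j + 1) l i)⁻¹)
    have a4 := mul_le_mul_of_nonneg_left a1 (by linarith : (0 : ℝ) ≤ K)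
    have hn' : ((i.choose j : ℕ) : ℝ) ≤ b := by exact_mod_cast hn
    have a5 : ((i.choose j : ℕ) : ℝ) * (K * δ) ≤ b * (K * δ) :=
      mul_le_mul_of_nonneg_right hn' (by positivity)
    have a6 : (1 : ℝ) ≤ K ^ l.length := one_le_pow₀ hK
    have a7 : (b : ℝ) * (K * δ) ≤ b * (K * δ) * K ^ l.length :=
      le_mul_of_one_le_right (by positivity) a6
    simp only [List.length_cons]
    push_cast
    rw [pow_succ]
    nlinarith

/-- Factorisation with small coefficients. -/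
lemma GN.small_factor (h : GN ν φ r C) (hF : Filt F) {d : ℕ} (hd : ∀ x ∈ F (d + 1), x = 1)
    (hD : ∀ j, ∃ U ∈ 𝓝 (1 : G), ∀ n ∈ F j, ∀ l ∈ Γ, n * l ∈ U → n * l ∈ F j) (m : ℕ) :
    ∀ j, j + m = d + 1 → ∀ η : ℝ, 0 < η → ∃ η₁ : ℝ, 0 < η₁ ∧ ∀ q : ℕ → G, Poly F 0 q →
      (∀ i < j, q i = 1) → (∀ i ≤ d, ∃ γ ∈ Γ, ν (q i * γ) ≤ η₁) →
      ∃ l : List G, l.length = m ∧ (∀ c ∈ l, ν c ≤ η) ∧ ∀ n, ∃ γ ∈ Γ, q n = ev j l n * γ := by
  induction m with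
  | zero =>
    intro j hj η _
    refine ⟨1, one_pos, fun q hq h0 _ => ⟨[], rfl, by simp, fun n => ⟨1, Γ.one_mem, ?_⟩⟩⟩
    rw [hq.eq_one hF hd (fun i hi => h0 i (by omega)) n]
    simp [ev]
  | succ m ih =>
    intro j hj η hη
    obtain ⟨η₂, hη₂, h2⟩ := ih (j + 1) (by omega) η hη
    obtain ⟨U, hU, hU'⟩ := hD j
    obtain ⟨ε, hε, hεU⟩ := h.basis U hU
    have hp : (0 : ℝ) < 2 ^ d + 1 := by positivity
    refine ⟨min (min η ε) (η₂ / (2 ^ d + 1)), by positivity, fun q hq h0 hn => ?_⟩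
    obtain ⟨γ, hγ, hc⟩ := hn j (by omega)
    have hqj : q j ∈ F j := by simpa using hq.taylor h0
    have hcF : q j * γ ∈ F j :=
      hU' _ hqj _ hγ (hεU _ (hc.trans ((min_le_left _ _).trans (min_le_right _ _))))
    obtain ⟨h3, h4⟩ := peel hF hq h0 hcF (γ := γ⁻¹) (by group)
    obtain ⟨l, hl, hlη, h5⟩ := h2 _ h3 h4 (by
      intro i hi
      obtain ⟨γ', hγ', hc'⟩ := hn i hi
      refine ⟨γ⁻¹ ^ i.choose j * γ', Γ.mul_mem (Γ.pow_mem (Γ.inv_mem hγ) _) hγ', ?_⟩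
      have e : ((q j * γ) ^ i.choose j)⁻¹ * q i * (γ⁻¹ ^ i.choose j)⁻¹ * (γ⁻¹ ^ i.choose j * γ')
          = ((q j * γ) ^ i.choose j)⁻¹ * (q i * γ') := by group
      rw [e]
      refine (h.mul _ _).trans ?_
      rw [h.inv]
      have a1 := h.pow (q j * γ) (i.choose j)
      have a2 : ((i.choose j : ℕ) : ℝ) ≤ 2 ^ d := by
        have := (Nat.choose_le_two_pow i j).trans (Nat.pow_le_pow_right (by norm_num) hi)
        exact_mod_cast this
      have a3 := hc.trans (min_le_right _ _)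
      have a4 := hc'.trans (min_le_right _ _)
      have a5 : ((i.choose j : ℕ) : ℝ) * ν (q j * γ) ≤ 2 ^ d * (η₂ / (2 ^ d + 1)) :=
        mul_le_mul a2 a3 (h.nonneg _) (by positivity)
      have a6 : 2 ^ d * (η₂ / (2 ^ d + 1)) + η₂ / (2 ^ d + 1) = η₂ := by field_simp
      linarith)
    refine ⟨(q j * γ) :: l, by simp [hl], ?_, fun n => ?_⟩
    · intro x hx
      rcases List.mem_cons.mp hx with rfl | hx
      · exact hc.trans ((min_le_left _ _).trans (min_le_left _ _))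
      · exact hlη x hx
    · obtain ⟨γ', hγ', h6⟩ := h5 n
      refine ⟨γ' * γ⁻¹ ^ n.choose j, Γ.mul_mem hγ' (Γ.pow_mem (Γ.inv_mem hγ) _), ?_⟩
      simp only [ev]
      rw [mul_assoc, ← mul_assoc (ev _ _ _), ← h6]
      group

end filt

section cover

variable [NormedSpace ℝ E] [ProperSpace E]

lemma GN.packing (h : GN ν φ r C) : ∃ B : ℕ, ∃ r₀ : ℝ, 0 < r₀ ∧ r₀ ≤ 1 ∧ ∀ ε, 0 < ε → ε ≤ r₀ →
    ∀ S : Finset G, (∀ f ∈ S, ν f ≤ 2 * ε) → (∀ f ∈ S, ∀ g ∈ S, f ≠ g → ¬ ν (f * g⁻¹) ≤ ε) →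
      S.card ≤ B := by
  classical
  have hC := h.one_le
  have hr := h.rpos
  obtain ⟨t, -, htf, ht⟩ := (isCompact_closedBall (0 : E) (2 * C)).finite_cover_balls
    (show (0 : ℝ) < 1 / (4 * C) by positivity)
  refine ⟨htf.toFinset.card, min (min (r / 4) (1 / (4 * C ^ 2))) 1, by positivity, min_le_right _ _,
    fun ε hε hε' S h1 h2 => ?_⟩
  have e1 : ε ≤ r / 4 := hε'.trans ((min_le_left _ _).trans (min_le_left _ _))
  have e2 : ε ≤ 1 / (4 * C ^ 2) := hε'.trans ((min_le_left _ _).trans (min_le_right _ _))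
  rw [le_div_iff₀ (by positivity)] at e2
  have hch : ∀ f : G, ∃ c : E, f ∈ S → c ∈ t ∧ ε⁻¹ • φ f ∈ Metric.ball c (1 / (4 * C)) := by
    intro f
    by_cases hf : f ∈ S
    · have a1 : ε⁻¹ • φ f ∈ Metric.closedBall (0 : E) (2 * C) := by
        rw [mem_closedBall_zero_iff, norm_smul, norm_inv, Real.norm_eq_abs, abs_of_pos hε,
          inv_mul_le_iff₀ hε]
        have := h.up f (by linarith [h1 f hf])
        nlinarith [h1 f hf]
      obtain ⟨c, hc, hc'⟩ := Set.mem_iUnion₂.mp (ht a1)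
      exact ⟨c, fun _ => ⟨hc, hc'⟩⟩
    · exact ⟨0, fun h => absurd h hf⟩
  choose c hc using hch
  apply Finset.card_le_card_of_injOn c
  · intro f hf
    simpa using (hc f hf).1
  · intro f hf g hg e
    by_contra hne
    apply h2 f hf g hg hne
    have a1 := (hc f hf).2
    have a2 := (hc g hg).2
    rw [← e] at a2
    have a3 : dist (ε⁻¹ • φ f) (ε⁻¹ • φ g) < 1 / (4 * C) + 1 / (4 * C) :=
      lt_of_le_of_lt (dist_triangle_right _ _ (c f)) (add_lt_add a1 a2)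
    rw [dist_eq_norm, ← smul_sub, norm_smul, norm_inv, Real.norm_eq_abs, abs_of_pos hε,
      inv_mul_lt_iff₀ hε] at a3
    have b1 : ν (f * g⁻¹) ≤ 4 * ε := by
      have := h.mul f g⁻¹
      rw [h.inv] at this
      linarith [h1 f hf, h1 g hg]
    have b2 := h.add (f * g⁻¹) g (by linarith) (by linarith [h1 g hg])
    rw [inv_mul_cancel_right] at b2
    have b3 := h.low (f * g⁻¹) (by linarith)
    have b4 : ‖φ (f * g⁻¹)‖ ≤ ‖φ f - φ g‖ + ‖φ f - φ (f * g⁻¹) - φ g‖ := by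
      have e3 : φ (f * g⁻¹) = (φ f - φ g) - (φ f - φ (f * g⁻¹) - φ g) := by abel
      conv_lhs => rw [e3]
      exact norm_sub_le _ _
    have b5 : C * ‖φ f - φ g‖ ≤ ε / 2 := by
      have e4 : ε * (1 / (4 * C) + 1 / (4 * C)) = ε / 2 / C := by field_simp; ring
      rw [e4, lt_div_iff₀ (by linarith)] at a3
      linarith
    have n1 := h.nonneg (f * g⁻¹)
    have n2 := h.nonneg g
    have b6 : C * (C * ν (f * g⁻¹) * ν g) ≤ ν (f * g⁻¹) / 2 := by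
      have : C ^ 2 * ν g ≤ 1 / 2 := by nlinarith [h1 g hg, sq_nonneg C]
      nlinarith
    have b7 : C * ‖φ (f * g⁻¹)‖ ≤ C * (‖φ f - φ g‖ + C * ν (f * g⁻¹) * ν g) :=
      mul_le_mul_of_nonneg_left (by linarith) (by linarith)
    nlinarith

omit [NormedSpace ℝ E] [ProperSpace E] in
lemma GN.cover0 [IsTopologicalGroup G] (h : GN ν φ r C) (K : Set G) (hK : IsCompact K) (ε : ℝ)
    (hε : 0 < ε) : ∃ Z : Finset G, ∀ u ∈ K, ∃ z ∈ Z, ν (z * u⁻¹) ≤ ε := by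
  obtain ⟨t, -, ht⟩ := hK.elim_nhds_subcover (fun x => {g | ν (x * g⁻¹) < ε}) (by
    intro x _
    have c : Continuous fun g : G => x * g⁻¹ := by fun_prop
    exact c.continuousAt.preimage_mem_nhds (t := {y | ν y < ε}) (by simpa using h.nhds ε hε))
  refine ⟨t, fun κ hκ => ?_⟩
  obtain ⟨x, hx, h⟩ := Set.mem_iUnion₂.mp (ht hκ)
  exact ⟨x, hx, le_of_lt h⟩

lemma GN.cover [IsTopologicalGroup G] (h : GN ν φ r C) (K : Set G) (hK : IsCompact K) :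
    ∃ A : ℝ, ∃ D : ℕ, 0 ≤ A ∧ ∀ δ : ℝ, 0 < δ → δ ≤ 1 → ∃ Z : Finset G,
      (Z.card : ℝ) ≤ A * (1 / δ) ^ D ∧ ∀ u ∈ K, ∃ z ∈ Z, ν (z * u⁻¹) ≤ δ := by
  classical
  obtain ⟨B, r₀, hr₀, hr₁, hB⟩ := h.packing
  obtain ⟨Z₀, hZ₀⟩ := h.cover0 K hK r₀ hr₀
  have key : ∀ j : ℕ, ∃ Z : Finset G, Z.card ≤ Z₀.card * B ^ j ∧
      ∀ u ∈ K, ∃ z ∈ Z, ν (z * u⁻¹) ≤ r₀ * (1 / 2) ^ j := by
    intro j
    induction j with
    | zero => exact ⟨Z₀, by simp, by simpa using hZ₀⟩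
    | succ j ih =>
      obtain ⟨Z, hZ, hZ'⟩ := ih
      have hε : 0 < r₀ * (1 / 2) ^ (j + 1) := by positivity
      have hε' : r₀ * (1 / 2) ^ (j + 1) ≤ r₀ :=
        mul_le_of_le_one_right hr₀.le (pow_le_one₀ (by norm_num) (by norm_num))
      obtain ⟨W, w1, w2, w3⟩ := exists_max_sep (fun x => ν x ≤ 2 * (r₀ * (1 / 2) ^ (j + 1)))
        (fun x y => ν (x * y⁻¹) ≤ r₀ * (1 / 2) ^ (j + 1)) (fun x => by simpa [h.one] using hε.le)
        (fun x y hxy => by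
          have e : y * x⁻¹ = (x * y⁻¹)⁻¹ := by group
          rwa [e, h.inv]) B (hB _ hε hε')
      refine ⟨Finset.image₂ (fun z f => f * z) Z W, ?_, fun u hu => ?_⟩
      · refine (Finset.card_image₂_le _ _ _).trans ?_
        rw [pow_succ, ← mul_assoc]
        exact Nat.mul_le_mul hZ (hB _ hε hε' W w1 w2)
      · obtain ⟨z, hz, hzu⟩ := hZ' u hu
        have e1 : u * z⁻¹ = (z * u⁻¹)⁻¹ := by group
        obtain ⟨f, hf, hf'⟩ := w3 (u * z⁻¹) (by rw [pow_succ, e1, h.inv]; linarith)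
        refine ⟨f * z, Finset.mem_image₂_of_mem hz hf, ?_⟩
        have e2 : f * z * u⁻¹ = (u * z⁻¹ * f⁻¹)⁻¹ := by group
        rwa [e2, h.inv]
  refine ⟨Z₀.card * 2 ^ B, B, by positivity, fun δ hδ hδ1 => ?_⟩
  have hex : ∃ j : ℕ, (1 / 2 : ℝ) ^ j ≤ δ := by
    obtain ⟨j, hj⟩ := exists_pow_lt_of_lt_one hδ (show (1 / 2 : ℝ) < 1 by norm_num)
    exact ⟨j, hj.le⟩
  have hj := Nat.find_spec hex
  have hj2 : (2 : ℝ) ^ Nat.find hex ≤ 2 * (1 / δ) := by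
    rcases Nat.eq_zero_or_pos (Nat.find hex) with h0 | h0
    · rw [h0, pow_zero]
      have : 1 ≤ 1 / δ := by rw [le_div_iff₀ hδ]; linarith
      linarith
    · obtain ⟨k, hk⟩ := Nat.exists_eq_add_of_lt h0
      have a1 := Nat.find_min hex (m := k) (by omega)
      push Not at a1
      rw [hk, zero_add, pow_succ, mul_comm]
      rw [one_div_pow, lt_div_iff₀ (by positivity)] at a1
      have : (2 : ℝ) ^ k ≤ 1 / δ := by rw [le_div_iff₀ hδ]; linarith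
      linarith
  obtain ⟨Z, hZ, hZ'⟩ := key (Nat.find hex)
  refine ⟨Z, ?_, fun u hu => ?_⟩
  · generalize Nat.find hex = j at hZ hj2
    have a1 : B ^ j ≤ (2 ^ j) ^ B := by
      rw [← pow_mul, mul_comm, pow_mul]
      exact Nat.pow_le_pow_left Nat.lt_two_pow_self.le _
    have a2 : (Z.card : ℝ) ≤ Z₀.card * ((2 : ℝ) ^ j) ^ B := by
      have := hZ.trans (Nat.mul_le_mul_left _ a1)
      exact_mod_cast this
    refine a2.trans ?_
    rw [mul_assoc, ← mul_pow]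
    gcongr
  · obtain ⟨z, hz, h1⟩ := hZ' u hu
    refine ⟨z, hz, h1.trans ?_⟩
    have : (0 : ℝ) < (1 / 2) ^ Nat.find hex := by positivity
    nlinarith

omit [NormedSpace ℝ E] [ProperSpace E] in
lemma GN.xnet [IsTopologicalGroup G] (h : GN ν φ r C) (K : Set G) (hK : IsCompact K)
    (hcov : ∀ g : G, ∃ κ ∈ K, ∃ l ∈ Γ, g = κ * l) (ε : ℝ) (hε : 0 < ε) :
    ∃ S : Finset G, (∀ f ∈ S, ∀ g ∈ S, f ≠ g → ¬ NrE ν Γ ε f g) ∧ ∀ x, ∃ f ∈ S, NrE ν Γ ε x f := by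
  obtain ⟨Z, hZ⟩ := h.cover0 K hK (ε / 2) (by positivity)
  obtain ⟨S, -, h2, h3⟩ := exists_max_sep (fun _ => True) (NrE ν Γ ε) (h.nr_refl hε.le)
    (fun _ _ => h.nr_symm) Z.card (by
      intro S _ hS
      have hch : ∀ x : G, ∃ z ∈ Z, NrE ν Γ (ε / 2) z x := by
        intro x
        obtain ⟨κ, hκ, l, hl, rfl⟩ := hcov x
        obtain ⟨z, hz, h1⟩ := hZ κ hκ
        have := (nr_of_le (Γ := Γ) h1).right Γ.one_mem hl
        exact ⟨z, hz, by simpa using this⟩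
      choose c hc hc' using hch
      apply Finset.card_le_card_of_injOn c (fun x _ => hc x)
      intro f hf g hg e
      by_contra hne
      apply hS f hf g hg hne
      have := h.nr_trans (h.nr_symm (hc' f)) (e ▸ hc' g)
      simpa using this)
  exact ⟨S, h2, fun x => h3 x trivial⟩

lemma GN.ball_card (h : GN ν φ r C) : ∃ B : ℕ, ∃ r₀ : ℝ, 0 < r₀ ∧ r₀ ≤ 1 ∧ ∀ ε, 0 < ε → ε ≤ r₀ →
    ∀ S : Finset G, (∀ f ∈ S, ∀ g ∈ S, f ≠ g → ¬ NrE ν Γ ε f g) → ∀ z : G,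
      (∀ f ∈ S, NrE ν Γ (2 * ε) f z) → S.card ≤ B := by
  classical
  obtain ⟨B, r₀, hr₀, hr₁, hB⟩ := h.packing
  refine ⟨B, r₀, hr₀, hr₁, fun ε hε hε' S hS z hz => ?_⟩
  have hch : ∀ f : G, ∃ γ ∈ Γ, f ∈ S → ν (f * γ * z⁻¹) ≤ 2 * ε := by
    intro f
    by_cases hf : f ∈ S
    · obtain ⟨γ, hγ, h1⟩ := hz f hf
      exact ⟨γ, hγ, fun _ => h1⟩
    · exact ⟨1, Γ.one_mem, fun h => absurd h hf⟩
  choose c hc hc' using hch
  have key : ∀ f ∈ S, ∀ g ∈ S, f ≠ g → ¬ ν (f * c f * z⁻¹ * (g * c g * z⁻¹)⁻¹) ≤ ε := by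
    intro f hf g hg hne h1
    refine hS f hf g hg hne ⟨c f * (c g)⁻¹, Γ.mul_mem (hc f) (Γ.inv_mem (hc g)), ?_⟩
    have e : f * (c f * (c g)⁻¹) * g⁻¹ = f * c f * z⁻¹ * (g * c g * z⁻¹)⁻¹ := by group
    rwa [e]
  have hinj : Set.InjOn (fun f => f * c f * z⁻¹) S := by
    intro f hf g hg e
    by_contra hne
    apply key f hf g hg hne
    simp only at e
    rw [e, mul_inv_cancel, h.one]
    exact hε.le
  rw [← Finset.card_image_of_injOn hinj]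
  apply hB ε hε hε'
  · intro x hx
    obtain ⟨f, hf, rfl⟩ := Finset.mem_image.mp hx
    exact hc' f hf
  · intro x hx y hy hxy
    obtain ⟨f, hf, rfl⟩ := Finset.mem_image.mp hx
    obtain ⟨g, hg, rfl⟩ := Finset.mem_image.mp hy
    exact key f hf g hg fun e => hxy (by rw [e])

end cover

end Pool.Agent.H801Z.TL
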