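import Mathlib

/-! A real polynomial which is almost constant on many points has small coefficients. -/

set_option autoImplicit false

namespace Pool.Agent.H801Z.TL

open Finset Polynomial

lemma coeff_prod_le {ι : Type} (s : Finset ι) (a b : ι → ℝ) (Q : ℝ) (hQ : 0 ≤ Q)
    (ha : ∀ i ∈ s, |a i| ≤ 1) (hb : ∀ i ∈ s, |b i| ≤ Q) :
    ∀ m, |(∏ i ∈ s, C (a i) * (X - C (b i))).coeff m| ≤ (1 + Q) ^ s.card := by
  classical
  induction s using Finset.induction_on with
  | empty =>
    intro m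
    simp only [prod_empty, card_empty, pow_zero, coeff_one]
    split_ifs <;> simp
  | insert i s hi ih =>
    intro m
    have ih' := ih (fun j hj => ha j (mem_insert_of_mem hj)) (fun j hj => hb j (mem_insert_of_mem hj))
    rw [prod_insert hi, card_insert_of_notMem hi, pow_succ, mul_assoc, coeff_C_mul, sub_mul,
      coeff_sub, coeff_C_mul, abs_mul]
    set p := ∏ i ∈ s, C (a i) * (X - C (b i)) with hp
    have h0 : (0 : ℝ) ≤ (1 + Q) ^ s.card := by positivity
    have h1 : |(X * p).coeff m| ≤ (1 + Q) ^ s.card := by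
      cases m with
      | zero => simpa using h0
      | succ m => rw [coeff_X_mul]; exact ih' m
    have h2 : |b i * p.coeff m| ≤ Q * (1 + Q) ^ s.card := by
      rw [abs_mul]
      exact mul_le_mul (hb i (mem_insert_self _ _)) (ih' m) (abs_nonneg _) hQ
    have h3 := abs_sub ((X * p).coeff m) (b i * p.coeff m)
    have h4 := ha i (mem_insert_self _ _)
    have h5 := abs_nonneg ((X * p).coeff m - b i * p.coeff m)
    nlinarith

lemma coeff_le_of_nodes (d Q : ℕ) (p : ℝ[X]) (hp : p.natDegree ≤ d) (T : Finset ℕ)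
    (hT : T ⊆ range Q) (hc : T.card = d + 1) (v κ : ℝ) (hv : ∀ i ∈ T, |p.eval (i : ℝ) - v| ≤ κ)
    (m : ℕ) (hm : 1 ≤ m) : |p.coeff m| ≤ (d + 1) * (κ * (1 + Q) ^ d) := by
  classical
  have hinj : Set.InjOn (fun i : ℕ => (i : ℝ)) T := fun a _ b _ h => Nat.cast_injective h
  have hdeg : (p - C v).degree < T.card := by
    rw [hc]
    refine lt_of_le_of_lt (degree_sub_le _ _) (max_lt ?_ ?_)
    · exact lt_of_le_of_lt degree_le_natDegree (by exact_mod_cast Nat.lt_succ_of_le hp)
    · exact lt_of_le_of_lt degree_C_le (by exact_mod_cast Nat.succ_pos d)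
  have e := Lagrange.eq_interpolate_of_eval_eq (r := fun i : ℕ => (p - C v).eval (i : ℝ)) hinj hdeg
    (fun _ _ => rfl)
  have e2 : p.coeff m = (p - C v).coeff m := by
    rw [coeff_sub, coeff_C, if_neg (by omega), sub_zero]
  rw [e2, e, Lagrange.interpolate_apply, finsetSum_coeff]
  refine (abs_sum_le_sum_abs _ _).trans ?_
  have hb : ∀ i ∈ T, |(C ((p - C v).eval (i : ℝ)) *
      Lagrange.basis T (fun i : ℕ => (i : ℝ)) i).coeff m| ≤ κ * (1 + Q) ^ d := by
    intro i hi
    rw [coeff_C_mul, abs_mul, eval_sub, eval_C]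
    refine mul_le_mul (hv i hi) ?_ (abs_nonneg _) ((abs_nonneg _).trans (hv i hi))
    have := coeff_prod_le (T.erase i) (fun j => ((i : ℝ) - j)⁻¹) (fun j => (j : ℝ)) Q
      (by positivity) (by
        intro j hj
        have a1 : (1 : ℤ) ≤ |(i : ℤ) - j| := Int.one_le_abs (by
          have := ne_of_mem_erase hj
          omega)
        have a2 : (1 : ℝ) ≤ |(i : ℝ) - j| := by exact_mod_cast a1
        rw [abs_inv]
        exact inv_le_one_of_one_le₀ a2) (by
        intro j hj
        have := mem_range.mp (hT (mem_of_mem_erase hj))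
        rw [Nat.abs_cast]
        exact_mod_cast this.le) m
    rw [card_erase_of_mem hi, hc, Nat.add_sub_cancel] at this
    exact this
  refine (sum_le_card_nsmul _ _ _ hb).trans ?_
  rw [hc, nsmul_eq_mul]
  push_cast
  exact le_rfl

/-- The binomial coefficient as a real polynomial. -/
noncomputable def chP (j : ℕ) : ℝ[X] := C ((j.factorial : ℝ)⁻¹) * descPochhammer ℝ j

lemma chP_eval (j n : ℕ) : (chP j).eval (n : ℝ) = n.choose j := by
  rw [chP, eval_mul, eval_C, descPochhammer_eval_eq_descFactorial,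
    Nat.descFactorial_eq_factorial_mul_choose]
  have : (j.factorial : ℝ) ≠ 0 := by positivity
  push_cast
  field_simp

lemma chP_deg (j : ℕ) : (chP j).natDegree ≤ j :=
  (natDegree_C_mul_le _ _).trans (descPochhammer_natDegree ℝ j).le

theorem real_poly (d : ℕ) : ∃ c : ℝ, 0 ≤ c ∧ ∀ (a : ℕ → ℝ) (w Q : ℕ), 1 ≤ w → ∀ T : Finset ℕ,
    T ⊆ range Q → T.card = d + 1 → ∀ v κ : ℝ,
    (∀ i ∈ T, |∑ j ∈ range (d + 1), ((w * i).choose j : ℝ) * a j - v| ≤ κ) →
    ∀ j, 1 ≤ j → j ≤ d → (w : ℝ) ^ j * |a j| ≤ c * (κ * (1 + Q) ^ d) := by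
  classical
  let e : ℕ → ℕ → ℝ := fun j m => (fwdDiff (1 : ℝ))^[j] (fun x : ℝ => x ^ m) 0
  refine ⟨(d + 1) * ∑ j ∈ range (d + 1), ∑ m ∈ range (d + 1), |e j m|, by positivity, ?_⟩
  intro a w Q hw T hT hc v κ hv j hj1 hjd
  set p : ℝ[X] := ∑ j ∈ range (d + 1), C (a j) * chP j with hp
  have hpd : p.natDegree ≤ d := by
    refine natDegree_sum_le_of_forall_le _ _ fun j hj => ?_
    exact (natDegree_C_mul_le _ _).trans ((chP_deg j).trans (Nat.lt_succ_iff.mp (mem_range.mp hj)))
  have hpe : ∀ n : ℕ, p.eval (n : ℝ) = ∑ j ∈ range (d + 1), (n.choose j : ℝ) * a j := by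
    intro n
    rw [hp, eval_finsetSum]
    refine sum_congr rfl fun j _ => ?_
    rw [eval_mul, eval_C, chP_eval, mul_comm]
  have hκ : 0 ≤ κ := by
    obtain ⟨i, hi⟩ : T.Nonempty := card_pos.mp (by omega)
    exact (abs_nonneg _).trans (hv i hi)
  have hq : ∀ m, 1 ≤ m → |p.coeff m| * (w : ℝ) ^ m ≤ (d + 1) * (κ * (1 + Q) ^ d) := by
    intro m hm
    have := coeff_le_of_nodes d Q (p.comp (C (w : ℝ) * X)) (by
      refine natDegree_comp_le.trans ?_
      have : (C (w : ℝ) * X).natDegree ≤ 1 := (natDegree_C_mul_le _ _).trans natDegree_X_le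
      calc p.natDegree * (C (w : ℝ) * X).natDegree ≤ d * 1 := Nat.mul_le_mul hpd this
        _ = d := mul_one d) T hT hc v κ (by
      intro i hi
      rw [eval_comp, eval_mul, eval_C, eval_X, ← Nat.cast_mul, hpe]
      exact hv i hi) m hm
    rwa [comp_C_mul_X_coeff, abs_mul, abs_pow, Nat.abs_cast] at this
  have ha : a j = ∑ m ∈ range (d + 1), p.coeff m * e j m := by
    have s1 : (fwdDiff (1 : ℝ))^[j] (fun x : ℝ => p.eval x) 0 = a j := by
      rw [fwdDiff_iter_eq_sum_shift]
      have t1 : ∀ k ∈ range (j + 1), ((-1 : ℤ) ^ (j - k) * j.choose k) • p.eval (0 + k • (1 : ℝ))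
          = ∑ i ∈ range (d + 1), (((-1 : ℤ) ^ (j - k) * j.choose k * k.choose i : ℤ) : ℝ) * a i := by
        intro k _
        rw [zero_add, nsmul_eq_mul, mul_one, hpe, zsmul_eq_mul, mul_sum]
        refine sum_congr rfl fun i _ => ?_
        push_cast
        ring
      rw [sum_congr rfl t1, sum_comm]
      have t2 : ∀ i ∈ range (d + 1), ∑ k ∈ range (j + 1),
          (((-1 : ℤ) ^ (j - k) * j.choose k * k.choose i : ℤ) : ℝ) * a i
            = if j = i then a i else 0 := by
        intro i _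
        have t3 := fwdDiff_iter_choose_zero i j
        rw [fwdDiff_iter_eq_sum_shift] at t3
        simp only [zero_add, smul_eq_mul, mul_one] at t3
        rw [← sum_mul, ← Int.cast_sum, t3]
        split_ifs <;> simp
      rw [sum_congr rfl t2, sum_ite_eq, if_pos (mem_range.mpr (by omega))]
    have s2 : (fun x : ℝ => p.eval x) = ∑ m ∈ range (d + 1), p.coeff m • fun x : ℝ => x ^ m := by
      funext x
      rw [eval_eq_sum_range' (Nat.lt_succ_of_le hpd)]
      simp
    rw [← s1, s2, fwdDiff_iter_finsetSum, Finset.sum_apply]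
    refine sum_congr rfl fun m _ => ?_
    rw [fwdDiff_iter_const_smul]
    rfl
  have hw' : (1 : ℝ) ≤ w := by exact_mod_cast hw
  have hK : 0 ≤ (d + 1 : ℝ) * (κ * (1 + Q) ^ d) := by positivity
  have hterm : ∀ m ∈ range (d + 1), (w : ℝ) ^ j * |p.coeff m * e j m|
      ≤ (d + 1) * (κ * (1 + Q) ^ d) * |e j m| := by
    intro m _
    by_cases hm : m < j
    · have : e j m = 0 := congrFun (fwdDiff_iter_pow_eq_zero_of_lt (R := ℝ) hm) 0
      rw [this]; simp
    · rw [abs_mul, ← mul_assoc]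
      refine mul_le_mul_of_nonneg_right (le_trans ?_ (hq m (by omega))) (abs_nonneg _)
      rw [mul_comm]
      exact mul_le_mul_of_nonneg_left (pow_le_pow_right₀ hw' (by omega)) (abs_nonneg _)
  calc (w : ℝ) ^ j * |a j| ≤ (w : ℝ) ^ j * ∑ m ∈ range (d + 1), |p.coeff m * e j m| := by
        rw [ha]
        exact mul_le_mul_of_nonneg_left (abs_sum_le_sum_abs _ _) (by positivity)
    _ ≤ ∑ m ∈ range (d + 1), (d + 1) * (κ * (1 + Q) ^ d) * |e j m| := by
        rw [mul_sum]
        exact sum_le_sum hterm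
    _ = (d + 1) * (κ * (1 + Q) ^ d) * ∑ m ∈ range (d + 1), |e j m| := by rw [mul_sum]
    _ ≤ (d + 1) * (κ * (1 + Q) ^ d) * ∑ j ∈ range (d + 1), ∑ m ∈ range (d + 1), |e j m| := by
        refine mul_le_mul_of_nonneg_left ?_ hK
        exact single_le_sum (f := fun j => ∑ m ∈ range (d + 1), |e j m|)
          (fun _ _ => sum_nonneg fun _ _ => abs_nonneg _) (mem_range.mpr (by omega))
    _ = _ := by ring

end Pool.Agent.H801Z.TL
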