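import Pool.Agent.H801Z.TL.Norm
import Pool.Agent.H801Z.TL.RealPoly

/-! Polynomial sequences with small but not too small coefficients have separated values. -/

set_option autoImplicit false

namespace Pool.Agent.H801Z.TL

open Topology Filter Finset

variable {G : Type} [Group G] [TopologicalSpace G] {E : Type} [NormedAddCommGroup E]
  [NormedSpace ℝ E] {ν : G → ℝ} {φ : G → E} {r C : ℝ} {Γ : Subgroup G}

/-- The size of the coefficients. -/
def sz (ν : G → ℝ) (j : ℕ) (l : List G) (n : ℕ) : ℝ :=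
  ∑ k ∈ range l.length, (n.choose (j + k) : ℝ) * ν (l.getD k 1)

/-- The linearised sequence. -/
def lin (φ : G → E) (j : ℕ) (l : List G) (n : ℕ) : E :=
  ∑ k ∈ range l.length, (n.choose (j + k) : ℝ) • φ (l.getD k 1)

omit [TopologicalSpace G] in
lemma sz_cons (j : ℕ) (c : G) (l : List G) (n : ℕ) :
    sz ν j (c :: l) n = (n.choose j : ℝ) * ν c + sz ν (j + 1) l n := by
  simp only [sz, List.length_cons]
  rw [sum_range_succ', add_comm]
  simp only [List.getD_cons_zero, List.getD_cons_succ, add_zero]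
  congr 1
  refine sum_congr rfl fun k _ => ?_
  rw [add_assoc, add_comm 1 k]

omit [TopologicalSpace G] in
lemma lin_cons (j : ℕ) (c : G) (l : List G) (n : ℕ) :
    lin φ j (c :: l) n = (n.choose j : ℝ) • φ c + lin φ (j + 1) l n := by
  simp only [lin, List.length_cons]
  rw [sum_range_succ', add_comm]
  simp only [List.getD_cons_zero, List.getD_cons_succ, add_zero]
  congr 1
  refine sum_congr rfl fun k _ => ?_
  rw [add_assoc, add_comm 1 k]

omit [NormedSpace ℝ E] in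
lemma GN.sz_nonneg (h : GN ν φ r C) (j : ℕ) (l : List G) (n : ℕ) : 0 ≤ sz ν j l n :=
  sum_nonneg fun _ _ => mul_nonneg (Nat.cast_nonneg _) (h.nonneg _)

omit [NormedSpace ℝ E] in
lemma GN.ev_norm (h : GN ν φ r C) (l : List G) (n : ℕ) : ∀ j, ν (ev j l n) ≤ sz ν j l n := by
  induction l with
  | nil => intro j; simp [ev, sz, h.one]
  | cons c l ih =>
    intro j
    rw [sz_cons]
    exact (h.mul _ _).trans (add_le_add (h.pow _ _) (ih _))

lemma GN.pow_chart (h : GN ν φ r C) (c : G) (b : ℕ) (hb : b * ν c ≤ r) :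
    ‖φ (c ^ b) - (b : ℝ) • φ c‖ ≤ C * (b * ν c) ^ 2 := by
  induction b with
  | zero => simp [h.phi_one]
  | succ b ih =>
    have h0 := h.nonneg c
    have hb0 : (0 : ℝ) ≤ b := by positivity
    have hC := h.one_le
    push_cast at hb ⊢
    have a1 := ih (by nlinarith)
    have a2 := h.pow c b
    have a3 := h.add (c ^ b) c (by nlinarith) (by nlinarith)
    have e : φ (c ^ (b + 1)) - ((b : ℝ) + 1) • φ c
        = (φ (c ^ b * c) - φ (c ^ b) - φ c) + (φ (c ^ b) - (b : ℝ) • φ c) := by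
      rw [pow_succ, add_smul, one_smul]; abel
    rw [e]
    refine (norm_add_le _ _).trans ?_
    have a4 : C * ν (c ^ b) * ν c ≤ C * (b * ν c) * ν c := by gcongr
    have a5 : 0 ≤ C * (ν c) ^ 2 := by positivity
    have a6 : 0 ≤ C * b * (ν c) ^ 2 := by positivity
    nlinarith

lemma GN.ev_chart (h : GN ν φ r C) (l : List G) (n : ℕ) :
    ∀ j, sz ν j l n ≤ r → ‖φ (ev j l n) - lin φ j l n‖ ≤ C * (sz ν j l n) ^ 2 := by
  induction l with
  | nil => intro j _; simp [ev, sz, lin, h.phi_one]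
  | cons c l ih =>
    intro j hr
    rw [sz_cons] at hr ⊢
    rw [lin_cons]
    have s0 := h.sz_nonneg (j + 1) l n
    have s1 : 0 ≤ (n.choose j : ℝ) * ν c := mul_nonneg (Nat.cast_nonneg _) (h.nonneg _)
    have a1 := ih (j + 1) (by linarith)
    have a2 := h.pow_chart c (n.choose j) (by linarith)
    have a3 := h.pow c (n.choose j)
    have a4 := h.ev_norm l n (j + 1)
    have a5 := h.add (c ^ n.choose j) (ev (j + 1) l n) (by linarith) (by linarith)
    have e : φ (ev j (c :: l) n) - ((n.choose j : ℝ) • φ c + lin φ (j + 1) l n)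
        = (φ (c ^ n.choose j * ev (j + 1) l n) - φ (c ^ n.choose j) - φ (ev (j + 1) l n))
          + (φ (c ^ n.choose j) - (n.choose j : ℝ) • φ c)
          + (φ (ev (j + 1) l n) - lin φ (j + 1) l n) := by
      simp only [ev]; abel
    rw [e]
    refine norm_add₃_le.trans ?_
    have hC := h.one_le
    have a6 : C * ν (c ^ n.choose j) * ν (ev (j + 1) l n)
        ≤ C * ((n.choose j : ℝ) * ν c) * sz ν (j + 1) l n := by
      have := h.nonneg (ev (j + 1) l n)
      gcongr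
    have a7 : 0 ≤ C * ((n.choose j : ℝ) * ν c) * sz ν (j + 1) l n := by positivity
    nlinarith

omit [NormedSpace ℝ E] in
lemma GN.sz_le (h : GN ν φ r C) {d : ℕ} {l : List G} (hl : l.length = d) {w Q i : ℕ} (hQ : 1 ≤ Q)
    (hi : i ≤ Q) {β : ℝ} (hβ : ∀ k < d, (w : ℝ) ^ (k + 1) * ν (l.getD k 1) ≤ β) :
    sz ν 1 l (w * i) ≤ d * ((Q : ℝ) ^ d * β) := by
  have hQ' : (1 : ℝ) ≤ Q := by exact_mod_cast hQ
  have hb : ∀ k ∈ range l.length, ((w * i).choose (1 + k) : ℝ) * ν (l.getD k 1)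
      ≤ (Q : ℝ) ^ d * β := by
    intro k hk
    rw [mem_range, hl] at hk
    have a1 : ((w * i).choose (1 + k) : ℝ) ≤ (Q : ℝ) ^ d * (w : ℝ) ^ (k + 1) := by
      have b1 : (w * i).choose (1 + k) ≤ Q ^ d * w ^ (k + 1) := by
        refine (Nat.choose_le_pow _ _).trans ?_
        rw [mul_pow, mul_comm, add_comm 1 k]
        exact Nat.mul_le_mul_right _
          ((Nat.pow_le_pow_left hi _).trans (Nat.pow_le_pow_right hQ (by omega)))
      exact_mod_cast b1
    calc _ ≤ (Q : ℝ) ^ d * (w : ℝ) ^ (k + 1) * ν (l.getD k 1) :=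
          mul_le_mul_of_nonneg_right a1 (h.nonneg _)
      _ ≤ _ := by
          rw [mul_assoc]
          exact mul_le_mul_of_nonneg_left (hβ k hk) (by positivity)
  refine (sum_le_card_nsmul _ _ _ hb).trans ?_
  rw [card_range, hl, nsmul_eq_mul]

theorem GN.sep (h : GN ν φ r C) (d : ℕ) (K : Set G) (hK : IsCompact K)
    (hdisc : ∃ U ∈ 𝓝 (1 : G), ∀ l ∈ Γ, l ∈ U → l = 1) :
    ∃ A : ℝ, 1 ≤ A ∧ ∀ Q : ℕ, 1 ≤ Q → ∀ κ ∈ K, ∀ l : List G, l.length = d → ∀ w : ℕ, 1 ≤ w →
      (∀ k < d, (w : ℝ) ^ (k + 1) * ν (l.getD k 1) ≤ 2 ^ d * (1 / (A * ((Q : ℝ) ^ d) ^ 3))) →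
      (∃ k < d, 1 / (A * ((Q : ℝ) ^ d) ^ 3) ≤ (w : ℝ) ^ (k + 1) * ν (l.getD k 1)) →
      ∀ i < Q, ∀ T ⊆ range Q, i ∉ T → T.card = d →
        ¬ ∀ j ∈ T, NrE ν Γ (1 / (A ^ 2 * ((Q : ℝ) ^ d) ^ 4)) (κ * ev 1 l (w * j))
          (κ * ev 1 l (w * i)) := by
  classical
  obtain ⟨U, hU, hU'⟩ := hdisc
  obtain ⟨r₂, hr₂, hr₂'⟩ := h.basis U hU
  obtain ⟨L, hL, hL'⟩ := h.conj K hK
  obtain ⟨c, hc, hpoly⟩ := real_poly d
  have hC := h.one_le
  have hr := h.rpos
  set ρ := min (min r r₂) 1 with hρ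
  have hρ0 : 0 < ρ := by positivity
  have hρ1 : ρ ≤ r := (min_le_left _ _).trans (min_le_left _ _)
  have hρ2 : ρ ≤ r₂ := (min_le_left _ _).trans (min_le_right _ _)
  have hρ3 : ρ ≤ 1 := min_le_right _ _
  set D : ℝ := d * 2 ^ d with hD
  have hD0 : 0 ≤ D := by positivity
  set c' : ℝ := 2 * C ^ 2 * c * 2 ^ d with hc'
  have hc'0 : 0 ≤ c' := by positivity
  set A : ℝ := c' * (L + D ^ 2) + 1 + (L + 2 * D) / ρ with hA
  have p1 : 0 ≤ c' * (L + D ^ 2) := by positivity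
  have p2 : 0 ≤ (L + 2 * D) / ρ := by positivity
  have hA1 : 1 ≤ A := by linarith
  have hA2 : L + 2 * D ≤ A * ρ := by
    rw [← div_le_iff₀ hρ0]; linarith
  have hA3 : c' * (L + D ^ 2) < A := by linarith
  clear_value A
  refine ⟨A, hA1, fun Q hQ κ hκ l hl w hw hup hlow i hi T hT hiT hTc hcl => ?_⟩
  have hQ' : (1 : ℝ) ≤ Q := by exact_mod_cast hQ
  set y : ℝ := (Q : ℝ) ^ d with hy
  have hy1 : 1 ≤ y := one_le_pow₀ hQ'
  set η : ℝ := 1 / (A * y ^ 3) with hη
  set θ : ℝ := 1 / (A ^ 2 * y ^ 4) with hθ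
  have hη0 : 0 < η := by positivity
  have hθ0 : 0 < θ := by positivity
  have e1 : y * θ = η / A := by rw [hη, hθ]; field_simp
  have e2 : y ^ 3 * η ^ 2 = η / A := by rw [hη]; field_simp
  have e3 : A * (y * η) ≤ 1 := by
    have : A * (y * η) = 1 / y ^ 2 := by rw [hη]; field_simp
    rw [this, div_le_one (by positivity)]
    exact one_le_pow₀ hy1
  have e4 : A * θ ≤ 1 := by
    have : A * θ = 1 / (A * y ^ 4) := by rw [hθ]; field_simp
    rw [this, div_le_one (by positivity)]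
    exact one_le_mul_of_one_le_of_one_le hA1 (one_le_pow₀ hy1)
  clear_value η θ
  set R : ℝ := D * (y * η) with hR
  have hR0 : 0 ≤ R := by positivity
  have e5 : L * θ + 2 * R ≤ ρ := by
    have a1 : A * (L * θ + 2 * R) ≤ A * ρ := by
      rw [hR]; nlinarith
    exact le_of_mul_le_mul_left a1 (by linarith)
  have hLθ : 0 ≤ L * θ := by positivity
  have hsz : ∀ j ≤ Q, sz ν 1 l (w * j) ≤ R := by
    intro j hj
    have := h.sz_le hl hQ hj hup
    rw [hR, hD]
    linarith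
  have hev : ∀ j ≤ Q, ν (ev 1 l (w * j)) ≤ R := fun j hj => (h.ev_norm _ _ _).trans (hsz j hj)
  have hch : ∀ j ≤ Q, ‖φ (ev 1 l (w * j)) - lin φ 1 l (w * j)‖ ≤ C * R ^ 2 := by
    intro j hj
    refine (h.ev_chart _ _ _ ((hsz j hj).trans (by linarith))).trans ?_
    have := h.sz_nonneg 1 l (w * j)
    have := hsz j hj
    gcongr
  have hclose : ∀ j ∈ insert i T, ‖lin φ 1 l (w * j) - lin φ 1 l (w * i)‖
      ≤ 2 * C * (L * θ + R ^ 2) := by
    intro j hj
    rcases mem_insert.mp hj with rfl | hj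
    · rw [sub_self, norm_zero]; positivity
    · have hjQ : j ≤ Q := (mem_range.mp (hT hj)).le
      obtain ⟨γ, hγ, h1⟩ := hcl j hj
      have a1 := (hL' κ hκ (κ * ev 1 l (w * j) * γ * (κ * ev 1 l (w * i))⁻¹)).2
      have a2 : κ⁻¹ * (κ * ev 1 l (w * j) * γ * (κ * ev 1 l (w * i))⁻¹) * κ
          = ev 1 l (w * j) * γ * (ev 1 l (w * i))⁻¹ := by group
      rw [a2] at a1
      have a3 := a1.trans (mul_le_mul_of_nonneg_left h1 (by linarith))
      have b1 := hev j hjQ
      have b2 := hev i hi.le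
      have c1 := hch j hjQ
      have c2 := hch i hi.le
      generalize ev 1 l (w * j) = u at a3 b1 c1
      generalize ev 1 l (w * i) = v at a3 b2 c2
      have hγ1 : γ = 1 := by
        refine hU' γ hγ (hr₂' γ ?_)
        have e : γ = u⁻¹ * (u * γ * v⁻¹) * v := by group
        have t1 := h.mul (u⁻¹ * (u * γ * v⁻¹)) v
        have t2 := h.mul u⁻¹ (u * γ * v⁻¹)
        rw [← e] at t1
        rw [h.inv] at t2
        linarith
      rw [hγ1, mul_one] at a3
      have d1 := h.add (u * v⁻¹) v (by linarith) (by linarith)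
      rw [inv_mul_cancel_right] at d1
      have d2 := h.up (u * v⁻¹) (by linarith)
      have d3 : C * ν (u * v⁻¹) ≤ C * (L * θ) := mul_le_mul_of_nonneg_left a3 (by linarith)
      have d4 : C * ν (u * v⁻¹) * ν v ≤ C * (L * θ) * 1 :=
        mul_le_mul d3 (by linarith) (h.nonneg _) (by positivity)
      have e : lin φ 1 l (w * j) - lin φ 1 l (w * i) = ((φ u - φ (u * v⁻¹) - φ v) + φ (u * v⁻¹))
          + (φ v - lin φ 1 l (w * i)) - (φ u - lin φ 1 l (w * j)) := by abel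
      rw [e]
      refine (norm_sub_le _ _).trans ?_
      have d5 := norm_add₃_le (a := φ u - φ (u * v⁻¹) - φ v) (b := φ (u * v⁻¹))
        (c := φ v - lin φ 1 l (w * i))
      linarith
  obtain ⟨k, hk, hk'⟩ := hlow
  obtain ⟨f, hf1, hf2⟩ := exists_dual_vector'' ℝ (φ (l.getD k 1))
  let a : ℕ → ℝ := fun j => Nat.casesOn j 0 fun k => f (φ (l.getD k 1))
  have hfl : ∀ n : ℕ, ∑ j ∈ range (d + 1), (n.choose j : ℝ) * a j = f (lin φ 1 l n) := by
    intro n
    rw [sum_range_succ', lin, map_sum, hl]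
    have a0 : a 0 = 0 := rfl
    rw [a0, mul_zero, add_zero]
    simp only [a, map_smul, smul_eq_mul, add_comm 1]
  have key := hpoly a w Q hw (insert i T) (insert_subset (mem_range.mpr hi) hT)
    (by rw [card_insert_of_notMem hiT, hTc]) (f (lin φ 1 l (w * i))) (2 * C * (L * θ + R ^ 2)) (by
      intro j hj
      rw [hfl, ← map_sub]
      refine (f.le_opNorm _).trans ?_
      exact (mul_le_mul hf1 (hclose j hj) (norm_nonneg _) zero_le_one).trans (by rw [one_mul]))
    (k + 1) (by omega) (by omega)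
  have ea : a (k + 1) = ‖φ (l.getD k 1)‖ := hf2
  rw [ea, abs_norm] at key
  have hw' : (1 : ℝ) ≤ (w : ℝ) ^ (k + 1) := one_le_pow₀ (by exact_mod_cast hw)
  have g1 : ν (l.getD k 1) ≤ r := by
    have t1 := hup k hk
    have t2 := h.nonneg (l.getD k 1)
    have t3 : (1 : ℝ) ≤ d := by exact_mod_cast (by omega : 1 ≤ d)
    have t4 : 2 ^ d * η ≤ R := by
      rw [hR, hD]
      have t5 : (0 : ℝ) ≤ 2 ^ d * η := by positivity
      have t6 : (1 : ℝ) ≤ d * y := one_le_mul_of_one_le_of_one_le t3 hy1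
      nlinarith
    nlinarith
  have g2 := mul_le_mul_of_nonneg_left (h.low _ g1) (by positivity : (0 : ℝ) ≤ (w : ℝ) ^ (k + 1))
  have g3 : (1 + (Q : ℝ)) ^ d ≤ 2 ^ d * y := by
    rw [hy, ← mul_pow]
    exact pow_le_pow_left₀ (by positivity) (by linarith) _
  have g4 : c * (2 * C * (L * θ + R ^ 2) * (1 + (Q : ℝ)) ^ d)
      ≤ c * (2 * C * (L * θ + R ^ 2) * (2 ^ d * y)) := by gcongr
  have g5 := mul_le_mul_of_nonneg_left (key.trans g4) (by linarith : (0 : ℝ) ≤ C)
  have g6 : C * (c * (2 * C * (L * θ + R ^ 2) * (2 ^ d * y)))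
      = c' * (L * (y * θ) + D ^ 2 * (y ^ 3 * η ^ 2)) := by rw [hc', hR]; ring
  rw [g6, e1, e2] at g5
  have g7 : η ≤ c' * (L + D ^ 2) * (η / A) := by nlinarith
  have g8 : c' * (L + D ^ 2) * (η / A) < A * (η / A) :=
    mul_lt_mul_of_pos_right hA3 (by positivity)
  rw [mul_div_cancel₀ _ (by linarith : A ≠ 0)] at g8
  linarith

end Pool.Agent.H801Z.TL
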